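import Pool.Agent.Lib.MP_a5a771_alT.Defs

/-!
# The components of an alternating tensor

PROOF. `ξ = ∑_{χ ∈ s} ξ_χ`, `s` a finite set of characters, `ξ_χ ∈ TT2 (Yk act χ n) (Yk act χ n)` with one `n` (`Submodule.mem_iSup_iff_exists_finsupp` or `Submodule.iSup_induction` /
`Submodule.mem_iSup_iff_exists_dfinsupp'`; `TT2_mono`, `Yk_mono` to make `n` common). For `χ ∈ s` there is `a ∈ A` with `a - 1 ∈ (ker χ) ^ n` and `a ∈ (ker ψ) ^ n` for all
`ψ ∈ s`, `ψ ≠ χ`: the kernels of different characters are different maximal ideals (`A / ker χ = F`; or directly: if `χ c ≠ ψ c` then `(c - ψ c) / (χ c - ψ c)` is `1` at `χ` and `0` at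
`ψ`), so `(ker χ) ^ n` and `∏ (ker ψ) ^ n` are coprime (`Ideal.isCoprime_...`, `IsCoprime.pow`, `IsCoprime.prod_right`). Then `act a` is the identity on `Yk act χ n` and `0` on `Yk act ψ n`,
so `(act a ⊗ act a) ξ = ξ_χ`; and `act a ⊗ act a` maps `AltS` to itself (it commutes with `comm`). So `ξ_χ ∈ AltS ⊓ TT2 …`.
-/

set_option autoImplicit false

namespace EL

open scoped TensorProduct

private theorem AC_cop {F A : Type*} [Field F] [CommRing A] [Algebra F A] {χ ψ : A →ₐ[F] F} (h : χ ≠ ψ) :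
    IsCoprime (RingHom.ker χ) (RingHom.ker ψ) := by
  obtain ⟨c, hc⟩ : ∃ c, χ c ≠ ψ c := by
    by_contra hn
    exact h (AlgHom.ext fun c => not_not.1 fun hc => hn ⟨c, hc⟩)
  have hd : χ c - ψ c ≠ 0 := sub_ne_zero.2 hc
  rw [Ideal.isCoprime_iff_exists]
  refine ⟨1 - algebraMap F A (χ c - ψ c)⁻¹ * (c - algebraMap F A (ψ c)), ?_,
    algebraMap F A (χ c - ψ c)⁻¹ * (c - algebraMap F A (ψ c)), ?_, sub_add_cancel _ _⟩
  · rw [RingHom.mem_ker, map_sub, map_one, map_mul, map_sub, AlgHom.commutes, AlgHom.commutes]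
    show (1 : F) - (χ c - ψ c)⁻¹ * (χ c - ψ c) = 0
    rw [inv_mul_cancel₀ hd, sub_self]
  · rw [RingHom.mem_ker, map_mul, map_sub, AlgHom.commutes, AlgHom.commutes]
    show (χ c - ψ c)⁻¹ * (ψ c - ψ c) = 0
    rw [sub_self, mul_zero]

private theorem AC_sep {F A : Type*} [Field F] [CommRing A] [Algebra F A] [DecidableEq (A →ₐ[F] F)]
    (s : Finset (A →ₐ[F] F)) (χ : A →ₐ[F] F) (n : ℕ) :
    ∃ a : A, a - 1 ∈ (RingHom.ker χ) ^ n ∧ ∀ ψ ∈ s.erase χ, a ∈ (RingHom.ker ψ) ^ n := by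
  have h : IsCoprime ((RingHom.ker χ) ^ n) (∏ ψ ∈ s.erase χ, (RingHom.ker ψ) ^ n) :=
    IsCoprime.prod_right fun ψ hψ => (AC_cop (Finset.ne_of_mem_erase hψ).symm).pow
  rw [Ideal.isCoprime_iff_exists] at h
  obtain ⟨i, hi, j, hj, hij⟩ := h
  refine ⟨j, ?_, fun ψ hψ => ?_⟩
  · have h1 : j - 1 = -i := by rw [← hij]; ring
    rw [h1]
    exact neg_mem hi
  · exact Ideal.le_of_dvd (Finset.dvd_prod_of_mem (fun ψ : A →ₐ[F] F => (RingHom.ker ψ) ^ n) hψ) hj

theorem alt_comp {F A V : Type*} [Field F] [CommRing A] [Algebra F A] [AddCommGroup V] [Module F V]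
    (act : A →ₐ[F] Module.End F V) (ξ : V ⊗[F] V) (hA : ξ ∈ AltS F V)
    (hT : ξ ∈ ⨆ (χ : A →ₐ[F] F), ⨆ (n : ℕ), TT2 (Yk act χ n) (Yk act χ n)) :
    ξ ∈ ⨆ (χ : A →ₐ[F] F), ⨆ (n : ℕ), AltS F V ⊓ TT2 (Yk act χ n) (Yk act χ n) := by
  classical
  obtain ⟨f, hf, hs⟩ := (Submodule.mem_iSup_iff_exists_finsupp _ _).1 hT
  have h1 : ∀ χ : A →ₐ[F] F, ∃ n : ℕ, f χ ∈ TT2 (Yk act χ n) (Yk act χ n) := by
    intro χ
    refine (Submodule.mem_iSup_of_directed _ ?_).1 (hf χ)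
    intro i j
    exact ⟨max i j, TT2_mono (Yk_mono act χ (le_max_left i j)) (Yk_mono act χ (le_max_left i j)),
      TT2_mono (Yk_mono act χ (le_max_right i j)) (Yk_mono act χ (le_max_right i j))⟩
  choose m hm using h1
  let n : ℕ := f.support.sup m
  have hn : ∀ χ ∈ f.support, f χ ∈ TT2 (Yk act χ n) (Yk act χ n) := by
    intro χ hχ
    have h2 : m χ ≤ n := Finset.le_sup (f := m) hχ
    exact TT2_mono (Yk_mono act χ h2) (Yk_mono act χ h2) (hm χ)
  have hT1 : ∀ (a : A) (χ : A →ₐ[F] F), a - 1 ∈ (RingHom.ker χ) ^ n → ∀ z ∈ TT2 (Yk act χ n) (Yk act χ n),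
      TensorProduct.map (act a) (act a) z = z := by
    intro a χ ha z hz
    have h2 : ∀ v ∈ Yk act χ n, act a v = v := by
      intro v hv
      have h3 := hv _ ha
      rw [map_sub, map_one, LinearMap.sub_apply, Module.End.one_apply, sub_eq_zero] at h3
      exact h3
    have h4 : TT2 (Yk act χ n) (Yk act χ n) ≤
        LinearMap.ker (TensorProduct.map (act a) (act a) - LinearMap.id) := by
      rw [TT2, Submodule.span_le]
      rintro _ ⟨v, hv, w, hw, rfl⟩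
      show v ⊗ₜ[F] w ∈ LinearMap.ker (TensorProduct.map (act a) (act a) - LinearMap.id)
      rw [LinearMap.mem_ker, LinearMap.sub_apply, TensorProduct.map_tmul, h2 v hv, h2 w hw, LinearMap.id_apply,
        sub_self]
    have h5 := h4 hz
    rw [LinearMap.mem_ker, LinearMap.sub_apply, LinearMap.id_apply, sub_eq_zero] at h5
    exact h5
  have hT0 : ∀ (a : A) (χ : A →ₐ[F] F), a ∈ (RingHom.ker χ) ^ n → ∀ z ∈ TT2 (Yk act χ n) (Yk act χ n),
      TensorProduct.map (act a) (act a) z = 0 := by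
    intro a χ ha z hz
    have h4 : TT2 (Yk act χ n) (Yk act χ n) ≤ LinearMap.ker (TensorProduct.map (act a) (act a)) := by
      rw [TT2, Submodule.span_le]
      rintro _ ⟨v, hv, w, hw, rfl⟩
      show v ⊗ₜ[F] w ∈ LinearMap.ker (TensorProduct.map (act a) (act a))
      rw [LinearMap.mem_ker, TensorProduct.map_tmul, hv a ha, TensorProduct.zero_tmul]
    exact LinearMap.mem_ker.1 (h4 hz)
  have hfA : ∀ χ ∈ f.support, f χ ∈ AltS F V := by
    intro χ hχ
    obtain ⟨a, ha1, ha0⟩ := AC_sep f.support χ n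
    have h2 : TensorProduct.map (act a) (act a) ξ = f χ := by
      rw [← hs, Finsupp.sum, map_sum, Finset.sum_eq_single χ]
      · exact hT1 a χ ha1 _ (hn χ hχ)
      · intro ψ hψ hne
        exact hT0 a ψ (ha0 ψ (Finset.mem_erase.2 ⟨hne, hψ⟩)) _ (hn ψ hψ)
      · intro h
        exact absurd hχ h
    obtain ⟨ζ, hζ⟩ := mem_AltS.1 hA
    rw [mem_AltS]
    refine ⟨TensorProduct.map (act a) (act a) ζ, ?_⟩
    rw [← TensorProduct.map_comm, ← map_sub, hζ, h2]
  rw [← hs, Finsupp.sum]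
  refine Submodule.sum_mem _ fun χ hχ => ?_
  exact Submodule.mem_iSup_of_mem χ (Submodule.mem_iSup_of_mem n ⟨hfA χ hχ, hn χ hχ⟩)

end EL
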