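import Mathlib

/-!
# A common generalised eigenvector gives a character

PROOF. Let `D x = act x - χ₀ x`. Let `m` be the largest length such that some product `P` of `m` operators `D x`, `x ∈ W`, has `P v ≠ 0` (`m = 0` is allowed, as `v ≠ 0`; `m < c` by `hv`: a product of
`c` or more operators kills `v`, the operators commute / the first `c` factors on the right). Put `w = P v ≠ 0`: then `D x w = 0` for all `x ∈ W`, i.e. `act x w = χ₀ x • w`. The
set of the `a ∈ A` for which `act a w` is a multiple of `w` is a subalgebra containing `W`, so it is everything (`hW`). The factor `χ a` is unique (`w ≠ 0`) and `χ` is an algebra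
homomorphism (`AlgHom.mk`, or `AlgHom.ofLinearMap`).
-/

set_option autoImplicit false

namespace EL

private theorem EX_vec {F A V : Type*} [Field F] [CommRing A] [Algebra F A] [AddCommGroup V] [Module F V]
    (act : A →ₐ[F] Module.End F V) (W : Set A) (χ₀ : A → F) (c : ℕ) : ∀ v : V, v ≠ 0 →
    (∀ l : List A, l.length = c → (∀ x ∈ l, x ∈ W) →
      (l.map fun x => act x - algebraMap F (Module.End F V) (χ₀ x)).prod v = 0) →
    ∃ w : V, w ≠ 0 ∧ ∀ x ∈ W, act x w = χ₀ x • w := by
  induction c with
  | zero =>
    intro v hv h
    have h1 := h [] rfl (by simp)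
    rw [List.map_nil, List.prod_nil, Module.End.one_apply] at h1
    exact absurd h1 hv
  | succ c ih =>
    intro v hv h
    by_cases h1 : ∀ x ∈ W, act x v = χ₀ x • v
    · exact ⟨v, hv, h1⟩
    · push Not at h1
      obtain ⟨x, hx, hne⟩ := h1
      refine ih ((act x - algebraMap F (Module.End F V) (χ₀ x)) v) ?_ ?_
      · rw [LinearMap.sub_apply, Module.algebraMap_end_apply]
        exact sub_ne_zero.2 hne
      · intro l hl hlW
        have h2 := h (l ++ [x]) (by rw [List.length_append, hl]; rfl) (by
          intro y hy
          rcases List.mem_append.1 hy with hy | hy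
          · exact hlW y hy
          · rw [List.mem_singleton] at hy
            rw [hy]
            exact hx)
        rw [List.map_append, List.prod_append, Module.End.mul_apply, List.map_cons, List.map_nil, List.prod_singleton] at h2
        exact h2

theorem ext_char {F A V : Type*} [Field F] [CommRing A] [Algebra F A] [AddCommGroup V] [Module F V]
    (act : A →ₐ[F] Module.End F V) (W : Set A) (hW : Algebra.adjoin F W = ⊤) (χ₀ : A → F) (c : ℕ) (v : V) (hv0 : v ≠ 0)
    (hv : ∀ l : List A, l.length = c → (∀ x ∈ l, x ∈ W) →
      (l.map fun x => act x - algebraMap F (Module.End F V) (χ₀ x)).prod v = 0) :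
    ∃ χ : A →ₐ[F] F, ∀ x ∈ W, χ x = χ₀ x := by
  obtain ⟨w, hw, hx⟩ := EX_vec act W χ₀ c v hv0 hv
  have hall : ∀ a : A, ∃ r : F, act a w = r • w := by
    intro a
    have ha : a ∈ Algebra.adjoin F W := by
      rw [hW]
      exact Algebra.mem_top
    induction ha using Algebra.adjoin_induction with
    | mem x hx' => exact ⟨_, hx x hx'⟩
    | algebraMap r => exact ⟨r, by rw [AlgHom.commutes, Module.algebraMap_end_apply]⟩
    | add x y _ _ h1 h2 =>
      obtain ⟨r, hr⟩ := h1
      obtain ⟨s, hs⟩ := h2
      exact ⟨r + s, by rw [map_add, LinearMap.add_apply, hr, hs, add_smul]⟩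
    | mul x y _ _ h1 h2 =>
      obtain ⟨r, hr⟩ := h1
      obtain ⟨s, hs⟩ := h2
      exact ⟨s * r, by rw [map_mul, Module.End.mul_apply, hs, map_smul, hr, smul_smul]⟩
  choose χ hχ using hall
  have huniq : ∀ r s : F, r • w = s • w → r = s := fun r s h => smul_left_injective F hw h
  refine ⟨{ toFun := χ
            map_one' := ?_
            map_mul' := ?_
            map_zero' := ?_
            map_add' := ?_
            commutes' := ?_ }, ?_⟩
  · apply huniq
    rw [← hχ, map_one, Module.End.one_apply, one_smul]
  · intro a b
    apply huniq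
    show χ (a * b) • w = (χ a * χ b) • w
    rw [← hχ, map_mul, Module.End.mul_apply, hχ b, map_smul, hχ a, smul_smul, mul_comm]
  · apply huniq
    show χ 0 • w = (0 : F) • w
    rw [← hχ, map_zero, LinearMap.zero_apply, zero_smul]
  · intro a b
    apply huniq
    show χ (a + b) • w = (χ a + χ b) • w
    rw [← hχ, map_add, LinearMap.add_apply, hχ, hχ, add_smul]
  · intro r
    apply huniq
    show χ (algebraMap F A r) • w = (algebraMap F F r) • w
    rw [← hχ, AlgHom.commutes, Module.algebraMap_end_apply]
    rfl
  · intro x hx'
    apply huniq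
    show χ x • w = χ₀ x • w
    rw [← hχ, hx x hx']


end EL
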