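import Pool.Agent.Lib.MP_a5a771_alT.NP

/-!
# Tensors killed by the products of `k` operators `D ⊗ 1 + 1 ⊗ D'`

PROOF. Induction on `k`. `Λ i = D i ⊗ 1 + 1 ⊗ D' i`. `k = 0`: the empty list gives `ξ = 0`, `c = 0`. `k + 1`: let `c₀` be the bound for `k` and `2 r` (for ALL `V` of the same universe), `c = c₀ + r`. For every `i` the
tensor `Λ i ξ = ∑ D i (u k) ⊗ v k + ∑ u k ⊗ D' i (v k)` has `2 r` terms, is killed by the products of `k` operators `Λ` (append `i` to the list), and by `(D j) ^ n ⊗ 1` (which commutes with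
`Λ i`); so it is killed by all products of `c₀` operators `D ⊗ 1`. Let `Y ≤ V` be the subspace of the vectors killed by all products of `c₀` operators `D`; it is stable under all `D i`, let
`D̄ i` be the operators of `V̄ = V ⧸ Y` (`Submodule.mapQ`) and `ξ̄` the image of `ξ` in `V̄ ⊗ V'`. FACT: if `ζ ∈ V ⊗ V'` is killed by all `P ⊗ 1`, `P` a product of `c₀` operators
`D`, then its image in `V̄ ⊗ V'` is `0` (write `ζ = ∑ a_k ⊗ w_k` with `w_k` linearly independent, for instance members of a basis of `V'`: `TensorProduct.eq_repr_basis_right`; then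
`a_k ∈ Y`). So `Λ̄ i ξ̄ = 0` for all `i`, and `nil_one` (with `r`) gives that all `P̄ ⊗ 1`, `P` a product of `r` operators, kill `ξ̄`. So the image of `(P ⊗ 1) ξ` in `V̄ ⊗ V'` is `0`,
i.e. `(P ⊗ 1) ξ` comes from `Y ⊗ V'` (`rTensor_exact`, or write it with a basis of `V'`), and a product of `c₀` further operators kills it. A list of length `c₀ + r` is `l₁ ++ l₂`.
-/

set_option autoImplicit false

namespace EL

open scoped TensorProduct

universe u

section INhelpers

variable {F V W V' ι : Type*} [Field F] [AddCommGroup V] [Module F V] [AddCommGroup W] [Module F W] [AddCommGroup V']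
  [Module F V']

private theorem IN_key {κ : Type*} (B : Module.Basis κ F V') (b : κ →₀ V) (f : V →ₗ[F] W) :
    LinearMap.rTensor V' f (b.sum fun i m => m ⊗ₜ B i) = 0 ↔ ∀ j, f (b j) = 0 := by
  have h1 : LinearMap.rTensor V' f (b.sum fun i m => m ⊗ₜ B i) =
      (b.mapRange f (map_zero f)).sum fun i m => m ⊗ₜ[F] B i := by
    have h0 : (b.mapRange f (map_zero f)).sum (fun i m => m ⊗ₜ[F] B i) = b.sum fun i m => f m ⊗ₜ[F] B i :=
      Finsupp.sum_mapRange_index (h := fun i m => m ⊗ₜ[F] B i) fun i => TensorProduct.zero_tmul W (B i)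
    rw [h0, Finsupp.sum, map_sum]
    rfl
  constructor
  · intro h j
    rw [h1] at h
    have h2 := TensorProduct.sum_tmul_basis_right_eq_zero B _ h
    have h3 := DFunLike.congr_fun h2 j
    rw [Finsupp.mapRange_apply] at h3
    exact h3
  · intro h
    rw [h1]
    have h2 : b.mapRange f (map_zero f) = 0 := by
      ext j
      rw [Finsupp.mapRange_apply, h j]
      rfl
    rw [h2, Finsupp.sum_zero_index]

private theorem IN_rl (f : Module.End F V) (g : Module.End F V') (ξ : V ⊗[F] V') :
    LinearMap.rTensor V' f (LinearMap.lTensor V g ξ) = LinearMap.lTensor V g (LinearMap.rTensor V' f ξ) := by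
  rw [← LinearMap.comp_apply, ← LinearMap.comp_apply, LinearMap.rTensor_comp_lTensor, LinearMap.lTensor_comp_rTensor]

private theorem IN_rr (f g : Module.End F V) (h : Commute f g) (ξ : V ⊗[F] V') :
    LinearMap.rTensor V' f (LinearMap.rTensor V' g ξ) = LinearMap.rTensor V' g (LinearMap.rTensor V' f ξ) := by
  rw [← LinearMap.comp_apply, ← LinearMap.comp_apply, ← LinearMap.rTensor_comp, ← LinearMap.rTensor_comp]
  have h1 : f ∘ₗ g = g ∘ₗ f := h
  rw [h1]

private theorem IN_sum {r : ℕ} (f : Module.End F V) (g : Module.End F V') (u : Fin r → V) (v : Fin r → V') :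
    LinearMap.rTensor V' f (∑ k, u k ⊗ₜ[F] v k) + LinearMap.lTensor V g (∑ k, u k ⊗ₜ[F] v k) =
      ∑ k, Fin.append (fun k => f (u k)) u k ⊗ₜ[F] Fin.append v (fun k => g (v k)) k := by
  rw [Fin.sum_univ_add, map_sum, map_sum]
  congr 1
  · refine Finset.sum_congr rfl fun k _ => ?_
    rw [Fin.append_left, Fin.append_left, LinearMap.rTensor_tmul]
  · refine Finset.sum_congr rfl fun k _ => ?_
    rw [Fin.append_right, Fin.append_right, LinearMap.lTensor_tmul]

private theorem IN_comm (D : ι → Module.End F V) (hD : ∀ i j, Commute (D i) (D j)) (l : List ι) (i : ι) :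
    Commute (l.map D).prod (D i) := by
  induction l with
  | nil =>
    rw [List.map_nil, List.prod_nil]
    exact Commute.one_left _
  | cons a l ih =>
    rw [List.map_cons, List.prod_cons]
    exact (hD a i).mul_left ih

end INhelpers

theorem nil_ind {F V' ι : Type*} [Field F] [AddCommGroup V'] [Module F V'] (D' : ι → Module.End F V') (k : ℕ) :
    ∀ r : ℕ, ∃ c : ℕ, ∀ (V : Type u) [AddCommGroup V] [Module F V] (D : ι → Module.End F V)
      (_ : ∀ i j, Commute (D i) (D j)) (u : Fin r → V) (v : Fin r → V') (ξ : V ⊗[F] V') (_ : ξ = ∑ k, u k ⊗ₜ[F] v k)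
      (_ : ∀ i, ∃ n : ℕ, LinearMap.rTensor V' (D i ^ n) ξ = 0)
      (_ : ∀ l : List ι, l.length = k →
        (l.map fun i => LinearMap.rTensor V' (D i) + LinearMap.lTensor V (D' i)).prod ξ = 0),
      ∀ l : List ι, l.length = c → LinearMap.rTensor V' ((l.map D).prod) ξ = 0 := by
  induction k with
  | zero =>
    intro r
    refine ⟨0, fun V _ _ D hD u v ξ hξ hn h l hl => ?_⟩
    have h0 : ξ = 0 := by
      have h1 := h [] rfl
      rw [List.map_nil, List.prod_nil, Module.End.one_apply] at h1
      exact h1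
    rw [h0, map_zero]
  | succ k ih =>
    intro r
    obtain ⟨c₀, hc₀⟩ := ih (r + r)
    refine ⟨c₀ + r, fun V _ _ D hD u v ξ hξ hn h l hl => ?_⟩
    have hA : ∀ i, ∀ l : List ι, l.length = c₀ → LinearMap.rTensor V' ((l.map D).prod)
        (LinearMap.rTensor V' (D i) ξ + LinearMap.lTensor V (D' i) ξ) = 0 := by
      intro i
      refine hc₀ V D hD (Fin.append (fun k => D i (u k)) u) (Fin.append v (fun k => D' i (v k)))
        (LinearMap.rTensor V' (D i) ξ + LinearMap.lTensor V (D' i) ξ) ?_ ?_ ?_
      · rw [hξ]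
        exact IN_sum (D i) (D' i) u v
      · intro j
        obtain ⟨n, hn⟩ := hn j
        refine ⟨n, ?_⟩
        rw [map_add, IN_rl, IN_rr _ _ ((hD j i).pow_left n), hn, map_zero, map_zero, add_zero]
      · intro l hl
        have h1 := h (l ++ [i]) (by rw [List.length_append, hl]; rfl)
        rw [List.map_append, List.prod_append, Module.End.mul_apply, List.map_singleton, List.prod_singleton,
          LinearMap.add_apply] at h1
        exact h1
    let Y : Submodule F V := ⨅ l : {l : List ι // l.length = c₀}, LinearMap.ker ((l.1.map D).prod)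
    have hY : ∀ y : V, y ∈ Y ↔ ∀ l : List ι, l.length = c₀ → (l.map D).prod y = 0 := by
      intro y
      show y ∈ (⨅ l : {l : List ι // l.length = c₀}, LinearMap.ker ((l.1.map D).prod)) ↔ _
      rw [Submodule.mem_iInf]
      constructor
      · intro h l hl
        exact h ⟨l, hl⟩
      · rintro h ⟨l, hl⟩
        exact h l hl
    have hst : ∀ i, Y ≤ Y.comap (D i) := by
      intro i y hy
      rw [Submodule.mem_comap, hY]
      intro l hl
      have h1 : (l.map D).prod (D i y) = D i ((l.map D).prod y) := LinearMap.congr_fun (IN_comm D hD l i) y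
      rw [h1, (hY y).1 hy l hl, map_zero]
    let E : ι → Module.End F (V ⧸ Y) := fun i => Y.mapQ Y (D i) (hst i)
    have hE : ∀ i, (E i) ∘ₗ Y.mkQ = Y.mkQ ∘ₗ (D i) := fun i => Submodule.mapQ_mkQ Y Y (D i)
    have hEn : ∀ i n, (E i ^ n) ∘ₗ Y.mkQ = Y.mkQ ∘ₗ (D i ^ n) := by
      intro i n
      induction n with
      | zero =>
        rw [pow_zero, pow_zero]
        rfl
      | succ n ihn =>
        rw [pow_succ', pow_succ']
        show (E i ∘ₗ (E i ^ n)) ∘ₗ Y.mkQ = Y.mkQ ∘ₗ (D i ∘ₗ (D i ^ n))
        rw [LinearMap.comp_assoc, ihn, ← LinearMap.comp_assoc, hE, LinearMap.comp_assoc]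
    have hEl : ∀ l : List ι, (l.map E).prod ∘ₗ Y.mkQ = Y.mkQ ∘ₗ (l.map D).prod := by
      intro l
      induction l with
      | nil => rfl
      | cons a l ihl =>
        rw [List.map_cons, List.map_cons, List.prod_cons, List.prod_cons]
        show (E a ∘ₗ (l.map E).prod) ∘ₗ Y.mkQ = Y.mkQ ∘ₗ (D a ∘ₗ (l.map D).prod)
        rw [LinearMap.comp_assoc, ihl, ← LinearMap.comp_assoc, hE, LinearMap.comp_assoc]
    have hEc : ∀ i j, Commute (E i) (E j) := by
      intro i j
      show E i ∘ₗ E j = E j ∘ₗ E i
      apply Submodule.linearMap_qext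
      rw [LinearMap.comp_assoc, LinearMap.comp_assoc, hE, hE, ← LinearMap.comp_assoc, ← LinearMap.comp_assoc, hE, hE,
        LinearMap.comp_assoc, LinearMap.comp_assoc]
      have h1 : D i ∘ₗ D j = D j ∘ₗ D i := hD i j
      rw [h1]
    let B := Module.Basis.ofVectorSpace F V'
    have hfact : ∀ ζ : V ⊗[F] V', (∀ l : List ι, l.length = c₀ → LinearMap.rTensor V' ((l.map D).prod) ζ = 0) ↔
        LinearMap.rTensor V' Y.mkQ ζ = 0 := by
      intro ζ
      obtain ⟨b, rfl⟩ := TensorProduct.eq_repr_basis_right B ζ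
      rw [IN_key B b Y.mkQ]
      constructor
      · intro h1 j
        rw [Submodule.mkQ_apply, Submodule.Quotient.mk_eq_zero, hY]
        intro l hl
        exact (IN_key B b _).1 (h1 l hl) j
      · intro h1 l hl
        rw [IN_key B b]
        intro j
        have h2 := h1 j
        rw [Submodule.mkQ_apply, Submodule.Quotient.mk_eq_zero, hY] at h2
        exact h2 l hl
    have hmk : ∀ (f : Module.End F V) (g : Module.End F (V ⧸ Y)), g ∘ₗ Y.mkQ = Y.mkQ ∘ₗ f → ∀ ζ : V ⊗[F] V',
        LinearMap.rTensor V' g (LinearMap.rTensor V' Y.mkQ ζ) = LinearMap.rTensor V' Y.mkQ (LinearMap.rTensor V' f ζ) := by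
      intro f g hfg ζ
      rw [← LinearMap.comp_apply, ← LinearMap.comp_apply, ← LinearMap.rTensor_comp, ← LinearMap.rTensor_comp, hfg]
    have hone := nil_one E D' hEc r (fun k => Y.mkQ (u k)) v (LinearMap.rTensor V' Y.mkQ ξ) (by
        rw [hξ, map_sum]
        refine Finset.sum_congr rfl fun k _ => ?_
        rw [LinearMap.rTensor_tmul]) (by
        intro i
        obtain ⟨n, hn⟩ := hn i
        refine ⟨n, ?_⟩
        rw [hmk _ _ (hEn i n), hn, map_zero]) (by
        intro i
        rw [hmk _ _ (hE i)]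
        have h1 := (hfact _).1 (hA i)
        rw [map_add] at h1
        have h2 : LinearMap.lTensor (V ⧸ Y) (D' i) (LinearMap.rTensor V' Y.mkQ ξ) =
            LinearMap.rTensor V' Y.mkQ (LinearMap.lTensor V (D' i) ξ) := by
          rw [← LinearMap.comp_apply, ← LinearMap.comp_apply, LinearMap.rTensor_comp_lTensor,
            LinearMap.lTensor_comp_rTensor]
        rw [h2]
        exact h1)
    have hl1 : (l.take c₀).length = c₀ := by
      rw [List.length_take, hl]
      omega
    have hl2 : (l.drop c₀).length = r := by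
      rw [List.length_drop, hl]
      omega
    have h1 := hone (l.drop c₀) hl2
    rw [hmk _ _ (hEl _)] at h1
    have h2 := (hfact _).2 h1 (l.take c₀) hl1
    rw [← LinearMap.comp_apply, ← LinearMap.rTensor_comp] at h2
    have h3 : (l.map D).prod = ((l.take c₀).map D).prod ∘ₗ ((l.drop c₀).map D).prod := by
      rw [← Module.End.mul_eq_comp, ← List.prod_append, ← List.map_append, List.take_append_drop]
    rw [h3]
    exact h2

end EL
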