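import Pool.Agent.Lib.MP_a5a771_alT.Defs

/-!
# A tensor killed on the left and on the right

PROOF. Choose projections `π : V → V` onto `Y` and `π' : V' → V'` onto `Y'` (`Submodule.exists_isCompl`, or `Y.subtype.exists_leftInverse_of_injective`). Write `ξ = ∑ a_k ⊗ w_k` with `w_k`
in a basis of `V'` (`TensorProduct.eq_repr_basis_right`): `h` says `f k a = 0` for all the coefficients `a`, so they are in `Y` and `(π ⊗ 1) ξ = ξ`. Similarly `(1 ⊗ π') ξ = ξ`. So
`ξ = (π ⊗ π') ξ = ∑ π (a_k) ⊗ π' (w_k)`. (Model: the private lemma `fc_right` in `Pool/Agent/Lib/MP_a5a771_al/Fc.lean`.)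
-/

set_option autoImplicit false

namespace EL

open scoped TensorProduct

private lemma it_right {F V V' κ : Type*} [Field F] [AddCommGroup V] [Module F V] [AddCommGroup V'] [Module F V']
    (f : κ → Module.End F V) (ξ : V ⊗[F] V') (h : ∀ k, LinearMap.rTensor V' (f k) ξ = 0)
    (Y : Submodule F V) (hY : ∀ v, (∀ k, f k v = 0) → v ∈ Y)
    (π : Module.End F V) (hπ : ∀ y ∈ Y, π y = y) : LinearMap.rTensor V' π ξ = ξ := by
  classical
  set b := Module.Basis.ofVectorSpace F V'
  obtain ⟨u, rfl⟩ := TensorProduct.eq_repr_basis_right b ξ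
  have hu : ∀ i, u i ∈ Y := by
    intro i
    apply hY
    intro k
    have h1 := h k
    rw [map_finsuppSum] at h1
    simp only [LinearMap.rTensor_tmul] at h1
    have h2 : (u.mapRange (f k) (map_zero (f k))).sum (fun i m => m ⊗ₜ[F] b i) = 0 := by
      rw [Finsupp.sum_mapRange_index (h := fun i m => m ⊗ₜ[F] b i) (fun a => TensorProduct.zero_tmul _ _)]
      exact h1
    have h3 := TensorProduct.sum_tmul_basis_right_eq_zero b _ h2
    have h4 := DFunLike.congr_fun h3 i
    simpa using h4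
  rw [map_finsuppSum]
  simp only [LinearMap.rTensor_tmul]
  refine Finsupp.sum_congr (fun i _ => ?_)
  rw [hπ _ (hu i)]

private lemma it_left {F V V' κ' : Type*} [Field F] [AddCommGroup V] [Module F V] [AddCommGroup V'] [Module F V']
    (f' : κ' → Module.End F V') (ξ : V ⊗[F] V') (h' : ∀ k, LinearMap.lTensor V (f' k) ξ = 0)
    (Y' : Submodule F V') (hY' : ∀ v, (∀ k, f' k v = 0) → v ∈ Y')
    (π' : Module.End F V') (hπ' : ∀ y ∈ Y', π' y = y) : LinearMap.lTensor V π' ξ = ξ := by
  classical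
  set b := Module.Basis.ofVectorSpace F V
  obtain ⟨u, rfl⟩ := TensorProduct.eq_repr_basis_left b ξ
  have hu : ∀ i, u i ∈ Y' := by
    intro i
    apply hY'
    intro k
    have h1 := h' k
    rw [map_finsuppSum] at h1
    simp only [LinearMap.lTensor_tmul] at h1
    have h2 : (u.mapRange (f' k) (map_zero (f' k))).sum (fun i m => b i ⊗ₜ[F] m) = 0 := by
      rw [Finsupp.sum_mapRange_index (h := fun i m => b i ⊗ₜ[F] m) (fun a => TensorProduct.tmul_zero _ _)]
      exact h1
    have h3 := TensorProduct.sum_tmul_basis_left_eq_zero b _ h2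
    have h4 := DFunLike.congr_fun h3 i
    simpa using h4
  rw [map_finsuppSum]
  simp only [LinearMap.lTensor_tmul]
  refine Finsupp.sum_congr (fun i _ => ?_)
  rw [hπ' _ (hu i)]

private lemma it_proj {F V : Type*} [Field F] [AddCommGroup V] [Module F V] (Y : Submodule F V) :
    ∃ π : Module.End F V, (∀ v, π v ∈ Y) ∧ ∀ y ∈ Y, π y = y := by
  obtain ⟨g, hg⟩ := Y.subtype.exists_leftInverse_of_injective (Submodule.ker_subtype Y)
  refine ⟨Y.subtype ∘ₗ g, fun v => (g v).2, ?_⟩
  intro y hy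
  have h1 := LinearMap.congr_fun hg ⟨y, hy⟩
  have h2 : g y = ⟨y, hy⟩ := h1
  rw [LinearMap.comp_apply, h2]
  rfl

theorem inter_ker {F V V' κ κ' : Type*} [Field F] [AddCommGroup V] [Module F V] [AddCommGroup V'] [Module F V']
    (f : κ → Module.End F V) (f' : κ' → Module.End F V') (ξ : V ⊗[F] V')
    (h : ∀ k, LinearMap.rTensor V' (f k) ξ = 0) (h' : ∀ k, LinearMap.lTensor V (f' k) ξ = 0)
    (Y : Submodule F V) (Y' : Submodule F V') (hY : ∀ v, (∀ k, f k v = 0) → v ∈ Y) (hY' : ∀ v, (∀ k, f' k v = 0) → v ∈ Y') :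
    ξ ∈ TT2 Y Y' := by
  obtain ⟨π, hπm, hπ⟩ := it_proj Y
  obtain ⟨π', hπm', hπ'⟩ := it_proj Y'
  have h1 := it_right f ξ h Y hY π hπ
  have h2 := it_left f' ξ h' Y' hY' π' hπ'
  have h3 : ∀ ζ : V ⊗[F] V', LinearMap.rTensor V' π (LinearMap.lTensor V π' ζ) ∈ TT2 Y Y' := by
    intro ζ
    induction ζ using TensorProduct.induction_on with
    | zero =>
      rw [map_zero, map_zero]
      exact Submodule.zero_mem _
    | tmul v w =>
      rw [LinearMap.lTensor_tmul, LinearMap.rTensor_tmul]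
      exact tmul_mem_TT2 (hπm v) (hπm' w)
    | add a b ha hb =>
      rw [map_add, map_add]
      exact Submodule.add_mem _ ha hb
  have h4 := h3 ξ
  rw [h2, h1] at h4
  exact h4

end EL
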