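import Mathlib

/-!
# The supports of a tensor

PROOF. Write `ξ = ∑ u_k ⊗ v_k` with `r` terms, `r` minimal (or: `u_k` linearly independent and `v_k` linearly independent); `N = span (u_k)`, `N' = span (v_k)`. The hypothesis says
`∑ X i u_k ⊗ v_k = ∑ u_k ⊗ X' i v_k`, which lies in `V ⊗ N'` (left side); applying `f ⊗ 1`, with `f` a linear form on `V` with `f u_k = 1`, `f u_l = 0` for `l ≠ k`, gives `X' i v_k ∈ N'`. The
same on the other side gives `X i u_k ∈ N`. (Model: the private lemma `Eig_fin` in `Pool/Agent/Lib/MP_a5a771_al/Eig.lean`, which does one side. One may also do one side, giving `N'` and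
`ξ = ∑ (finite) v ⊗ c v`, `c v ∈ N'`, and take for the other side the same lemma for `TensorProduct.comm ξ`, then intersect with projections `π : V → V` onto `N`, `π' : V' → V'` onto `N'`:
`ξ = (π ⊗ π') ξ`.)
-/

set_option autoImplicit false

namespace EL

open scoped TensorProduct

/-- the coordinate of a tensor at a basis vector -/
private noncomputable def SU_ci {F V V' κ : Type*} [Field F] [AddCommGroup V] [Module F V] [AddCommGroup V']
    [Module F V'] (b : Module.Basis κ F V) (i : κ) : V ⊗[F] V' →ₗ[F] V' :=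
  (TensorProduct.lid F V').toLinearMap ∘ₗ LinearMap.rTensor V' (b.coord i)

private theorem SU_ci_tmul {F V V' κ : Type*} [Field F] [AddCommGroup V] [Module F V] [AddCommGroup V']
    [Module F V'] (b : Module.Basis κ F V) (i : κ) (v : V) (w : V') :
    SU_ci b i (v ⊗ₜ w) = b.repr v i • w := by
  simp [SU_ci]

private theorem SU_ci_l {F V V' κ : Type*} [Field F] [AddCommGroup V] [Module F V] [AddCommGroup V']
    [Module F V'] (b : Module.Basis κ F V) (i : κ) (g : V' →ₗ[F] V') (ζ : V ⊗[F] V') :
    SU_ci b i (LinearMap.lTensor V g ζ) = g (SU_ci b i ζ) := by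
  induction ζ using TensorProduct.induction_on with
  | zero => simp
  | tmul v w => rw [LinearMap.lTensor_tmul, SU_ci_tmul, SU_ci_tmul, map_smul]
  | add x y hx hy => rw [map_add, map_add, hx, hy, map_add, map_add]

private theorem SU_one {F V V' ι : Type*} [Field F] [AddCommGroup V] [Module F V] [AddCommGroup V']
    [Module F V'] (X : ι → Module.End F V) (X' : ι → Module.End F V') (ξ : V ⊗[F] V')
    (h : ∀ i, LinearMap.rTensor V' (X i) ξ = LinearMap.lTensor V (X' i) ξ) :
    ∃ N' : Submodule F V', FiniteDimensional F N' ∧ (∀ i, ∀ n ∈ N', X' i n ∈ N') ∧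
      ∀ p : V' →ₗ[F] V', (∀ w ∈ N', p w = w) → LinearMap.lTensor V p ξ = ξ := by
  classical
  obtain ⟨c, hc⟩ := TensorProduct.eq_repr_basis_left (Module.Basis.ofVectorSpace F V) ξ
  set b := Module.Basis.ofVectorSpace F V with hb
  have hcoord : ∀ i, SU_ci b i ξ = c i := by
    intro i
    rw [← hc, Finsupp.sum, map_sum]
    have h1 : ∀ j ∈ c.support, SU_ci b i (b j ⊗ₜ[F] c j) = if j = i then c i else 0 := by
      intro j _
      rw [SU_ci_tmul, b.repr_self, Finsupp.single_apply]
      split_ifs with h2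
      · rw [h2, one_smul]
      · rw [zero_smul]
    rw [Finset.sum_congr rfl h1, Finset.sum_ite_eq']
    split_ifs with h3
    · rfl
    · exact (Finsupp.notMem_support_iff.mp h3).symm
  have hcN : ∀ i, c i ∈ Submodule.span F (Set.range c) := fun i => Submodule.subset_span ⟨i, rfl⟩
  refine ⟨Submodule.span F (Set.range c), FiniteDimensional.span_of_finite F c.finite_range, ?_, ?_⟩
  · intro i n hn
    induction hn using Submodule.span_induction with
    | mem y hy =>
      obtain ⟨k, rfl⟩ := hy
      have h1 : X' i (c k) = SU_ci b k (LinearMap.rTensor V' (X i) ξ) := by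
        rw [h i, SU_ci_l, hcoord]
      rw [h1, ← hc, Finsupp.sum, map_sum, map_sum]
      refine Submodule.sum_mem _ fun j _ => ?_
      rw [LinearMap.rTensor_tmul, SU_ci_tmul]
      exact Submodule.smul_mem _ _ (hcN j)
    | zero => rw [map_zero]; exact Submodule.zero_mem _
    | add y z _ _ hy hz => rw [map_add]; exact Submodule.add_mem _ hy hz
    | smul r y _ hy => rw [map_smul]; exact Submodule.smul_mem _ _ hy
  · intro p hp
    rw [← hc, Finsupp.sum, map_sum]
    refine Finset.sum_congr rfl fun j _ => ?_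
    rw [LinearMap.lTensor_tmul, hp _ (hcN j)]

private theorem SU_comm {F V V' : Type*} [Field F] [AddCommGroup V] [Module F V] [AddCommGroup V']
    [Module F V'] (f : V →ₗ[F] V) (ζ : V ⊗[F] V') :
    TensorProduct.comm F V V' (LinearMap.rTensor V' f ζ) =
      LinearMap.lTensor V' f (TensorProduct.comm F V V' ζ) := by
  induction ζ using TensorProduct.induction_on with
  | zero => simp
  | tmul v w => simp
  | add x y hx hy => rw [map_add, map_add, hx, hy, map_add, map_add]

private theorem SU_comm' {F V V' : Type*} [Field F] [AddCommGroup V] [Module F V] [AddCommGroup V']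
    [Module F V'] (f : V' →ₗ[F] V') (ζ : V ⊗[F] V') :
    TensorProduct.comm F V V' (LinearMap.lTensor V f ζ) =
      LinearMap.rTensor V f (TensorProduct.comm F V V' ζ) := by
  induction ζ using TensorProduct.induction_on with
  | zero => simp
  | tmul v w => simp
  | add x y hx hy => rw [map_add, map_add, hx, hy, map_add, map_add]

private theorem SU_proj {F V : Type*} [Field F] [AddCommGroup V] [Module F V] (N : Submodule F V) :
    ∃ p : V →ₗ[F] V, (∀ v ∈ N, p v = v) ∧ ∀ v, p v ∈ N := by
  obtain ⟨g, hg⟩ := LinearMap.exists_leftInverse_of_injective N.subtype N.ker_subtype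
  refine ⟨N.subtype ∘ₗ g, fun v hv => ?_, fun v => (g v).2⟩
  have h1 := LinearMap.congr_fun hg ⟨v, hv⟩
  exact congrArg Subtype.val h1

theorem supp_fin {F V V' ι : Type*} [Field F] [AddCommGroup V] [Module F V] [AddCommGroup V'] [Module F V']
    (X : ι → Module.End F V) (X' : ι → Module.End F V') (ξ : V ⊗[F] V')
    (h : ∀ i, LinearMap.rTensor V' (X i) ξ = LinearMap.lTensor V (X' i) ξ) :
    ∃ (N : Submodule F V) (N' : Submodule F V'), FiniteDimensional F N ∧ FiniteDimensional F N' ∧
      (∀ i, ∀ n ∈ N, X i n ∈ N) ∧ (∀ i, ∀ n ∈ N', X' i n ∈ N') ∧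
      ξ ∈ Submodule.span F {z | ∃ v ∈ N, ∃ w ∈ N', z = v ⊗ₜ[F] w} := by
  obtain ⟨N', hN'fin, hN'st, hN'⟩ := SU_one X X' ξ h
  have h' : ∀ i, LinearMap.rTensor V (X' i) (TensorProduct.comm F V V' ξ) =
      LinearMap.lTensor V' (X i) (TensorProduct.comm F V V' ξ) := by
    intro i
    rw [← SU_comm', ← SU_comm, h i]
  obtain ⟨N, hNfin, hNst, hN⟩ := SU_one X' X (TensorProduct.comm F V V' ξ) h'
  obtain ⟨p, hp1, hp2⟩ := SU_proj N
  obtain ⟨p', hp1', hp2'⟩ := SU_proj N'
  refine ⟨N, N', hNfin, hN'fin, hNst, hN'st, ?_⟩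
  have e1 : LinearMap.lTensor V p' ξ = ξ := hN' p' hp1'
  have e2 : LinearMap.rTensor V' p ξ = ξ := by
    apply (TensorProduct.comm F V V').injective
    rw [SU_comm]
    exact hN p hp1
  have key : ∀ ζ : V ⊗[F] V', LinearMap.rTensor V' p (LinearMap.lTensor V p' ζ) ∈
      Submodule.span F {z | ∃ v ∈ N, ∃ w ∈ N', z = v ⊗ₜ[F] w} := by
    intro ζ
    induction ζ using TensorProduct.induction_on with
    | zero => rw [map_zero, map_zero]; exact Submodule.zero_mem _
    | tmul v w =>
      rw [LinearMap.lTensor_tmul, LinearMap.rTensor_tmul]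
      exact Submodule.subset_span ⟨_, hp2 v, _, hp2' w, rfl⟩
    | add x y hx hy => rw [map_add, map_add]; exact Submodule.add_mem _ hx hy
  have h3 := key ξ
  rw [e1, e2] at h3
  exact h3

end EL
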