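import Mathlib

/-!
# Decomposition of a vector under commuting operators

PROOF. Mathlib: `Module.End.iSup_iInf_maxGenEigenspace_eq_top_of_forall_mapsTo` (for the restrictions of the `f i` to the finite-dimensional stable `N`; `Module.End.iSup_maxGenEigenspace_eq_top`
over an algebraically closed field; the maps preserve the generalised eigenspaces because they commute) gives `ξ = ∑ z θ` (finite sum) with `z θ ∈ N` in the simultaneous generalised
eigenspace of `θ : ι → F`. If `T` commutes with all `f i` and `T ξ = 0` then `0 = ∑ T (z θ)` with `T (z θ)` again in the simultaneous generalised eigenspace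
`⨅ i, (f i).maxGenEigenspace (θ i)` of the whole space `X`, and these are independent (`Module.End.independent_iInf_maxGenEigenspace_of_forall_mapsTo`), so every `T (z θ) = 0`.
-/

set_option autoImplicit false

namespace EL

theorem wdec {F X ι : Type*} [Field F] [IsAlgClosed F] [AddCommGroup X] [Module F X] (f : ι → Module.End F X)
    (hf : ∀ i j, Commute (f i) (f j)) (N : Submodule F X) (hN : FiniteDimensional F N) (hs : ∀ i, ∀ n ∈ N, f i n ∈ N)
    (ξ : X) (hξ : ξ ∈ N) :
    ∃ (s : Finset (ι → F)) (z : (ι → F) → X), ξ = ∑ θ ∈ s, z θ ∧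
      (∀ θ ∈ s, ∀ i, ∃ n : ℕ, ((f i - algebraMap F (Module.End F X) (θ i)) ^ n) (z θ) = 0) ∧
      ∀ T : Module.End F X, (∀ i, Commute T (f i)) → T ξ = 0 → ∀ θ ∈ s, T (z θ) = 0 := by
  classical
  have hmap : ∀ (T : Module.End F X), (∀ i, Commute T (f i)) → ∀ (χ : ι → F) (x : X),
      x ∈ (⨅ i, (f i).maxGenEigenspace (χ i)) → T x ∈ (⨅ i, (f i).maxGenEigenspace (χ i)) := by
    intro T hT χ x hx
    rw [Submodule.mem_iInf] at hx ⊢
    intro i
    exact Module.End.mapsTo_maxGenEigenspace_of_comm (hT i).symm (χ i) (hx i)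
  have hind : iSupIndep fun χ : ι → F => ⨅ i, (f i).maxGenEigenspace (χ i) :=
    Module.End.independent_iInf_maxGenEigenspace_of_forall_mapsTo f
      (fun i j φ => Module.End.mapsTo_maxGenEigenspace_of_comm (hf j i) φ)
  have hs' : ∀ i, Set.MapsTo (f i) N N := fun i n hn => hs i n hn
  have htop : (⨆ χ : ι → F, ⨅ i, Module.End.maxGenEigenspace ((f i).restrict (hs' i)) (χ i)) = ⊤ := by
    apply Module.End.iSup_iInf_maxGenEigenspace_eq_top_of_iSup_maxGenEigenspace_eq_top_of_commute
    · intro i j _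
      apply LinearMap.ext
      intro x
      apply Subtype.ext
      exact congrArg (fun g : Module.End F X => g (x : X)) (hf i j).eq
    · intro i
      exact Module.End.iSup_maxGenEigenspace_eq_top _
  have hmem : ξ ∈ (⨆ χ : ι → F, ⨅ i, (f i).maxGenEigenspace (χ i)) := by
    have h1 : (⟨ξ, hξ⟩ : N) ∈ (⨆ χ : ι → F, ⨅ i, Module.End.maxGenEigenspace ((f i).restrict (hs' i)) (χ i)) := by
      rw [htop]
      exact Submodule.mem_top
    have h2 : ξ ∈ (⨆ χ : ι → F, ⨅ i, Module.End.maxGenEigenspace ((f i).restrict (hs' i)) (χ i)).map N.subtype :=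
      ⟨_, h1, rfl⟩
    rw [Submodule.map_iSup] at h2
    refine (iSup_mono fun χ => ?_ : (⨆ χ : ι → F, (⨅ i, Module.End.maxGenEigenspace ((f i).restrict (hs' i)) (χ i)).map N.subtype) ≤ _) h2
    rw [← Submodule.inf_iInf_maxGenEigenspace_of_forall_mapsTo]
    exact inf_le_right
  obtain ⟨z, hz, hsum⟩ := (Submodule.mem_iSup_iff_exists_finsupp _ _).1 hmem
  refine ⟨z.support, z, hsum.symm, ?_, ?_⟩
  · intro θ _ i
    obtain ⟨k, hk⟩ := (Module.End.mem_iInf_maxGenEigenspace_iff f θ (z θ)).1 (hz θ) i
    exact ⟨k, by rw [Algebra.algebraMap_eq_smul_one]; exact hk⟩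
  · intro T hT h0
    apply (iSupIndep_iff_finsetSum_eq_zero_imp_eq_zero _).1 hind z.support (fun θ => T (z θ))
    · intro θ _
      exact hmap T hT θ _ (hz θ)
    · rw [← map_sum]
      change T (∑ θ ∈ z.support, z θ) = 0
      have h3 : ∑ θ ∈ z.support, z θ = ξ := hsum
      rw [h3]
      exact h0


end EL
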