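import Pool.Agent.Lib.MP_a5a771_alT.KS
import Pool.Agent.Lib.MP_a5a771_alT.SU
import Pool.Agent.Lib.MP_a5a771_alT.WD
import Pool.Agent.Lib.MP_a5a771_alT.IN
import Pool.Agent.Lib.MP_a5a771_alT.IT
import Pool.Agent.Lib.MP_a5a771_alT.EX

/-!
# Torsion tensors in characteristic two

PROOF. `Λ x = act x ⊗ 1 + 1 ⊗ act x`. Let `q = 2 ^ m ≥ k`. For `x ∈ W`: `(Λ x) ^ q ξ = 0` (list of `k` copies of `x`, then more) and `(Λ x) ^ q = act x ^ q ⊗ 1 + 1 ⊗ act x ^ q`
(characteristic `2`, the two summands commute: `Commute.add_pow_char_pow` / `add_pow_char_pow_of_commute`; `CharP F 2` from `h2`), so `(act x ^ q ⊗ 1) ξ = (1 ⊗ act x ^ q) ξ` (`-1 = 1`). By `supp_fin` (`ι = W`): `N, N'`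
finite-dimensional, stable under `act x ^ q`, `ξ ∈ span (N ⊗ N') =: 𝒩`, which is finite-dimensional and stable under the commuting operators `f x = 1 ⊗ act x ^ q`, `x ∈ W`. `wdec`: `ξ = ∑ z θ`,
`(f x - θ x) ^ n (z θ) = 0`, and `z θ` is killed by the products of `k` operators `Λ` and by `act x ^ q ⊗ 1 - 1 ⊗ act x ^ q` (these operators commute with the `f x` and kill `ξ`). So
`((act x ^ q - θ x) ^ n ⊗ 1) (z θ) = (1 ⊗ (act x ^ q - θ x) ^ n) (z θ) = 0`. Let `χ₀ x` be a root of `T ^ q = θ x` (algebraically closed): `act x ^ q - θ x = (act x - χ₀ x) ^ q` in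
characteristic `2`. Put `D x = act x - χ₀ x` on `V` (`ι = W`, both sides); `D x ⊗ 1 + 1 ⊗ D x = Λ x` as `2 χ₀ x = 0`. `nil_ind` (for `k`, `r` = the number of terms of `z θ`, every
tensor is a finite sum `∑ u k ⊗ v k`) gives `c` such that all products of `c` operators `D ⊗ 1` kill `z θ`; apply it also to `comm (z θ)`: all products of `c'` operators `1 ⊗ D` kill it; take the
larger one, `c`. If `z θ = 0` nothing is to be shown. Otherwise let `Y` be the space of the vectors killed by all products of `c` operators `D x`; `inter_ker` gives `z θ ∈ TT2 Y Y`, so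
`Y ≠ 0` and `ext_char` (extend `χ₀` to `A` by any values) gives a character `χ` with `χ x = χ₀ x` on `W`; `Y = Yk act χ c` by `Yk_iff`. So `z θ ∈ TT2 (Yk act χ c) (Yk act χ c)`.
-/

set_option autoImplicit false

namespace EL

open scoped TensorProduct

section

private theorem TO_frob {R : Type*} [Ring R] (h2 : (2 : R) = 0) {x y : R} (h : Commute x y) (m : ℕ) :
    (x + y) ^ (2 ^ m) = x ^ (2 ^ m) + y ^ (2 ^ m) := by
  induction m with
  | zero => simp
  | succ m ih =>
    rw [pow_succ, pow_mul, ih, pow_mul, pow_mul]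
    have hc : x ^ 2 ^ m * y ^ 2 ^ m = y ^ 2 ^ m * x ^ 2 ^ m := (h.pow_pow _ _).eq
    have h3 : x ^ 2 ^ m * y ^ 2 ^ m + x ^ 2 ^ m * y ^ 2 ^ m = 0 := by rw [← two_mul, h2, zero_mul]
    calc (x ^ 2 ^ m + y ^ 2 ^ m) ^ 2
        = x ^ 2 ^ m * x ^ 2 ^ m + (x ^ 2 ^ m * y ^ 2 ^ m + y ^ 2 ^ m * x ^ 2 ^ m) + y ^ 2 ^ m * y ^ 2 ^ m := by
          noncomm_ring
      _ = (x ^ 2 ^ m) ^ 2 + (y ^ 2 ^ m) ^ 2 := by
          rw [← hc, h3, add_zero, sq, sq]

private theorem TO_neg {R : Type*} [Ring R] (h2 : (2 : R) = 0) (y : R) : -y = y := by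
  rw [neg_eq_iff_add_eq_zero, ← two_mul, h2, zero_mul]

private theorem TO_frob_sub {R : Type*} [Ring R] (h2 : (2 : R) = 0) {x y : R} (h : Commute x y) (m : ℕ) :
    (x - y) ^ (2 ^ m) = x ^ (2 ^ m) - y ^ (2 ^ m) := by
  rw [sub_eq_add_neg, sub_eq_add_neg, TO_neg h2, TO_neg h2, TO_frob h2 h]

variable {F V V' : Type*} [Field F] [AddCommGroup V] [Module F V] [AddCommGroup V'] [Module F V']

private theorem TO_two (h2 : (2 : F) = 0) : (2 : Module.End F V) = 0 := by
  have h := map_ofNat (algebraMap F (Module.End F V)) 2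
  rw [← h]
  have h3 : (OfNat.ofNat 2 : F) = 0 := h2
  rw [h3, map_zero]

private theorem TO_comm (X : Module.End F V) (Y : Module.End F V') :
    Commute (LinearMap.rTensor V' X : Module.End F (V ⊗[F] V')) (LinearMap.lTensor V Y) := by
  show _ * _ = _ * _
  rw [Module.End.mul_eq_comp, Module.End.mul_eq_comp, LinearMap.rTensor_comp_lTensor,
    LinearMap.lTensor_comp_rTensor]

private theorem TO_comm_l {X Y : Module.End F V'} (h : Commute X Y) :
    Commute (LinearMap.lTensor V X : Module.End F (V ⊗[F] V')) (LinearMap.lTensor V Y) := by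
  show _ * _ = _ * _
  rw [← LinearMap.lTensor_mul, ← LinearMap.lTensor_mul, h.eq]

private theorem TO_pow_eq {P Q : Module.End F V} (h : Commute P Q) {ζ : V} (hz : P ζ = Q ζ) (n : ℕ) :
    (P ^ n) ζ = (Q ^ n) ζ := by
  induction n with
  | zero => rfl
  | succ n ih =>
    rw [pow_succ', Module.End.mul_apply, ih, ← Module.End.mul_apply, (h.pow_right n).eq, Module.End.mul_apply, hz,
      ← Module.End.mul_apply, ← pow_succ]

private theorem TO_sum (ζ : V ⊗[F] V') : ∃ (r : ℕ) (u : Fin r → V) (v : Fin r → V'), ζ = ∑ k, u k ⊗ₜ[F] v k := by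
  obtain ⟨S, hS⟩ := TensorProduct.exists_finset ζ
  refine ⟨S.card, fun k => (S.equivFin.symm k : V × V').1, fun k => (S.equivFin.symm k : V × V').2, ?_⟩
  rw [hS, ← Finset.sum_coe_sort]
  exact (Equiv.sum_comp S.equivFin.symm fun i : S => (i : V × V').1 ⊗ₜ[F] (i : V × V').2).symm

private theorem TO_r_alg (c : F) : LinearMap.rTensor V' (algebraMap F (Module.End F V) c) =
    algebraMap F (Module.End F (V ⊗[F] V')) c := by
  ext v w
  simp [Module.algebraMap_end_apply, TensorProduct.smul_tmul']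

private theorem TO_l_alg (c : F) : LinearMap.lTensor V (algebraMap F (Module.End F V') c) =
    algebraMap F (Module.End F (V ⊗[F] V')) c := by
  ext v w
  simp [Module.algebraMap_end_apply]

private theorem TO_swap_l (X : Module.End F V) (ζ : V ⊗[F] V) :
    LinearMap.rTensor V X (TensorProduct.comm F V V ζ) = TensorProduct.comm F V V (LinearMap.lTensor V X ζ) := by
  induction ζ using TensorProduct.induction_on with
  | zero => simp
  | tmul a b => simp
  | add a b ha hb => simp only [map_add, ha, hb]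

private theorem TO_swap_r (X : Module.End F V) (ζ : V ⊗[F] V) :
    LinearMap.lTensor V X (TensorProduct.comm F V V ζ) = TensorProduct.comm F V V (LinearMap.rTensor V X ζ) := by
  induction ζ using TensorProduct.induction_on with
  | zero => simp
  | tmul a b => simp
  | add a b ha hb => simp only [map_add, ha, hb]

private theorem TO_swap_list {ι : Type*} (D : ι → Module.End F V) (l : List ι) (ζ : V ⊗[F] V) :
    (l.map fun i => LinearMap.rTensor V (D i) + LinearMap.lTensor V (D i)).prod (TensorProduct.comm F V V ζ) =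
      TensorProduct.comm F V V
        ((l.map fun i => LinearMap.rTensor V (D i) + LinearMap.lTensor V (D i)).prod ζ) := by
  induction l with
  | nil => simp
  | cons i l ih =>
    rw [List.map_cons, List.prod_cons, Module.End.mul_apply, ih, Module.End.mul_apply, LinearMap.add_apply,
      LinearMap.add_apply, TO_swap_l, TO_swap_r, ← map_add, add_comm]

private theorem TO_long {ι : Type*} {D : ι → Module.End F V} {c1 c : ℕ} (hc : c1 ≤ c) {ζ : V ⊗[F] V'}
    (h : ∀ l : List ι, l.length = c1 → LinearMap.rTensor V' ((l.map D).prod) ζ = 0) (l : List ι)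
    (hl : l.length = c) : LinearMap.rTensor V' ((l.map D).prod) ζ = 0 := by
  have h1 : (l.map D).prod = ((l.take (c - c1)).map D).prod * ((l.drop (c - c1)).map D).prod := by
    rw [← List.prod_append, ← List.map_append, List.take_append_drop]
  rw [h1, LinearMap.rTensor_mul, Module.End.mul_apply, h _ (by rw [List.length_drop]; omega), map_zero]

end

theorem tors {F A V : Type*} [Field F] [IsAlgClosed F] (h2 : (2 : F) = 0) [CommRing A] [Algebra F A] [AddCommGroup V] [Module F V]
    (act : A →ₐ[F] Module.End F V) (W : Set A) (hW : Algebra.adjoin F W = ⊤) (k : ℕ) (ξ : V ⊗[F] V)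
    (hk : ∀ l : List A, l.length = k → (∀ x ∈ l, x ∈ W) →
      (l.map fun x => LinearMap.rTensor V (act x) + LinearMap.lTensor V (act x)).prod ξ = 0) :
    ξ ∈ ⨆ (χ : A →ₐ[F] F), ⨆ (n : ℕ), TT2 (Yk act χ n) (Yk act χ n) := by
  have h2V : (2 : Module.End F V) = 0 := TO_two h2
  have h2T : (2 : Module.End F (V ⊗[F] V)) = 0 := TO_two h2
  have hac : ∀ x y : A, Commute (act x) (act y) := by
    intro x y
    show _ * _ = _ * _
    rw [← map_mul, ← map_mul, mul_comm]
  obtain ⟨q, hq⟩ : ∃ q : ℕ, q = 2 ^ k := ⟨_, rfl⟩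
  have hq0 : 0 < q := by rw [hq]; positivity
  have hkq : k ≤ q := by rw [hq]; exact (Nat.lt_two_pow_self).le
  -- the operators `act x ^ q`
  have hx : ∀ x : W, LinearMap.rTensor V (act (x : A) ^ q) ξ = LinearMap.lTensor V (act (x : A) ^ q) ξ := by
    intro x
    have h3 := hk (List.replicate k (x : A)) List.length_replicate fun y hy => by
      rw [List.eq_of_mem_replicate hy]; exact x.2
    rw [List.map_replicate, List.prod_replicate] at h3
    have h4 : ((LinearMap.rTensor V (act (x : A)) + LinearMap.lTensor V (act (x : A))) ^ q) ξ = 0 := by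
      obtain ⟨r, hr⟩ := Nat.exists_eq_add_of_le' hkq
      rw [hr, pow_add, Module.End.mul_apply, h3, map_zero]
    rw [hq, TO_frob h2T (TO_comm _ _), ← hq, LinearMap.rTensor_pow, LinearMap.lTensor_pow, LinearMap.add_apply,
      add_eq_zero_iff_eq_neg] at h4
    rw [h4]
    have h5 := TO_neg h2T (LinearMap.lTensor V (act (x : A) ^ q))
    have h6 := congrArg (fun T : Module.End F (V ⊗[F] V) => T ξ) h5
    simpa using h6
  obtain ⟨N, N', hN, hN', hsN, hsN', hξ⟩ := supp_fin (fun x : W => act (x : A) ^ q) (fun x : W => act (x : A) ^ q) ξ hx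
  have hfin : FiniteDimensional F (Submodule.span F {z | ∃ v ∈ N, ∃ w ∈ N', z = v ⊗ₜ[F] w}) := by
    have h3 : Submodule.span F {z | ∃ v ∈ N, ∃ w ∈ N', z = v ⊗ₜ[F] w} ≤
        LinearMap.range (TensorProduct.map N.subtype N'.subtype) := by
      rw [Submodule.span_le]
      rintro _ ⟨v, hv, w, hw, rfl⟩
      exact ⟨(⟨v, hv⟩ : N) ⊗ₜ (⟨w, hw⟩ : N'), by simp⟩
    exact Submodule.finiteDimensional_of_le h3
  have hfc : ∀ x y : W, Commute (LinearMap.lTensor V (act (x : A) ^ q) : Module.End F (V ⊗[F] V))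
      (LinearMap.lTensor V (act (y : A) ^ q)) := fun x y => TO_comm_l ((hac x y).pow_pow _ _)
  have hst : ∀ x : W, ∀ n ∈ Submodule.span F {z | ∃ v ∈ N, ∃ w ∈ N', z = v ⊗ₜ[F] w},
      LinearMap.lTensor V (act (x : A) ^ q) n ∈ Submodule.span F {z | ∃ v ∈ N, ∃ w ∈ N', z = v ⊗ₜ[F] w} := by
    intro x n hn
    refine Submodule.span_induction ?_ ?_ ?_ ?_ hn
    · rintro _ ⟨v, hv, w, hw, rfl⟩
      rw [LinearMap.lTensor_tmul]
      exact Submodule.subset_span ⟨v, hv, _, hsN' x w hw, rfl⟩
    · rw [map_zero]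
      exact Submodule.zero_mem _
    · intro a b _ _ ha hb
      rw [map_add]
      exact Submodule.add_mem _ ha hb
    · intro c a _ ha
      rw [map_smul]
      exact Submodule.smul_mem _ c ha
  obtain ⟨s, z, hz, hzn, hzT⟩ := wdec (fun x : W => (LinearMap.lTensor V (act (x : A) ^ q) : Module.End F (V ⊗[F] V)))
    hfc _ hfin hst ξ hξ
  rw [hz]
  refine Submodule.sum_mem _ fun θ hθ => ?_
  by_cases hz0 : z θ = 0
  · rw [hz0]
    exact Submodule.zero_mem _
  -- the roots
  have hroot : ∀ x : A, ∃ c : F, ∀ h : x ∈ W, c ^ q = θ ⟨x, h⟩ := by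
    intro x
    by_cases hxW : x ∈ W
    · obtain ⟨c, hc⟩ := IsAlgClosed.exists_pow_nat_eq (θ ⟨x, hxW⟩) hq0
      exact ⟨c, fun _ => hc⟩
    · exact ⟨0, fun h => absurd h hxW⟩
  choose χ₀ hχ₀ using hroot
  obtain ⟨D, hD⟩ : ∃ D : W → Module.End F V, ∀ x : W, D x = act (x : A) - algebraMap F (Module.End F V) (χ₀ x) :=
    ⟨_, fun _ => rfl⟩
  have hDc : ∀ x y : W, Commute (D x) (D y) := by
    intro x y
    rw [hD, hD]
    refine Commute.sub_left (Commute.sub_right (hac _ _) ?_) (Commute.sub_right ?_ ?_)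
    · exact (Algebra.commutes _ _).symm
    · exact Algebra.commutes _ _
    · exact Algebra.commutes _ _
  have hDq : ∀ x : W, D x ^ q = act (x : A) ^ q - algebraMap F (Module.End F V) (θ x) := by
    intro x
    have h3 : Commute (act (x : A)) (algebraMap F (Module.End F V) (χ₀ x)) := (Algebra.commutes _ _).symm
    rw [hD, hq, TO_frob_sub h2V h3, ← hq, ← map_pow (algebraMap F (Module.End F V)), hχ₀ x x.2]
  have hΛ : ∀ x : W, LinearMap.rTensor V (D x) + LinearMap.lTensor V (D x) =
      LinearMap.rTensor V (act (x : A)) + LinearMap.lTensor V (act (x : A)) := by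
    intro x
    rw [hD, LinearMap.rTensor_sub, LinearMap.lTensor_sub, TO_r_alg, TO_l_alg]
    have h3 : algebraMap F (Module.End F (V ⊗[F] V)) (χ₀ x) + algebraMap F (Module.End F (V ⊗[F] V)) (χ₀ x) = 0 := by
      rw [← two_mul, h2T, zero_mul]
    have h4 := sub_zero (LinearMap.rTensor V (act (x : A)) + LinearMap.lTensor V (act (x : A)))
    rw [← h3] at h4
    rw [← h4]
    abel
  -- the products of `k` operators kill `z θ`
  have hkz : ∀ l : List W, l.length = k →
      (l.map fun i => LinearMap.rTensor V (D i) + LinearMap.lTensor V (D i)).prod (z θ) = 0 := by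
    intro l hl
    refine hzT _ (fun x => ?_) ?_ θ hθ
    · refine Commute.list_prod_left _ _ fun T hT => ?_
      obtain ⟨y, _, rfl⟩ := List.mem_map.1 hT
      rw [hΛ]
      exact Commute.add_left (TO_comm _ _) (TO_comm_l ((hac _ _).pow_right _))
    · have h3 := hk (l.map Subtype.val) (by rw [List.length_map, hl]) fun x hx => by
        obtain ⟨y, _, rfl⟩ := List.mem_map.1 hx
        exact y.2
      rw [List.map_map] at h3
      have h4 : (l.map fun i => LinearMap.rTensor V (D i) + LinearMap.lTensor V (D i)) =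
          l.map ((fun x => LinearMap.rTensor V (act x) + LinearMap.lTensor V (act x)) ∘ Subtype.val) :=
        List.map_congr_left fun x _ => hΛ x
      rw [h4]
      exact h3
  -- the powers of `D x` kill `z θ` on both sides
  have hlr : ∀ x : W, LinearMap.rTensor V (D x ^ q) (z θ) = LinearMap.lTensor V (D x ^ q) (z θ) := by
    intro x
    have h3 : (LinearMap.rTensor V (act (x : A) ^ q) - LinearMap.lTensor V (act (x : A) ^ q)) (z θ) = 0 := by
      refine hzT _ (fun y => ?_) ?_ θ hθ
      · exact Commute.sub_left (TO_comm _ _) (hfc x y)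
      · rw [LinearMap.sub_apply, hx, sub_self]
    rw [LinearMap.sub_apply, sub_eq_zero] at h3
    rw [hDq, LinearMap.rTensor_sub, LinearMap.lTensor_sub, TO_r_alg, TO_l_alg, LinearMap.sub_apply,
      LinearMap.sub_apply, h3]
  have hl0 : ∀ x : W, ∃ n : ℕ, LinearMap.lTensor V (D x ^ n) (z θ) = 0 := by
    intro x
    obtain ⟨n, hn⟩ := hzn θ hθ x
    refine ⟨q * n, ?_⟩
    have h3 : LinearMap.lTensor V (act (x : A) ^ q) - algebraMap F (Module.End F (V ⊗[F] V)) (θ x) =
        LinearMap.lTensor V (D x ^ q) := by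
      rw [hDq, LinearMap.lTensor_sub, TO_l_alg]
    rw [h3, LinearMap.lTensor_pow, ← pow_mul] at hn
    exact hn
  have hr0 : ∀ x : W, ∃ n : ℕ, LinearMap.rTensor V (D x ^ n) (z θ) = 0 := by
    intro x
    obtain ⟨n, hn⟩ := hzn θ hθ x
    refine ⟨q * n, ?_⟩
    have h3 : LinearMap.lTensor V (act (x : A) ^ q) - algebraMap F (Module.End F (V ⊗[F] V)) (θ x) =
        LinearMap.lTensor V (D x ^ q) := by
      rw [hDq, LinearMap.lTensor_sub, TO_l_alg]
    rw [h3] at hn
    rw [pow_mul, ← LinearMap.rTensor_pow, TO_pow_eq (TO_comm _ _) (hlr x) n, hn]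
  -- the two bounds
  obtain ⟨r1, u1, v1, hu1⟩ := TO_sum (z θ)
  obtain ⟨c1, hc1⟩ := nil_ind D k r1
  have hb1 := hc1 V D hDc u1 v1 (z θ) hu1 hr0 hkz
  obtain ⟨r2, u2, v2, hu2⟩ := TO_sum (TensorProduct.comm F V V (z θ))
  obtain ⟨c2, hc2⟩ := nil_ind D k r2
  have hb2 := hc2 V D hDc u2 v2 (TensorProduct.comm F V V (z θ)) hu2
    (fun x => by
      obtain ⟨n, hn⟩ := hl0 x
      exact ⟨n, by rw [TO_swap_l, hn, map_zero]⟩)
    (fun l hl => by rw [TO_swap_list, hkz l hl, map_zero])
  obtain ⟨c, hc⟩ : ∃ c : ℕ, c = max c1 c2 := ⟨_, rfl⟩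
  have hR : ∀ l : List W, l.length = c → LinearMap.rTensor V ((l.map D).prod) (z θ) = 0 :=
    TO_long (by rw [hc]; exact le_max_left _ _) hb1
  have hL : ∀ l : List W, l.length = c → LinearMap.lTensor V ((l.map D).prod) (z θ) = 0 := by
    intro l hl
    have h3 := TO_long (by rw [hc]; exact le_max_right _ _) hb2 l hl
    rw [TO_swap_l] at h3
    exact (LinearEquiv.map_eq_zero_iff _).1 h3
  -- the space `Y`
  obtain ⟨Y, hY⟩ : ∃ Y : Submodule F V, ∀ v, v ∈ Y ↔ ∀ l : List W, l.length = c → (l.map D).prod v = 0 := by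
    refine ⟨⨅ l : {l : List W // l.length = c}, LinearMap.ker ((l : List W).map D).prod, fun v => ?_⟩
    rw [Submodule.mem_iInf]
    exact ⟨fun h l hl => h ⟨l, hl⟩, fun h l => h l l.2⟩
  have hmem : z θ ∈ TT2 Y Y := by
    refine inter_ker (fun l : {l : List W // l.length = c} => ((l : List W).map D).prod)
      (fun l : {l : List W // l.length = c} => ((l : List W).map D).prod) (z θ) (fun l => hR l l.2)
      (fun l => hL l l.2) Y Y (fun v hv => (hY v).2 fun l hl => hv ⟨l, hl⟩) (fun v hv => (hY v).2 fun l hl => hv ⟨l, hl⟩)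
  obtain ⟨v0, hv0Y, hv00⟩ : ∃ v ∈ Y, v ≠ 0 := by
    by_contra hcon
    push Not at hcon
    apply hz0
    have h3 : TT2 Y Y ≤ ⊥ := by
      rw [TT2, Submodule.span_le]
      rintro _ ⟨v, hv, w, _, rfl⟩
      rw [hcon v hv, TensorProduct.zero_tmul]
      exact Submodule.zero_mem _
    exact (Submodule.mem_bot F).1 (h3 hmem)
  -- lists of elements of `W`
  have hlist : ∀ (χ : A → F) (_ : ∀ x ∈ W, χ x = χ₀ x) (v : V), v ∈ Y ↔ ∀ l : List A, l.length = c → (∀ x ∈ l, x ∈ W) →
      (l.map fun x => act x - algebraMap F (Module.End F V) (χ x)).prod v = 0 := by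
    intro χ hχ v
    rw [hY]
    constructor
    · intro h l hl hlW
      lift l to List W using hlW
      have h4 : (l.map Subtype.val).map (fun x => act x - algebraMap F (Module.End F V) (χ x)) = l.map D := by
        rw [List.map_map]
        refine List.map_congr_left fun x _ => ?_
        rw [hD, Function.comp_apply, hχ _ x.2]
      rw [h4]
      exact h l (by rw [← hl, List.length_map])
    · intro h l hl
      have h4 : (l.map Subtype.val).map (fun x => act x - algebraMap F (Module.End F V) (χ x)) = l.map D := by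
        rw [List.map_map]
        refine List.map_congr_left fun x _ => ?_
        rw [hD, Function.comp_apply, hχ _ x.2]
      rw [← h4]
      refine h _ (by rw [List.length_map, hl]) fun x hx => ?_
      obtain ⟨y, _, rfl⟩ := List.mem_map.1 hx
      exact y.2
  obtain ⟨χ, hχ⟩ := ext_char act W hW χ₀ c v0 hv00 ((hlist χ₀ (fun _ _ => rfl) v0).1 hv0Y)
  have hYk : Y = Yk act χ c := by
    ext v
    rw [Yk_iff act W hW χ c v, hlist (fun x => χ x) hχ v]
  rw [hYk] at hmem
  exact le_trans (le_iSup (fun n : ℕ => TT2 (Yk act χ n) (Yk act χ n)) c)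
    (le_iSup (fun χ : A →ₐ[F] F => ⨆ n : ℕ, TT2 (Yk act χ n) (Yk act χ n)) χ) hmem


end EL
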