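import Pool.Agent.Lib.MP_a5a771_alT.SC

/-!
# The inverse preserves the alternating tensors of a generalised weight space

PROOF. `Y k = Yk act χ k`, `c` from `scal`, `N = G - c`. `N` maps `TT2 (Y k) (Y j)` into `TT2 (Y (k - 1)) (Y j) ⊔ TT2 (Y k) (Y (j - 1))`, so, with `Fm m = ⨆ TT2 (Y k) (Y j)` over `k + j ≤ m`,
`k, j ≤ n` (or: the span of the `v ⊗ w` with `v ∈ Y k`, `w ∈ Y j`, `k + j ≤ m`), `N (Fm (m + 1)) ≤ Fm m` and `Fm 1 = ⊥` (`Y 0 = ⊥`). So `N ^ (2 n) ξ = 0`. `S = AltS F V` is stable under `G`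
(`hA`). From `(G - c) ^ (2 n) ξ = 0` : `ξ = G ξ'` with `ξ'` in `S`: by induction on `m` show: `ζ ∈ S` and `N ^ m ζ = 0` imply `ζ = G ζ'` for some `ζ' ∈ S`: `m = 0`: `ζ = 0`. `m + 1`:
`N ζ = G ζ - c ζ ∈ S` satisfies `N ^ m (N ζ) = 0`, so `N ζ = G ζ''`, `ζ'' ∈ S`, and `c ζ = G ζ - N ζ = G (ζ - ζ'')`. Then `G.symm ξ = ξ' ∈ S`.
-/

set_option autoImplicit false

namespace EL

open scoped TensorProduct

theorem inv_alt {F A V : Type*} [Field F] [CommRing A] [Algebra F A] [AddCommGroup V] [Module F V]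
    (act : A →ₐ[F] Module.End F V) (χ : A →ₐ[F] F) (G : V ⊗[F] V ≃ₗ[F] V ⊗[F] V)
    (hG : ∀ k, ∀ v ∈ Yk act χ k, ∃ (n : ℕ) (a : Fin n → A) (x : Fin n → V), (∀ i, x i ∈ Yk act χ k) ∧
      ∀ w, G (v ⊗ₜ w) = ∑ i, x i ⊗ₜ act (a i) w)
    (hA : ∀ ζ ∈ AltS F V, G ζ ∈ AltS F V) (n : ℕ) (ξ : V ⊗[F] V) (hξ : ξ ∈ AltS F V ⊓ TT2 (Yk act χ n) (Yk act χ n)) :
    G.symm ξ ∈ AltS F V := by
  obtain ⟨c, hc, hN⟩ := scal act χ G hG hA
  obtain ⟨N, hNdef⟩ : ∃ N : Module.End F (V ⊗[F] V), ∀ z, N z = G z - c • z :=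
    ⟨G.toLinearMap - c • LinearMap.id, fun z => by simp⟩
  obtain ⟨Fm, hFm⟩ : ∃ Fm : ℕ → Submodule F (V ⊗[F] V), ∀ m, Fm m =
      Submodule.span F {z | ∃ k j, k + j ≤ m ∧ ∃ v ∈ Yk act χ k, ∃ w ∈ Yk act χ j, z = v ⊗ₜ w} := ⟨_, fun _ => rfl⟩
  have hTF : ∀ k j m, k + j ≤ m → TT2 (Yk act χ k) (Yk act χ j) ≤ Fm m := by
    intro k j m hkj
    rw [TT2, Submodule.span_le]
    rintro _ ⟨v, hv, w, hw, rfl⟩
    rw [hFm]
    exact Submodule.subset_span ⟨k, j, hkj, v, hv, w, hw, rfl⟩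
  have hstep : ∀ m, ∀ z ∈ Fm (m + 1), N z ∈ Fm m := by
    intro m z hz
    have h1 : Fm (m + 1) ≤ (Fm m).comap N := by
      rw [hFm (m + 1), Submodule.span_le]
      rintro _ ⟨k, j, hkj, v, hv, w, hw, rfl⟩
      show N (v ⊗ₜ w) ∈ Fm m
      rcases k with _ | k
      · rw [Yk_zero, Submodule.mem_bot] at hv
        rw [hv, TensorProduct.zero_tmul, map_zero]
        exact Submodule.zero_mem _
      rcases j with _ | j
      · rw [Yk_zero, Submodule.mem_bot] at hw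
        rw [hw, TensorProduct.tmul_zero, map_zero]
        exact Submodule.zero_mem _
      rw [hNdef]
      have h2 := hN (k + 1) (j + 1) v hv w hw
      rw [Nat.add_sub_cancel, Nat.add_sub_cancel] at h2
      exact (sup_le (hTF _ _ _ (by omega)) (hTF _ _ _ (by omega))) h2
    exact h1 hz
  have hzero : ∀ m, ∀ z ∈ Fm m, (N ^ m) z = 0 := by
    intro m
    induction m with
    | zero =>
      intro z hz
      have h1 : Fm 0 ≤ ⊥ := by
        rw [hFm 0, Submodule.span_le]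
        rintro _ ⟨k, j, hkj, v, hv, w, hw, rfl⟩
        have hk : k = 0 := by omega
        subst hk
        rw [Yk_zero, Submodule.mem_bot] at hv
        rw [hv, TensorProduct.zero_tmul]
        exact Submodule.zero_mem _
      rw [pow_zero, Module.End.one_apply]
      exact (Submodule.mem_bot F).1 (h1 hz)
    | succ m ih =>
      intro z hz
      rw [pow_succ, Module.End.mul_apply]
      exact ih _ (hstep m z hz)
  have hmain : ∀ m, ∀ ζ ∈ AltS F V, (N ^ m) ζ = 0 → ∃ ζ' ∈ AltS F V, G ζ' = ζ := by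
    intro m
    induction m with
    | zero =>
      intro ζ _ h0
      rw [pow_zero, Module.End.one_apply] at h0
      exact ⟨0, Submodule.zero_mem _, by rw [h0, map_zero]⟩
    | succ m ih =>
      intro ζ hζ h0
      rw [pow_succ, Module.End.mul_apply] at h0
      have h1 : N ζ ∈ AltS F V := by
        rw [hNdef]
        exact Submodule.sub_mem _ (hA ζ hζ) (Submodule.smul_mem _ c hζ)
      obtain ⟨ζ₂, h2, h3⟩ := ih _ h1 h0
      refine ⟨c⁻¹ • (ζ - ζ₂), Submodule.smul_mem _ _ (Submodule.sub_mem _ hζ h2), ?_⟩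
      rw [map_smul, map_sub, h3, hNdef, sub_sub_cancel, smul_smul, inv_mul_cancel₀ hc, one_smul]
  obtain ⟨ζ', h1, h2⟩ := hmain (n + n) ξ hξ.1 (hzero _ _ (hTF n n _ le_rfl hξ.2))
  rw [← h2, LinearEquiv.symm_apply_apply]
  exact h1

end EL
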