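import Pool.Agent.Lib.MP_a5a771_alT.FL
import Pool.Agent.Lib.MP_a5a771_alT.TO
import Pool.Agent.Lib.MP_a5a771_alT.AC
import Pool.Agent.Lib.MP_a5a771_alT.UN

/-!
# The core theorem in characteristic two

PROOF. `t₁ = tau P₁`, `t₂ = tau P₂`: involutions, commute with `lam`, `t mu x t = lam x - mu x` on `W` (as in `Core.lean`). `hcond` gives `hba` (the image of `1 - t₂` is fixed up to sign by `t₂`, `-1 = 1`).
Let `e ∈ E`, `w = t₁ e - t₂ e = (e - t₂ e) - (e - t₁ e)`; by `hcond` `w = e'' - t₂ e''` for some `e''`, so `ξ = P₂.symm w ∈ AltS`. `flip3`: `lam (x x' y) w = 0` for `x, x' ∈ W₁`, `y ∈ W₂`; `W₁` and `W₂` both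
generate the ideal `ker ε` (`ker_gen`, `ε = 0` on both), so `lam a w = 0` for all `a ∈ (ker ε) ^ 3`, in particular for the products of three elements of `W₂`; `l₂` turns this into the
hypothesis of `tors` (`k = 3`, `W = W₂`) for `ξ`. `alt_comp`: `ξ` is a sum of elements `ζ` of `AltS ⊓ TT2 (Yk act χ n) (Yk act χ n)`. `inv_alt` with `G = P₁ ≪≫ P₂.symm` (`hG` from `r`, `hA` from `hcond`): `P₁.symm (P₂ ζ) ∈ AltS`.
So `P₁.symm w ∈ AltS`, `w = e₃ - t₁ e₃`, and `e - t₂ e = (e - t₁ e) + w = (e + e₃) - t₁ (e + e₃)`.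
-/

set_option autoImplicit false

namespace EL

open scoped TensorProduct Pointwise

private theorem CO_tau {F E V : Type*} [Field F] [AddCommGroup E] [Module F E] [AddCommGroup V] [Module F V]
    (P : V ⊗[F] V ≃ₗ[F] E) (v w : V) : tau P (P (v ⊗ₜ w)) = P (w ⊗ₜ v) := by
  change P (TensorProduct.comm F V V (P.symm (P (v ⊗ₜ w)))) = P (w ⊗ₜ v)
  rw [LinearEquiv.symm_apply_apply, TensorProduct.comm_tmul]

private theorem CO_ind {F E V : Type*} [Field F] [AddCommGroup E] [Module F E] [AddCommGroup V] [Module F V]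
    (P : V ⊗[F] V ≃ₗ[F] E) (s t : E →ₗ[F] E) (h : ∀ v w, s (P (v ⊗ₜ w)) = t (P (v ⊗ₜ w))) (e : E) : s e = t e := by
  have h1 : s.comp P.toLinearMap = t.comp P.toLinearMap := by
    refine TensorProduct.ext' fun v w => ?_
    exact h v w
  have h2 := LinearMap.congr_fun h1 (P.symm e)
  have h3 : P (P.symm e) = e := P.apply_symm_apply e
  have h4 : s (P (P.symm e)) = t (P (P.symm e)) := h2
  rwa [h3] at h4

private theorem CO_inv {F E V : Type*} [Field F] [AddCommGroup E] [Module F E] [AddCommGroup V] [Module F V]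
    (P : V ⊗[F] V ≃ₗ[F] E) (e : E) : tau P (tau P e) = e := by
  have h := CO_ind P ((tau P).comp (tau P)) LinearMap.id (fun v w => by
    rw [LinearMap.comp_apply, CO_tau, CO_tau, LinearMap.id_apply]) e
  exact h

private theorem CO_com {F A E V : Type*} [Field F] [CommRing A] [Algebra F A]
    [AddCommGroup E] [Module F E] [AddCommGroup V] [Module F V] (lam : A →ₐ[F] Module.End F E)
    (act : A →ₐ[F] Module.End F V) (P : V ⊗[F] V ≃ₗ[F] E) (W : Set A) (hW : Algebra.adjoin F W = ⊤)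
    (l : ∀ x ∈ W, ∀ v w, lam x (P (v ⊗ₜ w)) = P (act x v ⊗ₜ w) + P (v ⊗ₜ act x w)) (a : A) (e : E) :
    tau P (lam a e) = lam a (tau P e) := by
  have ha : a ∈ Algebra.adjoin F W := by
    rw [hW]
    exact Algebra.mem_top
  induction ha using Algebra.adjoin_induction generalizing e with
  | mem x hx =>
    have h := CO_ind P ((tau P).comp (lam x)) ((lam x).comp (tau P)) (fun v w => by
      rw [LinearMap.comp_apply, LinearMap.comp_apply, l x hx, map_add, CO_tau, CO_tau, CO_tau, l x hx, add_comm]) e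
    exact h
  | algebraMap r =>
    rw [AlgHom.commutes, Module.algebraMap_end_apply, Module.algebraMap_end_apply, map_smul]
  | add x y _ _ hx hy =>
    rw [map_add, LinearMap.add_apply, LinearMap.add_apply, map_add, hx, hy]
  | mul x y _ _ hx hy =>
    rw [map_mul, Module.End.mul_apply, Module.End.mul_apply, hx, hy]

private theorem CO_s {F A E V : Type*} [Field F] [CommRing A] [Algebra F A]
    [AddCommGroup E] [Module F E] [AddCommGroup V] [Module F V] (lam mu : A →ₐ[F] Module.End F E)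
    (act : A →ₐ[F] Module.End F V) (P : V ⊗[F] V ≃ₗ[F] E) (W : Set A)
    (m : ∀ a v w, mu a (P (v ⊗ₜ w)) = P (v ⊗ₜ act a w))
    (l : ∀ x ∈ W, ∀ v w, lam x (P (v ⊗ₜ w)) = P (act x v ⊗ₜ w) + P (v ⊗ₜ act x w)) (x : A) (hx : x ∈ W) (e : E) :
    tau P (mu x (tau P e)) = lam x e - mu x e := by
  have h := CO_ind P ((tau P).comp ((mu x).comp (tau P))) (lam x - mu x) (fun v w => by
    rw [LinearMap.comp_apply, LinearMap.comp_apply, LinearMap.sub_apply, CO_tau, m, CO_tau, m, l x hx,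
      add_sub_cancel_right]) e
  exact h

private theorem CO_alt {F E V : Type*} [Field F] [AddCommGroup E] [Module F E] [AddCommGroup V] [Module F V]
    (P : V ⊗[F] V ≃ₗ[F] E) (e : E) : P.symm (e - tau P e) ∈ AltS F V := by
  rw [mem_AltS]
  refine ⟨P.symm e, ?_⟩
  rw [map_sub]
  congr 1
  change TensorProduct.comm F V V (P.symm e) = P.symm (P (TensorProduct.comm F V V (P.symm e)))
  rw [LinearEquiv.symm_apply_apply]

private theorem CO_alt' {F E V : Type*} [Field F] [AddCommGroup E] [Module F E] [AddCommGroup V] [Module F V]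
    (P : V ⊗[F] V ≃ₗ[F] E) (ξ : V ⊗[F] V) (h : ξ ∈ AltS F V) : ∃ e, P ξ = e - tau P e := by
  rw [mem_AltS] at h
  obtain ⟨ζ, rfl⟩ := h
  refine ⟨P ζ, ?_⟩
  rw [map_sub]
  congr 1
  change P (TensorProduct.comm F V V ζ) = P (TensorProduct.comm F V V (P.symm (P ζ)))
  rw [LinearEquiv.symm_apply_apply]

private theorem CO_prod {F A E V : Type*} [Field F] [CommRing A] [Algebra F A]
    [AddCommGroup E] [Module F E] [AddCommGroup V] [Module F V] (lam : A →ₐ[F] Module.End F E)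
    (act : A →ₐ[F] Module.End F V) (P : V ⊗[F] V ≃ₗ[F] E) (W : Set A)
    (l : ∀ x ∈ W, ∀ v w, lam x (P (v ⊗ₜ w)) = P (act x v ⊗ₜ w) + P (v ⊗ₜ act x w)) (L : List A) (hL : ∀ x ∈ L, x ∈ W)
    (ξ : V ⊗[F] V) : P ((L.map fun x => LinearMap.rTensor V (act x) + LinearMap.lTensor V (act x)).prod ξ) =
      lam L.prod (P ξ) := by
  induction L generalizing ξ with
  | nil => simp
  | cons x L ih =>
    rw [List.map_cons, List.prod_cons, Module.End.mul_apply, List.prod_cons, map_mul, Module.End.mul_apply,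
      ← ih (fun y hy => hL y (List.mem_cons_of_mem x hy)) ξ]
    generalize (L.map fun x => LinearMap.rTensor V (act x) + LinearMap.lTensor V (act x)).prod ξ = ζ
    induction ζ using TensorProduct.induction_on with
    | zero => simp
    | tmul v w =>
      rw [l x (hL x List.mem_cons_self), LinearMap.add_apply, LinearMap.rTensor_tmul, LinearMap.lTensor_tmul, map_add]
    | add a b ha hb => rw [map_add, map_add, map_add, map_add, ha, hb]

private theorem CO_pow {F A : Type*} [Field F] [CommRing A] [Algebra F A] (W : Set A) (ε : A →ₐ[F] F) (hε : ∀ x ∈ W, ε x = 0)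
    (L : List A) (hL : ∀ x ∈ L, x ∈ W) : L.prod ∈ (RingHom.ker ε) ^ L.length := by
  induction L with
  | nil => simp
  | cons x L ih =>
    rw [List.prod_cons, List.length_cons, pow_succ']
    exact Ideal.mul_mem_mul (by rw [RingHom.mem_ker]; exact hε x (hL x List.mem_cons_self))
      (ih fun y hy => hL y (List.mem_cons_of_mem x hy))

theorem core2 {F A E V : Type*} [Field F] [IsAlgClosed F] (h2 : (2 : F) = 0) [CommRing A] [Algebra F A]
    [AddCommGroup E] [Module F E] [AddCommGroup V] [Module F V] (lam mu : A →ₐ[F] Module.End F E)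
    (hc : ∀ a c, Commute (lam a) (mu c)) (act : A →ₐ[F] Module.End F V)
    (P₁ P₂ : V ⊗[F] V ≃ₗ[F] E) (W₁ W₂ : Set A) (hW₁ : Algebra.adjoin F W₁ = ⊤) (hW₂ : Algebra.adjoin F W₂ = ⊤)
    (m₁ : ∀ a v w, mu a (P₁ (v ⊗ₜ w)) = P₁ (v ⊗ₜ act a w)) (m₂ : ∀ a v w, mu a (P₂ (v ⊗ₜ w)) = P₂ (v ⊗ₜ act a w))
    (l₁ : ∀ x ∈ W₁, ∀ v w, lam x (P₁ (v ⊗ₜ w)) = P₁ (act x v ⊗ₜ w) + P₁ (v ⊗ₜ act x w))
    (l₂ : ∀ x ∈ W₂, ∀ v w, lam x (P₂ (v ⊗ₜ w)) = P₂ (act x v ⊗ₜ w) + P₂ (v ⊗ₜ act x w))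
    (r : ∀ (χ : A →ₐ[F] F) (k : ℕ), ∀ v ∈ Yk act χ k, ∃ (n : ℕ) (a : Fin n → A) (x : Fin n → V), (∀ i, x i ∈ Yk act χ k) ∧
      ∀ w, P₁ (v ⊗ₜ w) = ∑ i, P₂ (x i ⊗ₜ act (a i) w))
    (ε : A →ₐ[F] F) (hε₁ : ∀ x ∈ W₁, ε x = 0) (hε₂ : ∀ x ∈ W₂, ε x = 0)
    (hcond : ∀ e, ∃ e', e - tau P₁ e = e' - tau P₂ e') :
    ∀ e, ∃ e', e - tau P₂ e = e' - tau P₁ e' := by
  have i₁ := CO_inv P₁
  have i₂ := CO_inv P₂
  have c₁ := CO_com lam act P₁ W₁ hW₁ l₁
  have c₂ := CO_com lam act P₂ W₂ hW₂ l₂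
  have s₁ := CO_s lam mu act P₁ W₁ m₁ l₁
  have s₂ := CO_s lam mu act P₂ W₂ m₂ l₂
  have hneg : ∀ e : E, -e = e := by
    intro e
    have h : e + e = 0 := by rw [← two_smul F, h2, zero_smul]
    exact neg_eq_of_add_eq_zero_left h
  have hba : ∀ e, tau P₂ (e - tau P₁ e) = e - tau P₁ e := by
    intro e
    obtain ⟨e', he'⟩ := hcond e
    rw [he', map_sub, i₂, ← neg_sub e' (tau P₂ e'), hneg]
  have hf := flip3 h2 lam mu hc W₁ W₂ hW₁ hW₂ (tau P₁) (tau P₂) i₁ i₂ c₁ c₂ s₁ s₂ hba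
  intro e
  have hw : P₂.symm (tau P₁ e - tau P₂ e) ∈ AltS F V := by
    obtain ⟨e'', he''⟩ := hcond e
    have h : tau P₁ e - tau P₂ e = (e - e'') - tau P₂ (e - e'') := by
      have h1 : tau P₁ e = e - (e'' - tau P₂ e'') := by
        rw [← he'']
        abel
      rw [h1, map_sub]
      abel
    rw [h]
    exact CO_alt P₂ _
  have hker : ∀ a ∈ (RingHom.ker ε) ^ 3, lam a (tau P₁ e - tau P₂ e) = 0 := by
    intro a ha
    have h1 := ker_gen W₁ hW₁ ε
    have h2' := ker_gen W₂ hW₂ ε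
    have h3 : (RingHom.ker ε) ^ 3 = Ideal.span ({a | ∃ x ∈ W₁, a = x - algebraMap F A (ε x)} *
        {a | ∃ x ∈ W₁, a = x - algebraMap F A (ε x)} * {a | ∃ x ∈ W₂, a = x - algebraMap F A (ε x)}) := by
      rw [← Ideal.span_mul_span', ← Ideal.span_mul_span', ← h1, ← h2', pow_succ, pow_two]
    rw [h3] at ha
    refine Submodule.span_induction (p := fun a _ => lam a (tau P₁ e - tau P₂ e) = 0) ?_ ?_ ?_ ?_ ha
    · rintro _ ⟨_, ⟨_, ⟨x, hx, rfl⟩, _, ⟨x', hx', rfl⟩, rfl⟩, _, ⟨y, hy, rfl⟩, rfl⟩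
      have h4 := hf x hx x' hx' y hy e
      simp only [hε₁ x hx, hε₁ x' hx', hε₂ y hy, map_zero, sub_zero]
      exact h4
    · rw [map_zero, LinearMap.zero_apply]
    · intro x y _ _ hx hy
      rw [map_add, LinearMap.add_apply, hx, hy, add_zero]
    · intro b x _ hx
      rw [smul_eq_mul, map_mul, Module.End.mul_apply, hx, map_zero]
  have ht := tors h2 act W₂ hW₂ 3 (P₂.symm (tau P₁ e - tau P₂ e)) (by
    intro L hL hLW
    apply P₂.injective
    rw [CO_prod lam act P₂ W₂ l₂ L hLW, LinearEquiv.apply_symm_apply, map_zero]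
    have h := CO_pow W₂ ε hε₂ L hLW
    rw [hL] at h
    exact hker _ h)
  have hac := alt_comp act _ hw ht
  have hA : ∀ ζ ∈ AltS F V, (P₁ ≪≫ₗ P₂.symm) ζ ∈ AltS F V := by
    intro ζ hζ
    obtain ⟨e₁, he₁⟩ := CO_alt' P₁ ζ hζ
    obtain ⟨e₂, he₂⟩ := hcond e₁
    rw [LinearEquiv.trans_apply, he₁, he₂]
    exact CO_alt P₂ _
  have hle : (⨆ (χ : A →ₐ[F] F), ⨆ (n : ℕ), AltS F V ⊓ TT2 (Yk act χ n) (Yk act χ n)) ≤
      Submodule.comap (P₁ ≪≫ₗ P₂.symm).symm.toLinearMap (AltS F V) := by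
    refine iSup_le fun χ => iSup_le fun n => ?_
    intro ζ hζ
    rw [Submodule.mem_comap]
    refine inv_alt act χ (P₁ ≪≫ₗ P₂.symm) ?_ hA n ζ hζ
    intro k v hv
    obtain ⟨m, a, x, hx, hr⟩ := r χ k v hv
    refine ⟨m, a, x, hx, fun w => ?_⟩
    rw [LinearEquiv.trans_apply, hr, map_sum]
    refine Finset.sum_congr rfl fun i _ => ?_
    rw [LinearEquiv.symm_apply_apply]
  have hfin := hle hac
  rw [Submodule.mem_comap] at hfin
  obtain ⟨e₃, he₃⟩ := CO_alt' P₁ _ hfin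
  have h5 : P₁ ((P₁ ≪≫ₗ P₂.symm).symm.toLinearMap (P₂.symm (tau P₁ e - tau P₂ e))) = tau P₁ e - tau P₂ e := by
    change P₁ (P₁.symm (P₂ (P₂.symm (tau P₁ e - tau P₂ e)))) = _
    rw [LinearEquiv.apply_symm_apply, LinearEquiv.apply_symm_apply]
  rw [h5] at he₃
  refine ⟨e + e₃, ?_⟩
  rw [map_add]
  have h6 : e - tau P₂ e = (e - tau P₁ e) + (tau P₁ e - tau P₂ e) := by abel
  rw [h6, he₃]
  abel


end EL
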