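import Pool.Agent.Lib.MP_a5a771_al.EnvB
import Pool.Agent.Lib.MP_a5a771_al.Idl

/-!
# The abelianisation of an enveloping algebra is a polynomial ring

PROOF. `G' = D1 F G`, `Q = G ⧸ G'` (as a vector space), `b : Basis κ F Q`. `φ : G → MvPolynomial κ F`, `x ↦ ∑ (b.repr (class of x) k) • X k` is linear and kills brackets, so it extends to an
algebra homomorphism `g : U → MvPolynomial κ F`, `g (i x) = φ x` (`env_lift`; the target is commutative). `g` kills `Com F U` (span of `a (x y - y x) c`), so it factors through the surjective `p`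
(`hk`): `ḡ : A → MvPolynomial κ F`, `ḡ (p u) = g u` (well defined: `p u = p u'` gives `u - u' ∈ Com`; `AlgHom` by choice of preimages, or `Function.Surjective.…`). Conversely `ψ : MvPolynomial κ F → A`,
`X k ↦ p (i x_k)`, `x_k` a representative of `b k` (`MvPolynomial.aeval`). `ψ ∘ ḡ = id` on the generators `p (i x)` (`env_gen`): `ψ (φ x) = ∑ c_k p (i x_k) = p (i x)` because
`x - ∑ c_k x_k ∈ G'` and `p (i y) = 0` for `y ∈ G'` (`i ⁅x, y⁆ = i x * i y - i y * i x`, `env_lie`). So `ḡ` is injective and `A` is a domain (`Function.Injective.isDomain ḡ.toRingHom`).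
-/

set_option autoImplicit false

namespace EL

private theorem DO_lie_mem {F G : Type*} [Field F] [LieRing G] [LieAlgebra F G] (x y : G) : ⁅x, y⁆ ∈ D1 F G := by
  rw [D1, LieAlgebra.derivedSeries_def, LieAlgebra.derivedSeriesOfIdeal_succ, LieAlgebra.derivedSeriesOfIdeal_zero]
  exact LieSubmodule.lie_mem_lie (LieSubmodule.mem_top x) (LieSubmodule.mem_top y)

private theorem DO_le {F G : Type*} [Field F] [LieRing G] [LieAlgebra F G] (S : Submodule F G)
    (h : ∀ x y : G, ⁅x, y⁆ ∈ S) : (D1 F G).toSubmodule ≤ S := by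
  rw [D1, LieAlgebra.derivedSeries_def, LieAlgebra.derivedSeriesOfIdeal_succ, LieAlgebra.derivedSeriesOfIdeal_zero,
    LieSubmodule.lieIdeal_oper_eq_linear_span']
  refine Submodule.span_le.2 ?_
  rintro _ ⟨x, _, y, _, rfl⟩
  exact h x y

private theorem DO_com {F U B : Type*} [Field F] [Ring U] [Algebra F U] [CommRing B] [Algebra F B] (g : U →ₐ[F] B)
    {u : U} (hu : u ∈ Com F U) : g u = 0 := by
  have h1 : Com F U ≤ LinearMap.ker g.toLinearMap := by
    unfold Com
    refine Submodule.span_le.2 ?_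
    rintro _ ⟨a, x, y, c, rfl⟩
    rw [SetLike.mem_coe, LinearMap.mem_ker, AlgHom.toLinearMap_apply, map_mul, map_mul, map_sub, map_mul, map_mul,
      mul_comm (g y), sub_self, mul_zero, zero_mul]
  have h2 := h1 hu
  rwa [LinearMap.mem_ker, AlgHom.toLinearMap_apply] at h2

theorem quo_dom {F G U A : Type*} [Field F] [LieRing G] [LieAlgebra F G] [Ring U] [Algebra F U] [CommRing A] [Algebra F A]
    {i : G →ₗ[F] U} {ε : U →ₐ[F] F} (hE : Env i ε) (p : U →ₐ[F] A) (hp : Function.Surjective p)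
    (hk : ∀ u, p u = 0 ↔ u ∈ Com F U) : IsDomain A := by
  -- the classes modulo the derived algebra
  let D : Submodule F G := (D1 F G).toSubmodule
  obtain ⟨κ, ⟨b⟩⟩ : ∃ κ : Type _, Nonempty (Module.Basis κ F (G ⧸ D)) :=
    ⟨_, ⟨Module.Basis.ofVectorSpace F (G ⧸ D)⟩⟩
  let φ : G →ₗ[F] MvPolynomial κ F := (b.constr F fun k => (MvPolynomial.X k : MvPolynomial κ F)).comp D.mkQ
  have hφ : ∀ x y, φ ⁅x, y⁆ = φ x * φ y - φ y * φ x := by
    intro x y
    rw [mul_comm (φ y), sub_self]
    have h1 : D.mkQ ⁅x, y⁆ = 0 := by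
      rw [Submodule.mkQ_apply, Submodule.Quotient.mk_eq_zero]
      exact DO_lie_mem x y
    show (b.constr F fun k => (MvPolynomial.X k : MvPolynomial κ F)) (D.mkQ ⁅x, y⁆) = 0
    rw [h1, map_zero]
  obtain ⟨g, hg⟩ := env_lift hE φ hφ
  choose s hs using fun k : κ => Submodule.Quotient.mk_surjective D (b k)
  let ψ : MvPolynomial κ F →ₐ[F] A := MvPolynomial.aeval fun k => p (i (s k))
  have hD : D ≤ LinearMap.ker (p.toLinearMap.comp i) := by
    refine DO_le _ fun x y => ?_
    rw [LinearMap.mem_ker]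
    show p (i ⁅x, y⁆) = 0
    rw [env_lie hE, map_sub, map_mul, map_mul, mul_comm (p (i y)), sub_self]
  have h1 : ψ.toLinearMap.comp (b.constr F fun k => (MvPolynomial.X k : MvPolynomial κ F)) =
      D.liftQ (p.toLinearMap.comp i) hD := by
    refine b.ext fun k => ?_
    have h2 : D.liftQ (p.toLinearMap.comp i) hD (b k) = p (i (s k)) := by
      rw [← hs k]
      exact Submodule.liftQ_apply D (p.toLinearMap.comp i) (s k)
    rw [h2, LinearMap.comp_apply, Module.Basis.constr_basis]
    exact MvPolynomial.aeval_X _ k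
  have h2 : ∀ x, ψ (g (i x)) = p (i x) := by
    intro x
    rw [hg]
    have h3 := LinearMap.congr_fun h1 (D.mkQ x)
    exact h3
  have h3 : ψ.comp g = p := by
    refine AlgHom.ext_of_adjoin_eq_top (env_gen hE) ?_
    rintro _ ⟨x, rfl⟩
    exact h2 x
  have h4 : ∀ u, g u = 0 → p u = 0 := by
    intro u hu
    have h5 : ψ (g u) = p u := AlgHom.congr_fun h3 u
    rw [← h5, hu, map_zero]
  have h5 : ∀ u, p u = 0 → g u = 0 := fun u hu => DO_com g ((hk u).1 hu)
  have : NoZeroDivisors A := ⟨by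
    intro a c hac
    obtain ⟨u, rfl⟩ := hp a
    obtain ⟨v, rfl⟩ := hp c
    rw [← map_mul] at hac
    have h6 := h5 _ hac
    rw [map_mul] at h6
    rcases mul_eq_zero.1 h6 with h7 | h7
    · exact Or.inl (h4 u h7)
    · exact Or.inr (h4 v h7)⟩
  have : Nontrivial A := by
    refine ⟨⟨1, 0, fun h => ?_⟩⟩
    have h6 := h5 1 (by rw [map_one, h])
    rw [map_one] at h6
    exact one_ne_zero h6
  exact NoZeroDivisors.to_isDomain A

end EL
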