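import Pool.Agent.Lib.MP_a5a771_al.Defs

/-!
# Characteristic two: definitions

`Yk act χ k`: the vectors killed by `(ker χ) ^ k`; `AltS`: the tensors `ζ - comm ζ`; `TT2 N N'`: the span of the `v ⊗ w`, `v ∈ N`, `w ∈ N'`.
-/

set_option autoImplicit false

namespace EL

open scoped TensorProduct

section

variable {F A V V' : Type*} [Field F] [CommRing A] [Algebra F A] [AddCommGroup V] [Module F V] [AddCommGroup V'] [Module F V']

/-- the vectors killed by the `k`-th power of the kernel of `χ` -/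
def Yk (act : A →ₐ[F] Module.End F V) (χ : A →ₐ[F] F) (k : ℕ) : Submodule F V where
  carrier := {v | ∀ a ∈ (RingHom.ker χ) ^ k, act a v = 0}
  add_mem' := by
    intro v w hv hw a ha
    rw [map_add, hv a ha, hw a ha, add_zero]
  zero_mem' := by
    intro a _
    rw [map_zero]
  smul_mem' := by
    intro c v hv a ha
    rw [map_smul, hv a ha, smul_zero]

/-- the tensors `ζ - comm ζ` -/
def AltS (F V : Type*) [Field F] [AddCommGroup V] [Module F V] : Submodule F (V ⊗[F] V) :=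
  LinearMap.range (LinearMap.id - (TensorProduct.comm F V V).toLinearMap)

/-- the span of the `v ⊗ w`, `v ∈ N`, `w ∈ N'` -/
def TT2 (N : Submodule F V) (N' : Submodule F V') : Submodule F (V ⊗[F] V') :=
  Submodule.span F {z | ∃ v ∈ N, ∃ w ∈ N', z = v ⊗ₜ w}

theorem mem_Yk {act : A →ₐ[F] Module.End F V} {χ : A →ₐ[F] F} {k : ℕ} {v : V} :
    v ∈ Yk act χ k ↔ ∀ a ∈ (RingHom.ker χ) ^ k, act a v = 0 := Iff.rfl

theorem Yk_zero (act : A →ₐ[F] Module.End F V) (χ : A →ₐ[F] F) : Yk act χ 0 = ⊥ := by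
  rw [eq_bot_iff]
  intro v hv
  have h := hv 1 (by rw [pow_zero, Ideal.one_eq_top]; exact Submodule.mem_top)
  rw [map_one, Module.End.one_apply] at h
  exact (Submodule.mem_bot F).2 h

theorem Yk_mono (act : A →ₐ[F] Module.End F V) (χ : A →ₐ[F] F) {k l : ℕ} (h : k ≤ l) : Yk act χ k ≤ Yk act χ l :=
  fun _ hv a ha => hv a (Ideal.pow_le_pow_right h ha)

theorem Yk_act {act : A →ₐ[F] Module.End F V} {χ : A →ₐ[F] F} {k : ℕ} {v : V} (hv : v ∈ Yk act χ k) (a : A) :
    act a v ∈ Yk act χ k := by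
  intro b hb
  rw [← Module.End.mul_apply, ← map_mul]
  exact hv _ (Ideal.mul_mem_right a _ hb)

theorem Yk_sub {act : A →ₐ[F] Module.End F V} {χ : A →ₐ[F] F} {k : ℕ} {v : V} (hv : v ∈ Yk act χ (k + 1)) (a : A) :
    act a v - χ a • v ∈ Yk act χ k := by
  intro b hb
  have h1 : act a v - χ a • v = act (a - algebraMap F A (χ a)) v := by
    rw [map_sub, LinearMap.sub_apply, AlgHom.commutes, Module.algebraMap_end_apply]
  rw [h1, ← Module.End.mul_apply, ← map_mul]
  apply hv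
  rw [pow_succ]
  apply Ideal.mul_mem_mul hb
  rw [RingHom.mem_ker, map_sub, AlgHom.commutes]
  exact sub_self _

theorem Yk_one {act : A →ₐ[F] Module.End F V} {χ : A →ₐ[F] F} {v : V} :
    v ∈ Yk act χ 1 ↔ ∀ a, act a v = χ a • v := by
  constructor
  · intro hv a
    have h := Yk_sub (k := 0) hv a
    rw [Yk_zero, Submodule.mem_bot, sub_eq_zero] at h
    exact h
  · intro h a ha
    rw [pow_one, RingHom.mem_ker] at ha
    rw [h, ha, zero_smul]

theorem mem_AltS {ξ : V ⊗[F] V} : ξ ∈ AltS F V ↔ ∃ ζ, ζ - TensorProduct.comm F V V ζ = ξ := Iff.rfl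

theorem tmul_mem_TT2 {N : Submodule F V} {N' : Submodule F V'} {v : V} {w : V'} (hv : v ∈ N) (hw : w ∈ N') :
    v ⊗ₜ[F] w ∈ TT2 N N' := Submodule.subset_span ⟨v, hv, w, hw, rfl⟩

theorem TT2_mono {N M : Submodule F V} {N' M' : Submodule F V'} (h : N ≤ M) (h' : N' ≤ M') : TT2 N N' ≤ TT2 M M' := by
  rw [TT2, Submodule.span_le]
  rintro _ ⟨v, hv, w, hw, rfl⟩
  exact tmul_mem_TT2 (h hv) (h' hw)

end

end EL
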