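import Pool.Agent.Lib.MP_a5a771_alT.KS

/-!
# Expansion inside the generalised weight spaces

PROOF. For `f ∈ A` let `q f = lft f - rgt (T f)` (operators on `M`, they commute with each other and with all `lft a`, `rgt a`). `q r = 0` for scalars, `q (f + f') = q f + q f'`,
`q (f f') = lft f ∘ q f' + rgt (T f') ∘ q f`. For `x ∈ W`: `q x (j u) = j (act x u - χ x • u)`; for `x ∈ W'`: `q x (j' u) = j' (act x u - χ x • u)`.
(1) For `u ∈ Yk act χ k` and `f₁, …, f_k ∈ A`: `q f₁ … q f_k (j u) = 0`. Induction on `k` (`k = 0`: `Yk_zero`). `k + 1`: by `Algebra.adjoin_induction` for `f = f_{k+1}` (`hW`), `q f (j u)` lies in the span of the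
`lft a (rgt b (j u'))` with `u' ∈ Yk act χ k` (for `x ∈ W`: `Yk_sub`; products: the formula above), and `q f₁ … q f_k` commutes with `lft a`, `rgt b` and kills `j u'` by induction.
(2) Let `η ∈ A ⊗ V` with `rj rgt j' η = j v`, and write `η = ∑ a i ⊗ x i` with `a i` linearly independent (members of a basis of `A`: `TensorProduct.eq_repr_basis_left`). For `x₁, …, x_k ∈ W'`:
`0 = q x₁ … q x_k (j v) = rj rgt j' (∑ a i ⊗ P (x i))` with `P = ∏ (act x_l - χ x_l)`, so `∑ a i ⊗ P (x i) = 0` and `P (x i) = 0` for every `i`. So `x i ∈ Yk act χ k` by `Yk_iff` (`hW'`).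
`j v = rj rgt j' η = ∑ rgt (a i) (j' (x i))`. (Reindex the finite sum by `Fin n`: `Finset.equivFin`, or state (2) by induction / `Finset.sum_attach`.)
-/

set_option autoImplicit false

namespace EL

open scoped TensorProduct

section

variable {F A M V : Type*} [Field F] [CommRing A] [Algebra F A] [AddCommGroup M] [Module F M] [AddCommGroup V] [Module F V]

private def EY_q (lft rgt : A →ₐ[F] Module.End F M) (T : A →ₐ[F] A) (f : A) : Module.End F M := lft f - rgt (T f)

private theorem EY_comm_map (f : A →ₐ[F] Module.End F M) (a b : A) : Commute (f a) (f b) := by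
  show f a * f b = f b * f a
  rw [← map_mul, ← map_mul, mul_comm]

private theorem EY_q_lft {lft rgt : A →ₐ[F] Module.End F M} (hcm : ∀ a c, Commute (rgt a) (lft c)) (T : A →ₐ[F] A) (f a : A) :
    Commute (EY_q lft rgt T f) (lft a) :=
  (EY_comm_map lft f a).sub_left (hcm (T f) a)

private theorem EY_q_rgt {lft rgt : A →ₐ[F] Module.End F M} (hcm : ∀ a c, Commute (rgt a) (lft c)) (T : A →ₐ[F] A) (f a : A) :
    Commute (EY_q lft rgt T f) (rgt a) :=
  (hcm a f).symm.sub_left (EY_comm_map rgt (T f) a)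

private theorem EY_q_q {lft rgt : A →ₐ[F] Module.End F M} (hcm : ∀ a c, Commute (rgt a) (lft c)) (T : A →ₐ[F] A) (f g : A) :
    Commute (EY_q lft rgt T f) (EY_q lft rgt T g) :=
  (EY_q_lft hcm T f g).sub_right (EY_q_rgt hcm T f (T g))

private theorem EY_q_x {lft rgt : A →ₐ[F] Module.End F M} {act : A →ₐ[F] Module.End F V} {j : V →ₗ[F] M} {W : Set A}
    (hx : ∀ x ∈ W, ∀ v, lft x (j v) = rgt x (j v) + j (act x v)) {χ : A →ₐ[F] F} {T : A →ₐ[F] A}
    (hT : ∀ x ∈ W, T x = x + algebraMap F A (χ x)) {x : A} (h : x ∈ W) (u : V) :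
    EY_q lft rgt T x (j u) = j (act x u - χ x • u) := by
  show lft x (j u) - rgt (T x) (j u) = _
  rw [hx x h, hT x h, map_add rgt, AlgHom.commutes, LinearMap.add_apply, Module.algebraMap_end_apply, map_sub, map_smul]
  abel

/-- the span of the `lft a (rgt b (j u))`, `u ∈ Y` -/
private def EY_S (lft rgt : A →ₐ[F] Module.End F M) (j : V →ₗ[F] M) (Y : Submodule F V) : Submodule F M :=
  Submodule.span F {z | ∃ (a b : A) (u : V), u ∈ Y ∧ z = lft a (rgt b (j u))}

private theorem EY_S_lft {lft rgt : A →ₐ[F] Module.End F M} {j : V →ₗ[F] M} {Y : Submodule F V} (c : A) {z : M}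
    (hz : z ∈ EY_S lft rgt j Y) : lft c z ∈ EY_S lft rgt j Y := by
  unfold EY_S at hz
  induction hz using Submodule.span_induction with
  | mem z hz =>
    obtain ⟨a, b, u, hu, rfl⟩ := hz
    refine Submodule.subset_span ⟨c * a, b, u, hu, ?_⟩
    rw [map_mul, Module.End.mul_apply]
  | zero =>
    rw [map_zero]
    exact Submodule.zero_mem _
  | add y z _ _ hy hz =>
    rw [map_add]
    exact Submodule.add_mem _ hy hz
  | smul r z _ hz =>
    rw [map_smul]
    exact Submodule.smul_mem _ _ hz

private theorem EY_S_rgt {lft rgt : A →ₐ[F] Module.End F M} (hcm : ∀ a c, Commute (rgt a) (lft c)) {j : V →ₗ[F] M}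
    {Y : Submodule F V} (c : A) {z : M} (hz : z ∈ EY_S lft rgt j Y) : rgt c z ∈ EY_S lft rgt j Y := by
  unfold EY_S at hz
  induction hz using Submodule.span_induction with
  | mem z hz =>
    obtain ⟨a, b, u, hu, rfl⟩ := hz
    refine Submodule.subset_span ⟨a, c * b, u, hu, ?_⟩
    rw [map_mul, Module.End.mul_apply, ← Module.End.mul_apply, (hcm c a).eq, Module.End.mul_apply]
  | zero =>
    rw [map_zero]
    exact Submodule.zero_mem _
  | add y z _ _ hy hz =>
    rw [map_add]
    exact Submodule.add_mem _ hy hz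
  | smul r z _ hz =>
    rw [map_smul]
    exact Submodule.smul_mem _ _ hz

private theorem EY_q_mem {lft rgt : A →ₐ[F] Module.End F M} (hcm : ∀ a c, Commute (rgt a) (lft c))
    {act : A →ₐ[F] Module.End F V} {j : V →ₗ[F] M} {W : Set A} (hW : Algebra.adjoin F W = ⊤)
    (hx : ∀ x ∈ W, ∀ v, lft x (j v) = rgt x (j v) + j (act x v)) {χ : A →ₐ[F] F} {T : A →ₐ[F] A}
    (hT : ∀ x ∈ W, T x = x + algebraMap F A (χ x)) {k : ℕ} {u : V} (hu : u ∈ Yk act χ (k + 1)) (f : A) :
    EY_q lft rgt T f (j u) ∈ EY_S lft rgt j (Yk act χ k) := by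
  have hf : f ∈ Algebra.adjoin F W := by
    rw [hW]
    exact Algebra.mem_top
  induction hf using Algebra.adjoin_induction with
  | mem x h =>
    rw [EY_q_x hx hT h]
    refine Submodule.subset_span ⟨1, 1, _, Yk_sub hu x, ?_⟩
    rw [map_one, map_one, Module.End.one_apply, Module.End.one_apply]
  | algebraMap r =>
    have h1 : EY_q lft rgt T (algebraMap F A r) (j u) = 0 := by
      show lft (algebraMap F A r) (j u) - rgt (T (algebraMap F A r)) (j u) = 0
      rw [AlgHom.commutes, AlgHom.commutes, AlgHom.commutes, sub_self]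
    rw [h1]
    exact Submodule.zero_mem _
  | add f g _ _ hf hg =>
    have h1 : EY_q lft rgt T (f + g) (j u) = EY_q lft rgt T f (j u) + EY_q lft rgt T g (j u) := by
      show lft (f + g) (j u) - rgt (T (f + g)) (j u) =
        (lft f (j u) - rgt (T f) (j u)) + (lft g (j u) - rgt (T g) (j u))
      rw [map_add, map_add, map_add, LinearMap.add_apply, LinearMap.add_apply]
      abel
    rw [h1]
    exact Submodule.add_mem _ hf hg
  | mul f g _ _ hf hg =>
    have h1 : EY_q lft rgt T (f * g) (j u) = lft f (EY_q lft rgt T g (j u)) + rgt (T g) (EY_q lft rgt T f (j u)) := by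
      show lft (f * g) (j u) - rgt (T (f * g)) (j u) =
        lft f (lft g (j u) - rgt (T g) (j u)) + rgt (T g) (lft f (j u) - rgt (T f) (j u))
      have h2 : lft f (rgt (T g) (j u)) = rgt (T g) (lft f (j u)) := by
        rw [← Module.End.mul_apply, ← Module.End.mul_apply, (hcm (T g) f).eq]
      rw [map_mul, map_mul, mul_comm (T f), map_mul, Module.End.mul_apply, Module.End.mul_apply, map_sub, map_sub, h2]
      abel
    rw [h1]
    exact Submodule.add_mem _ (EY_S_lft f hg) (EY_S_rgt hcm (T g) hf)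

private theorem EY_prod_comm {lft rgt : A →ₐ[F] Module.End F M} {T : A →ₐ[F] A} {g : Module.End F M}
    (h : ∀ f, Commute (EY_q lft rgt T f) g) (l : List A) : Commute (l.map (EY_q lft rgt T)).prod g := by
  induction l with
  | nil =>
    rw [List.map_nil, List.prod_nil]
    exact Commute.one_left g
  | cons f l ih =>
    rw [List.map_cons, List.prod_cons]
    exact (h f).mul_left ih

/-- (1) -/
private theorem EY_kill {lft rgt : A →ₐ[F] Module.End F M} (hcm : ∀ a c, Commute (rgt a) (lft c))
    {act : A →ₐ[F] Module.End F V} {j : V →ₗ[F] M} {W : Set A} (hW : Algebra.adjoin F W = ⊤)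
    (hx : ∀ x ∈ W, ∀ v, lft x (j v) = rgt x (j v) + j (act x v)) {χ : A →ₐ[F] F} {T : A →ₐ[F] A}
    (hT : ∀ x ∈ W, T x = x + algebraMap F A (χ x)) (k : ℕ) :
    ∀ u ∈ Yk act χ k, ∀ l : List A, l.length = k → (l.map (EY_q lft rgt T)).prod (j u) = 0 := by
  induction k with
  | zero =>
    intro u hu l _
    rw [Yk_zero, Submodule.mem_bot] at hu
    rw [hu, map_zero, map_zero]
  | succ k ih =>
    intro u hu l hl
    cases l with
    | nil => exact absurd hl (by simp)
    | cons f l =>
      have hl' : l.length = k := by simpa using hl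
      rw [List.map_cons, List.prod_cons,
        ← (EY_prod_comm (lft := lft) (rgt := rgt) (T := T) (fun g => EY_q_q hcm T g f) l).eq, Module.End.mul_apply]
      suffices h1 : ∀ z ∈ EY_S lft rgt j (Yk act χ k), (l.map (EY_q lft rgt T)).prod z = 0 from
        h1 _ (EY_q_mem hcm hW hx hT hu f)
      intro z hz
      unfold EY_S at hz
      induction hz using Submodule.span_induction with
      | mem z hz =>
        obtain ⟨a, b, u', hu', rfl⟩ := hz
        rw [← Module.End.mul_apply, (EY_prod_comm (fun g => EY_q_lft hcm T g a) l).eq, Module.End.mul_apply,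
          ← Module.End.mul_apply _ (rgt b), (EY_prod_comm (fun g => EY_q_rgt hcm T g b) l).eq, Module.End.mul_apply,
          ih u' hu' l hl', map_zero, map_zero]
      | zero => rw [map_zero]
      | add y z _ _ hy hz => rw [map_add, hy, hz, add_zero]
      | smul r z _ hz => rw [map_smul, hz, smul_zero]

private theorem EY_rj_tmul (rgt : A →ₐ[F] Module.End F M) (j : V →ₗ[F] M) (a : A) (v : V) :
    rj rgt j (a ⊗ₜ v) = rgt a (j v) := rfl

private theorem EY_prod_rj {lft rgt : A →ₐ[F] Module.End F M} (hcm : ∀ a c, Commute (rgt a) (lft c))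
    {act : A →ₐ[F] Module.End F V} {j : V →ₗ[F] M} {W : Set A}
    (hx : ∀ x ∈ W, ∀ v, lft x (j v) = rgt x (j v) + j (act x v)) {χ : A →ₐ[F] F} {T : A →ₐ[F] A}
    (hT : ∀ x ∈ W, T x = x + algebraMap F A (χ x)) (l : List A) (hl : ∀ x ∈ l, x ∈ W) (η : A ⊗[F] V) :
    (l.map (EY_q lft rgt T)).prod (rj rgt j η) =
      rj rgt j (LinearMap.lTensor A (l.map fun x => act x - algebraMap F (Module.End F V) (χ x)).prod η) := by
  induction l with
  | nil =>
    rw [List.map_nil, List.map_nil, List.prod_nil, List.prod_nil, Module.End.one_apply]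
    have h1 : LinearMap.lTensor A (1 : Module.End F V) = LinearMap.id := LinearMap.lTensor_id A V
    rw [h1, LinearMap.id_apply]
  | cons x l ih =>
    have hxW : x ∈ W := hl x (List.mem_cons_self)
    rw [List.map_cons, List.map_cons, List.prod_cons, List.prod_cons, Module.End.mul_apply,
      ih (fun y hy => hl y (List.mem_cons_of_mem x hy))]
    have h1 : ∀ ζ : A ⊗[F] V, EY_q lft rgt T x (rj rgt j ζ) =
        rj rgt j (LinearMap.lTensor A (act x - algebraMap F (Module.End F V) (χ x)) ζ) := by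
      intro ζ
      induction ζ using TensorProduct.induction_on with
      | zero => rw [map_zero, map_zero, map_zero, map_zero]
      | tmul a v =>
        rw [LinearMap.lTensor_tmul, EY_rj_tmul, EY_rj_tmul, ← Module.End.mul_apply, (EY_q_rgt hcm T x a).eq,
          Module.End.mul_apply, EY_q_x hx hT hxW, LinearMap.sub_apply, Module.algebraMap_end_apply]
      | add y z hy hz => rw [map_add, map_add, map_add, map_add, hy, hz]
    have h2 : ∀ P Q : Module.End F V, LinearMap.lTensor A (P * Q) η = LinearMap.lTensor A P (LinearMap.lTensor A Q η) := by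
      intro P Q
      exact LinearMap.congr_fun (LinearMap.lTensor_comp A P Q) η
    rw [h1, h2]

end

theorem exp_Y {F A M V : Type*} [Field F] [CommRing A] [Algebra F A]
    [AddCommGroup M] [Module F M] [AddCommGroup V] [Module F V] (lft rgt : A →ₐ[F] Module.End F M)
    (hcm : ∀ a c, Commute (rgt a) (lft c)) (act : A →ₐ[F] Module.End F V) (j j' : V →ₗ[F] M) (W W' : Set A)
    (hW : Algebra.adjoin F W = ⊤) (hW' : Algebra.adjoin F W' = ⊤) (hb' : Function.Bijective (rj rgt j'))
    (hx : ∀ x ∈ W, ∀ v, lft x (j v) = rgt x (j v) + j (act x v))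
    (hx' : ∀ x ∈ W', ∀ v, lft x (j' v) = rgt x (j' v) + j' (act x v)) (χ : A →ₐ[F] F) (T : A →ₐ[F] A)
    (hT : ∀ x ∈ W, T x = x + algebraMap F A (χ x)) (hT' : ∀ x ∈ W', T x = x + algebraMap F A (χ x))
    (k : ℕ) (v : V) (hv : v ∈ Yk act χ k) :
    ∃ (n : ℕ) (a : Fin n → A) (x : Fin n → V), (∀ i, x i ∈ Yk act χ k) ∧ j v = ∑ i, rgt (a i) (j' (x i)) := by
  obtain ⟨η, hη⟩ := hb'.2 (j v)
  obtain ⟨c, hc⟩ := TensorProduct.eq_repr_basis_left (Module.Basis.ofVectorSpace F A) η
  have hY : ∀ i, c i ∈ Yk act χ k := by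
    intro i
    rw [Yk_iff act W' hW' χ k]
    intro l hl hlW
    have h1 := EY_kill hcm hW hx hT k v hv l hl
    rw [← hη, EY_prod_rj hcm hx' hT' l hlW] at h1
    have h2 := hb'.1 (h1.trans (map_zero (rj rgt j')).symm)
    rw [← hc] at h2
    have h3 : (Finsupp.mapRange.linearMap (l.map fun x => act x - algebraMap F (Module.End F V) (χ x)).prod c).sum
        (fun i m => (Module.Basis.ofVectorSpace F A) i ⊗ₜ[F] m) = 0 := by
      rw [← h2, Finsupp.mapRange.linearMap_apply, Finsupp.sum_mapRange_index (fun i => TensorProduct.tmul_zero _ _),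
        Finsupp.sum, Finsupp.sum, map_sum]
      rfl
    have h4 := TensorProduct.sum_tmul_basis_left_eq_zero (Module.Basis.ofVectorSpace F A) _ h3
    have h5 := DFunLike.congr_fun h4 i
    rwa [Finsupp.mapRange.linearMap_apply, Finsupp.mapRange_apply] at h5
  refine ⟨c.support.card, fun i => (Module.Basis.ofVectorSpace F A) (c.support.equivFin.symm i),
    fun i => c (c.support.equivFin.symm i), fun i => hY _, ?_⟩
  rw [← hη, ← hc, Finsupp.sum, map_sum, ← Finset.sum_coe_sort c.support,
    ← Equiv.sum_comp c.support.equivFin.symm]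
  rfl

end EL
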