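import Pool.Agent.Lib.MP_a5a771_alT.MC

/-!
# The theorem over all fields
-/

set_option autoImplicit false

namespace EL

open scoped TensorProduct

theorem metab_all {F L H : Type*} [Field F] [LieRing L] [LieAlgebra F L] [LieRing H] [LieAlgebra F H]
    (e : UniversalEnvelopingAlgebra F L ≃ₐ[F] UniversalEnvelopingAlgebra F H) (hm : D2 F L = ⊥) : D2 F H = ⊥ := by
  by_cases h2 : (2 : F) = 0
  · obtain ⟨eK⟩ := base_change (K := AlgebraicClosure F) e
    obtain ⟨iL, iH, ε, hL, hH⟩ := exists_common eK
    have h2K : (2 : AlgebraicClosure F) = 0 := by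
      have h := congrArg (algebraMap F (AlgebraicClosure F)) h2
      rwa [map_ofNat, map_zero] at h
    have hmK : D2 (AlgebraicClosure F) (AlgebraicClosure F ⊗[F] L) = ⊥ := by
      show LieAlgebra.derivedSeries (AlgebraicClosure F) (AlgebraicClosure F ⊗[F] L) 2 = ⊥
      have hm' : LieAlgebra.derivedSeries F L 2 = ⊥ := hm
      rw [LieAlgebra.derivedSeries_baseChange, hm', LieSubmodule.baseChange_bot]
    have hHK := main_closed_two h2K hL hH hmK
    have hHK' : LieAlgebra.derivedSeries (AlgebraicClosure F) (AlgebraicClosure F ⊗[F] H) 2 = ⊥ := hHK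
    rw [LieAlgebra.derivedSeries_baseChange, eq_bot_iff] at hHK'
    rw [eq_bot_iff]
    intro x hx
    have h1 := hHK' (LieSubmodule.tmul_mem_baseChange_of_mem (A := AlgebraicClosure F) 1 hx)
    rw [LieSubmodule.mem_bot] at h1 ⊢
    rwa [Module.FaithfullyFlat.one_tmul_eq_zero_iff] at h1
  · exact metab h2 e hm

/-- one direction for all `k ≤ 2` -/
theorem low_dir_all {F L H : Type*} [Field F] [LieRing L] [LieAlgebra F L] [LieRing H] [LieAlgebra F H]
    (e : UniversalEnvelopingAlgebra F L ≃ₐ[F] UniversalEnvelopingAlgebra F H) (k : ℕ) (hk : k ≤ 2)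
    (hm : LieAlgebra.derivedSeries F L k = ⊥) : LieAlgebra.derivedSeries F H k = ⊥ := by
  interval_cases k
  · exact low_zero e hm
  · exact low_one e hm
  · exact metab_all e hm

end EL
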