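import Mathlib

/-!
# Two flips in characteristic two: they agree up to torsion

PROOF. Characteristic `2`: signs do not matter. `a = 1 + t₁`, `b = 1 + t₂` (operators on `E`), `a² = b² = 0` and `b a = 0` (`hba`). Let `R` be the (commutative) algebra of operators generated by
all `lam c`, `mu c`; conjugation by `t₁` and by `t₂` maps `R` to itself (`s₁, c₁` and `hW₁`; `s₂, c₂` and `hW₂`; induction over the generation). Fix `x, x' ∈ W₁`, `y ∈ W₂` and put
`s = lam x`, `z = mu x`, `s' = lam x'`, `z₁ = mu x'`, `t = lam y`, `z' = mu y`, `u = t₂ z t₂ ∈ R`, `κ = z + u ∈ R`, `u' = t₁ z' t₁ ∈ R`, `κ' = z' + u' ∈ R`. `s, s', t` commute with everything.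
(1) `a z = z + t₁ z = z + (s + z) t₁ = s + (s + z) a`; `b z = z + u t₂ = κ + u b`. So `0 = b a z = s b + b z a` (`b s a = s b a = 0`) and `b z a = κ a + u b a = κ a`: `κ a = s b`.
(2) Multiply by `z'` on the right: `a z' = κ' + u' a`, `b z' = t + (t + z') b`. So `κ κ' + κ u' a = s t + (t + z') s b = s t + (t + z') κ a`, that is
`κ κ' + s t = (t + κ') κ a`.
(3) The left side is in `R`, so it commutes with `z₁ ∈ R`: `(t + κ') κ (a z₁ + z₁ a) = 0`, and `a z₁ + z₁ a = s' + s' a = s' t₁` (as in (1)). Multiply by `t₁` on the right: `(t + κ') κ s' = 0`.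
(4) Multiply (2) by `s'`: `s' (κ κ' + s t) = 0` by (3), and (3) says `s' κ κ' = s' κ t`; so `s' t (s + κ) = 0`.
(5) `t₁ - t₂ = a + b` and `s' t s (a + b) = s' t (s a + κ a) = s' t (s + κ) a = 0`.
-/

set_option autoImplicit false

namespace EL

private theorem FL_comm {F E : Type*} [Field F] [AddCommGroup E] [Module F E] (S : Set (Module.End F E))
    (hS : ∀ p ∈ S, ∀ q ∈ S, p * q = q * p) :
    ∀ p ∈ Algebra.adjoin F S, ∀ q ∈ Algebra.adjoin F S, p * q = q * p := by
  have h1 : ∀ p ∈ Algebra.adjoin F S, ∀ q ∈ S, p * q = q * p := by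
    intro p hp q hq
    induction hp using Algebra.adjoin_induction with
    | mem x hx => exact hS x hx q hq
    | algebraMap r => exact Algebra.commutes r q
    | add x y _ _ hx hy => rw [add_mul, mul_add, hx, hy]
    | mul x y _ _ hx hy => rw [mul_assoc, hy, ← mul_assoc, hx, mul_assoc]
  intro p hp q hq
  induction hq using Algebra.adjoin_induction with
  | mem x hx => exact h1 p hp x hx
  | algebraMap r => exact (Algebra.commutes r p).symm
  | add x y _ _ hx hy => rw [add_mul, mul_add, hx, hy]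
  | mul x y _ _ hx hy => rw [← mul_assoc, hx, mul_assoc, hy, mul_assoc]

private theorem FL_conj {F A E : Type*} [Field F] [CommRing A] [Algebra F A] [AddCommGroup E] [Module F E]
    (lam mu : A →ₐ[F] Module.End F E) (W : Set A) (hW : Algebra.adjoin F W = ⊤) (T : Module.End F E)
    (hT : T * T = 1) (R : Subalgebra F (Module.End F E)) (hl : ∀ c, lam c ∈ R) (hm : ∀ c, mu c ∈ R)
    (hs : ∀ x ∈ W, T * mu x * T = lam x - mu x) : ∀ c, T * mu c * T ∈ R := by
  intro c
  have hc : c ∈ Algebra.adjoin F W := by rw [hW]; trivial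
  induction hc using Algebra.adjoin_induction with
  | mem x hx => rw [hs x hx]; exact R.sub_mem (hl x) (hm x)
  | algebraMap r =>
    have h1 : mu (algebraMap F A r) = algebraMap F (Module.End F E) r := mu.commutes r
    have h2 : T * algebraMap F (Module.End F E) r * T = algebraMap F (Module.End F E) r := by
      rw [← Algebra.commutes r T, mul_assoc, hT, mul_one]
    rw [h1, h2]; exact R.algebraMap_mem r
  | add x y _ _ hx hy =>
    have h1 : T * mu (x + y) * T = T * mu x * T + T * mu y * T := by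
      rw [map_add, mul_add, add_mul]
    rw [h1]; exact R.add_mem hx hy
  | mul x y _ _ hx hy =>
    have h1 : T * mu (x * y) * T = (T * mu x * T) * (T * mu y * T) := by
      rw [map_mul]
      calc T * (mu x * mu y) * T = T * mu x * 1 * mu y * T := by rw [mul_one, ← mul_assoc T]
        _ = T * mu x * (T * T) * mu y * T := by rw [hT]
        _ = _ := by simp only [mul_assoc]
    rw [h1]; exact R.mul_mem hx hy

private theorem FL_core {M : Type*} [Ring M] (h2 : ∀ r : M, r + r = 0) (T₁ T₂ s z s' z₁ t z' u u' : M)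
    (i₁ : T₁ * T₁ = 1)
    (hba : (1 + T₂) * (1 + T₁) = 0)
    (ct : T₂ * s = s * T₂)
    (e1 : T₁ * z = (s + z) * T₁) (e2 : T₂ * z = u * T₂)
    (e3 : T₁ * z' = u' * T₁) (e4 : T₂ * z' = (t + z') * T₂)
    (e5 : T₁ * z₁ = (s' + z₁) * T₁)
    (k1 : s * (t + z') = (t + z') * s) (k2 : (z + u) * u' = u' * (z + u))
    (k3 : z₁ * ((z + u) * (z' + u') + s * t) = ((z + u) * (z' + u') + s * t) * z₁)
    (k4 : z₁ * ((t + (z' + u')) * (z + u)) = ((t + (z' + u')) * (z + u)) * z₁)
    (k5 : (t + (z' + u')) * (z + u) * s' = s' * ((t + (z' + u')) * (z + u)))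
    (k6 : (z' + u') * (z + u) = (z + u) * (z' + u'))
    (k7 : s * t = t * s) (k8 : t * (z + u) = (z + u) * t) (k9 : s' * s = s * s') :
    s * s' * t * (T₁ - T₂) = 0 := by
  have hneg : ∀ p q : M, p + q = 0 → p = q := by
    intro p q h
    have := h2 q
    calc p = p + (q + q) := by rw [this, add_zero]
      _ = (p + q) + q := by rw [add_assoc]
      _ = q := by rw [h, zero_add]
  have A1 : (z + u) * (1 + T₁) = s * (1 + T₂) := by
    apply hneg
    have e : (1 + T₂) * ((1 + T₁) * z) = 0 := by rw [← mul_assoc, hba, zero_mul]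
    have e' : (1 + T₁) * z = s + (s + z) * (1 + T₁) := by
      calc (1 + T₁) * z = z + (s + z) * T₁ := by rw [add_mul, one_mul, e1]
        _ = (s + s) + z + (s + z) * T₁ := by rw [h2, zero_add]
        _ = _ := by noncomm_ring
    have e'' : (1 + T₂) * z = (z + u) + u * (1 + T₂) := by
      calc (1 + T₂) * z = z + u * T₂ := by rw [add_mul, one_mul, e2]
        _ = z + (u + u) + u * T₂ := by rw [h2, add_zero]
        _ = _ := by noncomm_ring
    have cs : (1 + T₂) * s = s * (1 + T₂) := by rw [add_mul, mul_add, one_mul, mul_one, ct]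
    calc (z + u) * (1 + T₁) + s * (1 + T₂)
        = (z + u) * (1 + T₁) + s * (1 + T₂) + u * ((1 + T₂) * (1 + T₁)) + s * ((1 + T₂) * (1 + T₁)) := by
          rw [hba, mul_zero, mul_zero, add_zero, add_zero]
      _ = s * (1 + T₂) + s * (1 + T₂) * (1 + T₁) + ((z + u) + u * (1 + T₂)) * (1 + T₁) := by noncomm_ring
      _ = (1 + T₂) * s + (1 + T₂) * s * (1 + T₁) + (1 + T₂) * z * (1 + T₁) := by rw [← e'', cs]
      _ = (1 + T₂) * (s + (s + z) * (1 + T₁)) := by noncomm_ring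
      _ = 0 := by rw [← e', e]
  have A2 : (z + u) * (z' + u') + s * t = (t + (z' + u')) * (z + u) * (1 + T₁) := by
    apply hneg
    have f1 : (1 + T₁) * z' = (z' + u') + u' * (1 + T₁) := by
      calc (1 + T₁) * z' = z' + u' * T₁ := by rw [add_mul, one_mul, e3]
        _ = z' + (u' + u') + u' * T₁ := by rw [h2, add_zero]
        _ = _ := by noncomm_ring
    have f2 : (1 + T₂) * z' = t + (t + z') * (1 + T₂) := by
      calc (1 + T₂) * z' = z' + (t + z') * T₂ := by rw [add_mul, one_mul, e4]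
        _ = (t + t) + z' + (t + z') * T₂ := by rw [h2, zero_add]
        _ = _ := by noncomm_ring
    have f3 : (z + u) * ((z' + u') + u' * (1 + T₁)) = s * (t + (t + z') * (1 + T₂)) := by
      rw [← f1, ← f2, ← mul_assoc, ← mul_assoc, A1]
    have f4 : s * ((t + z') * (1 + T₂)) = (t + z') * ((z + u) * (1 + T₁)) := by
      rw [← mul_assoc, k1, mul_assoc, A1]
    have f5 : (z + u) * (u' * (1 + T₁)) = u' * ((z + u) * (1 + T₁)) := by
      rw [← mul_assoc, k2, mul_assoc]
    calc (z + u) * (z' + u') + s * t + (t + (z' + u')) * (z + u) * (1 + T₁)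
        = (z + u) * (z' + u') + s * t + (t + z') * ((z + u) * (1 + T₁)) + u' * ((z + u) * (1 + T₁)) := by
          noncomm_ring
      _ = (z + u) * (z' + u') + s * t + s * ((t + z') * (1 + T₂)) + (z + u) * (u' * (1 + T₁)) := by
          rw [f4, f5]
      _ = (z + u) * ((z' + u') + u' * (1 + T₁)) + s * (t + (t + z') * (1 + T₂)) := by
          rw [mul_add (z + u) (z' + u'), mul_add s t]; abel
      _ = 0 := by rw [f3, h2]
  have A3 : (t + (z' + u')) * (z + u) * s' = 0 := by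
    have g1 : (1 + T₁) * z₁ + z₁ * (1 + T₁) = s' * T₁ := by
      calc (1 + T₁) * z₁ + z₁ * (1 + T₁) = z₁ + (s' + z₁) * T₁ + z₁ * (1 + T₁) := by
            rw [add_mul, one_mul, e5]
        _ = (z₁ + z₁) + (z₁ * T₁ + z₁ * T₁) + s' * T₁ := by noncomm_ring
        _ = s' * T₁ := by rw [h2, h2]; simp
    have g2 : (t + (z' + u')) * (z + u) * ((1 + T₁) * z₁ + z₁ * (1 + T₁)) = 0 := by
      have k3' := k3
      rw [A2] at k3'
      calc (t + (z' + u')) * (z + u) * ((1 + T₁) * z₁ + z₁ * (1 + T₁))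
          = (t + (z' + u')) * (z + u) * (1 + T₁) * z₁ + ((t + (z' + u')) * (z + u) * z₁) * (1 + T₁) := by
            rw [mul_add, ← mul_assoc _ (1 + T₁) z₁, ← mul_assoc _ z₁ (1 + T₁)]
        _ = z₁ * ((t + (z' + u')) * (z + u) * (1 + T₁)) + (z₁ * ((t + (z' + u')) * (z + u))) * (1 + T₁) := by
            rw [← k3', ← k4]
        _ = z₁ * ((t + (z' + u')) * (z + u)) * (1 + T₁) + z₁ * ((t + (z' + u')) * (z + u)) * (1 + T₁) := by
            rw [← mul_assoc z₁ _ (1 + T₁)]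
        _ = 0 := h2 _
    rw [g1, ← mul_assoc] at g2
    calc (t + (z' + u')) * (z + u) * s' = (t + (z' + u')) * (z + u) * s' * (T₁ * T₁) := by rw [i₁, mul_one]
      _ = (t + (z' + u')) * (z + u) * s' * T₁ * T₁ := by rw [mul_assoc _ T₁ T₁]
      _ = 0 := by rw [g2, zero_mul]
  have A4 : s' * t * (s + (z + u)) = 0 := by
    have q1 : s' * ((z + u) * (z' + u') + s * t) = 0 := by
      rw [A2, ← mul_assoc, ← k5, A3, zero_mul]
    have q2 : s' * ((z + u) * (z' + u')) = s' * ((z + u) * t) := by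
      apply hneg
      have : s' * ((t + (z' + u')) * (z + u)) = 0 := by rw [← k5, A3]
      rw [add_mul, k6, k8, mul_add] at this
      rw [add_comm]; exact this
    calc s' * t * (s + (z + u)) = s' * (t * (z + u)) + s' * (t * s) := by
          rw [mul_assoc, mul_add, mul_add]; rw [add_comm]
      _ = s' * ((z + u) * t) + s' * (s * t) := by rw [k8, k7]
      _ = s' * ((z + u) * (z' + u')) + s' * (s * t) := by rw [q2]
      _ = 0 := by rw [← mul_add, q1]
  have d1 : T₁ - T₂ = (1 + T₁) + (1 + T₂) := by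
    have : T₁ - T₂ = T₁ + T₂ := by
      rw [sub_eq_add_neg, neg_eq_of_add_eq_zero_left (h2 T₂)]
    rw [this]
    calc T₁ + T₂ = (1 + 1) + (T₁ + T₂) := by rw [h2, zero_add]
      _ = _ := by abel
  have d2 : s * s' * t = s' * t * s := by rw [← k9, mul_assoc, k7, mul_assoc]
  calc s * s' * t * (T₁ - T₂) = s' * t * (s * ((1 + T₁) + (1 + T₂))) := by rw [d1, d2, mul_assoc]
    _ = s' * t * ((s + (z + u)) * (1 + T₁)) := by
        rw [mul_add s, ← A1, ← add_mul]
    _ = 0 := by rw [← mul_assoc, A4, zero_mul]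

theorem flip3 {F A E : Type*} [Field F] (h2 : (2 : F) = 0) [CommRing A] [Algebra F A] [AddCommGroup E] [Module F E]
    (lam mu : A →ₐ[F] Module.End F E) (hc : ∀ a c, Commute (lam a) (mu c)) (W₁ W₂ : Set A)
    (hW₁ : Algebra.adjoin F W₁ = ⊤) (hW₂ : Algebra.adjoin F W₂ = ⊤) (t₁ t₂ : E →ₗ[F] E)
    (i₁ : ∀ e, t₁ (t₁ e) = e) (i₂ : ∀ e, t₂ (t₂ e) = e)
    (c₁ : ∀ a e, t₁ (lam a e) = lam a (t₁ e)) (c₂ : ∀ a e, t₂ (lam a e) = lam a (t₂ e))
    (s₁ : ∀ x ∈ W₁, ∀ e, t₁ (mu x (t₁ e)) = lam x e - mu x e) (s₂ : ∀ y ∈ W₂, ∀ e, t₂ (mu y (t₂ e)) = lam y e - mu y e)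
    (hba : ∀ e, t₂ (e - t₁ e) = e - t₁ e) :
    ∀ x ∈ W₁, ∀ x' ∈ W₁, ∀ y ∈ W₂, ∀ e, lam (x * x' * y) (t₁ e - t₂ e) = 0 := by
  intro x hx x' hx' y hy e
  have hch : ∀ r : Module.End F E, r + r = 0 := by
    intro r
    have : r + r = (2 : F) • r := by rw [two_smul]
    rw [this, h2, zero_smul]
  have hsub : ∀ p q : Module.End F E, p - q = p + q := by
    intro p q
    rw [sub_eq_add_neg, neg_eq_of_add_eq_zero_left (hch q)]
  obtain ⟨T₁, hT₁⟩ : ∃ T : Module.End F E, T = t₁ := ⟨t₁, rfl⟩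
  obtain ⟨T₂, hT₂⟩ : ∃ T : Module.End F E, T = t₂ := ⟨t₂, rfl⟩
  have I₁ : T₁ * T₁ = 1 := by
    apply LinearMap.ext; intro v; rw [hT₁]; exact i₁ v
  have I₂ : T₂ * T₂ = 1 := by
    apply LinearMap.ext; intro v; rw [hT₂]; exact i₂ v
  have C₁ : ∀ a, T₁ * lam a = lam a * T₁ := by
    intro a; apply LinearMap.ext; intro v; rw [hT₁]; exact c₁ a v
  have C₂ : ∀ a, T₂ * lam a = lam a * T₂ := by
    intro a; apply LinearMap.ext; intro v; rw [hT₂]; exact c₂ a v
  have S₁ : ∀ x ∈ W₁, T₁ * mu x * T₁ = lam x - mu x := by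
    intro x hx; apply LinearMap.ext; intro v; rw [hT₁]; exact s₁ x hx v
  have S₂ : ∀ y ∈ W₂, T₂ * mu y * T₂ = lam y - mu y := by
    intro y hy; apply LinearMap.ext; intro v; rw [hT₂]; exact s₂ y hy v
  have HB : (1 + T₂) * (1 + T₁) = 0 := by
    have h0 : T₂ * (1 - T₁) = 1 - T₁ := by
      apply LinearMap.ext; intro v; rw [hT₁, hT₂]; exact hba v
    rw [hsub] at h0
    rw [add_mul, one_mul, h0, hch]
  obtain ⟨R, hR⟩ : ∃ R : Subalgebra F (Module.End F E),
      R = Algebra.adjoin F (Set.range lam ∪ Set.range mu) := ⟨_, rfl⟩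
  have hl : ∀ c, lam c ∈ R := by
    intro c; rw [hR]; exact Algebra.subset_adjoin (Or.inl ⟨c, rfl⟩)
  have hm : ∀ c, mu c ∈ R := by
    intro c; rw [hR]; exact Algebra.subset_adjoin (Or.inr ⟨c, rfl⟩)
  have hcomm : ∀ p ∈ R, ∀ q ∈ R, p * q = q * p := by
    rw [hR]
    apply FL_comm
    rintro p (⟨a, rfl⟩ | ⟨a, rfl⟩) q (⟨c, rfl⟩ | ⟨c, rfl⟩)
    · rw [← map_mul, mul_comm, map_mul]
    · exact hc a c
    · exact (hc c a).symm
    · rw [← map_mul, mul_comm, map_mul]
  have R1 := FL_conj lam mu W₁ hW₁ T₁ I₁ R hl hm S₁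
  have R2 := FL_conj lam mu W₂ hW₂ T₂ I₂ R hl hm S₂
  have conj : ∀ (T m w : Module.End F E), T * T = 1 → T * m * T = w → T * m = w * T := by
    intro T m w hT h
    rw [← h, mul_assoc _ T T, hT, mul_one]
  have hu : T₂ * mu x * T₂ ∈ R := R2 x
  have hu' : T₁ * mu y * T₁ ∈ R := R1 y
  have key := FL_core hch T₁ T₂ (lam x) (mu x) (lam x') (mu x') (lam y) (mu y) (T₂ * mu x * T₂)
    (T₁ * mu y * T₁) I₁ HB (C₂ x)
    (conj _ _ _ I₁ (by rw [S₁ x hx, hsub])) (conj _ _ _ I₂ rfl)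
    (conj _ _ _ I₁ rfl) (conj _ _ _ I₂ (by rw [S₂ y hy, hsub]))
    (conj _ _ _ I₁ (by rw [S₁ x' hx', hsub]))
    (hcomm _ (hl _) _ (R.add_mem (hl _) (hm _)))
    (hcomm _ (R.add_mem (hm _) hu) _ hu')
    (hcomm _ (hm _) _ (R.add_mem (R.mul_mem (R.add_mem (hm _) hu) (R.add_mem (hm _) hu')) (R.mul_mem (hl _) (hl _))))
    (hcomm _ (hm _) _ (R.mul_mem (R.add_mem (hl _) (R.add_mem (hm _) hu')) (R.add_mem (hm _) hu)))
    (hcomm _ (R.mul_mem (R.add_mem (hl _) (R.add_mem (hm _) hu')) (R.add_mem (hm _) hu)) _ (hl _))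
    (hcomm _ (R.add_mem (hm _) hu') _ (R.add_mem (hm _) hu))
    (hcomm _ (hl _) _ (hl _))
    (hcomm _ (hl _) _ (R.add_mem (hm _) hu))
    (hcomm _ (hl _) _ (hl _))
  have fin := LinearMap.congr_fun key e
  rw [map_mul, map_mul, ← hT₁, ← hT₂]
  exact fin


end EL
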