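import Pool.Agent.Lib.MP_a5a771_alT.Defs

/-!
# The vectors killed by the powers of a maximal ideal, by generators

PROOF. The ideal `ker χ` is generated by the `x - χ x`, `x ∈ W`: let `J` be the ideal generated by them; the set of the `a` with `a - algebraMap (χ a) ∈ J` is a subalgebra which contains
`W`, so it is everything (`hW`, `Algebra.adjoin_induction`), and `χ a = 0` gives `a ∈ J`. Hence `(ker χ) ^ k` is generated as an ideal by the products of `k` of these elements
(`Ideal.span_pow_eq_span_...` or induction on `k` with `Submodule.span_mul_span` / `Submodule.mul_induction_on`). Direction `→`: the product of the list `x - algebraMap (χ x)` is in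
`(ker χ) ^ k`, and `act` of it is the product of the operators (`map_list_prod`). Direction `←`: induction on `k`, generalising `v`: `k = 0`: the empty list gives `v = 0`. `k + 1`: for
`x ∈ W` the vector `(act x - χ x) v` satisfies the condition for `k` (append `x` at the end of the list), so it is killed by `(ker χ) ^ k`; an element of `(ker χ) ^ (k + 1)` is a sum of
products `b * (x - χ x) * c` with `b ∈ (ker χ) ^ k`.
-/

set_option autoImplicit false

namespace EL

private theorem KS_sub_mem {F A : Type*} [Field F] [CommRing A] [Algebra F A] (W : Set A)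
    (hW : Algebra.adjoin F W = ⊤) (χ : A →ₐ[F] F) (a : A) :
    a - algebraMap F A (χ a) ∈ Ideal.span {a | ∃ x ∈ W, a = x - algebraMap F A (χ x)} := by
  have ha : a ∈ Algebra.adjoin F W := by rw [hW]; exact Algebra.mem_top
  induction ha using Algebra.adjoin_induction with
  | mem x hx => exact Ideal.subset_span ⟨x, hx, rfl⟩
  | algebraMap r =>
    rw [AlgHom.commutes, Algebra.algebraMap_self_apply, sub_self]
    exact Ideal.zero_mem _
  | add x y _ _ h1 h2 =>
    have h3 : x + y - algebraMap F A (χ (x + y)) = (x - algebraMap F A (χ x)) + (y - algebraMap F A (χ y)) := by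
      rw [map_add, map_add]; ring
    rw [h3]
    exact Ideal.add_mem _ h1 h2
  | mul x y _ _ h1 h2 =>
    have h3 : x * y - algebraMap F A (χ (x * y))
        = x * (y - algebraMap F A (χ y)) + algebraMap F A (χ y) * (x - algebraMap F A (χ x)) := by
      rw [map_mul, map_mul]; ring
    rw [h3]
    exact Ideal.add_mem _ (Ideal.mul_mem_left _ _ h2) (Ideal.mul_mem_left _ _ h1)

private theorem KS_ker {F A : Type*} [Field F] [CommRing A] [Algebra F A] (W : Set A)
    (hW : Algebra.adjoin F W = ⊤) (χ : A →ₐ[F] F) :
    RingHom.ker χ = Ideal.span {a | ∃ x ∈ W, a = x - algebraMap F A (χ x)} := by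
  apply le_antisymm
  · intro a ha
    rw [RingHom.mem_ker] at ha
    have h1 := KS_sub_mem W hW χ a
    rw [ha, map_zero, sub_zero] at h1
    exact h1
  · rw [Ideal.span_le]
    rintro _ ⟨x, _, rfl⟩
    rw [SetLike.mem_coe, RingHom.mem_ker, map_sub, AlgHom.commutes, Algebra.algebraMap_self_apply, sub_self]

private theorem KS_prod {F A V : Type*} [Field F] [CommRing A] [Algebra F A] [AddCommGroup V] [Module F V]
    (act : A →ₐ[F] Module.End F V) (χ : A →ₐ[F] F) (l : List A) :
    (l.map fun x => x - algebraMap F A (χ x)).prod ∈ (RingHom.ker χ) ^ l.length ∧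
      act (l.map fun x => x - algebraMap F A (χ x)).prod
        = (l.map fun x => act x - algebraMap F (Module.End F V) (χ x)).prod := by
  induction l with
  | nil =>
    refine ⟨?_, ?_⟩
    · rw [List.map_nil, List.prod_nil, List.length_nil, pow_zero, Ideal.one_eq_top]
      exact Submodule.mem_top
    · rw [List.map_nil, List.prod_nil, List.map_nil, List.prod_nil, map_one]
  | cons x l ih =>
    refine ⟨?_, ?_⟩
    · rw [List.map_cons, List.prod_cons, List.length_cons, pow_succ']
      refine Ideal.mul_mem_mul ?_ ih.1
      rw [RingHom.mem_ker, map_sub, AlgHom.commutes, Algebra.algebraMap_self_apply, sub_self]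
    · rw [List.map_cons, List.prod_cons, List.map_cons, List.prod_cons, map_mul, ih.2, map_sub, AlgHom.commutes]

theorem Yk_iff {F A V : Type*} [Field F] [CommRing A] [Algebra F A] [AddCommGroup V] [Module F V]
    (act : A →ₐ[F] Module.End F V) (W : Set A) (hW : Algebra.adjoin F W = ⊤) (χ : A →ₐ[F] F) (k : ℕ) (v : V) :
    v ∈ Yk act χ k ↔ ∀ l : List A, l.length = k → (∀ x ∈ l, x ∈ W) →
      (l.map fun x => act x - algebraMap F (Module.End F V) (χ x)).prod v = 0 := by
  constructor
  · intro hv l hl _
    have h1 := KS_prod act χ l
    rw [← h1.2]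
    apply hv
    rw [← hl]
    exact h1.1
  · intro h
    induction k generalizing v with
    | zero =>
      have h1 := h [] rfl (fun x hx => absurd hx List.not_mem_nil)
      rw [List.map_nil, List.prod_nil, Module.End.one_apply] at h1
      rw [h1]
      exact Submodule.zero_mem _
    | succ k ih =>
      have hx : ∀ x ∈ W, act x v - χ x • v ∈ Yk act χ k := by
        intro x hx
        apply ih
        intro l hl hlW
        have h1 := h (l ++ [x]) (by rw [List.length_append, hl]; rfl) (by
          intro y hy
          rcases List.mem_append.mp hy with h2 | h2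
          · exact hlW y h2
          · rw [List.mem_singleton.mp h2]; exact hx)
        rw [List.map_append, List.prod_append, List.map_cons, List.map_nil, List.prod_singleton,
          Module.End.mul_apply, LinearMap.sub_apply, Module.algebraMap_end_apply] at h1
        exact h1
      have hb : ∀ b ∈ (RingHom.ker χ) ^ k, ∀ c ∈ RingHom.ker χ, act (b * c) v = 0 := by
        intro b hb c hc
        rw [KS_ker W hW χ] at hc
        induction hc using Submodule.span_induction with
        | mem c hc =>
          obtain ⟨x, hxW, rfl⟩ := hc
          rw [map_mul, Module.End.mul_apply, map_sub, AlgHom.commutes, LinearMap.sub_apply,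
            Module.algebraMap_end_apply]
          exact hx x hxW b hb
        | zero => rw [mul_zero, map_zero, LinearMap.zero_apply]
        | add c d _ _ h1 h2 => rw [mul_add, map_add, LinearMap.add_apply, h1, h2, add_zero]
        | smul a c _ h1 =>
          have h2 : b * a • c = a * (b * c) := by rw [smul_eq_mul]; ring
          rw [h2, map_mul, Module.End.mul_apply, h1, map_zero]
      intro a ha
      rw [pow_succ] at ha
      induction ha using Submodule.mul_induction_on' with
      | mem_mul_mem b hb1 c hc1 => exact hb b hb1 c hc1
      | add x _ y _ h1 h2 => rw [map_add, LinearMap.add_apply, h1, h2, add_zero]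

/-- the kernel of `χ` is generated by the `x - χ x` -/
theorem ker_gen {F A : Type*} [Field F] [CommRing A] [Algebra F A] (W : Set A) (hW : Algebra.adjoin F W = ⊤) (χ : A →ₐ[F] F) :
    RingHom.ker χ = Ideal.span {a | ∃ x ∈ W, a = x - algebraMap F A (χ x)} := KS_ker W hW χ

end EL
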