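import Pool.Agent.Lib.MP_a5a771_alT.Defs

/-!
# The translation automorphism

PROOF. Fix `0 ≠ v ∈ Yk act χ 1`. `rgt a (j v) = 0` implies `a = 0` (`rj rgt j (a ⊗ v) = rgt a (j v)`, injective; `a ⊗ v = 0` with `v ≠ 0` gives `a = 0`, over a field). For every `f ∈ A` there is `g ∈ A` with
`lft f (j v) = rgt g (j v)`: for `x ∈ W`: `lft x (j v) = rgt x (j v) + j (act x v) = rgt (x + χ x) (j v)` (`Yk_one`), then `Algebra.adjoin_induction` (scalars, sums, products: `lft (f f') (j v) =
lft f (rgt g' (j v)) = rgt g' (rgt g (j v)) = rgt (g g') (j v)`). `g =: T f` is unique, so `T` is an algebra homomorphism; `T x = x + χ x` for `x ∈ W`, and for `x ∈ W'` by `ht`.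
-/

set_option autoImplicit false

namespace EL

open scoped TensorProduct

private theorem TH_inj {F A M V : Type*} [Field F] [CommRing A] [Algebra F A]
    [AddCommGroup M] [Module F M] [AddCommGroup V] [Module F V] (rgt : A →ₐ[F] Module.End F M)
    (j : V →ₗ[F] M) (hb : Function.Bijective (rj rgt j)) (v : V) (hv0 : v ≠ 0) (a : A)
    (ha : rgt a (j v) = 0) : a = 0 := by
  have h1 : rj rgt j (a ⊗ₜ v) = 0 := ha
  have h2 : (a ⊗ₜ[F] v) = 0 := hb.1 (h1.trans (map_zero _).symm)
  by_contra hne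
  apply hv0
  rw [← Module.forall_dual_apply_eq_zero_iff F v]
  intro φ
  have h3 := congrArg (fun z => TensorProduct.rid F A (LinearMap.lTensor A φ z)) h2
  simp only [LinearMap.lTensor_tmul, TensorProduct.rid_tmul, map_zero] at h3
  exact (smul_eq_zero.1 h3).resolve_right hne

private theorem TH_ex {F A M V : Type*} [Field F] [CommRing A] [Algebra F A]
    [AddCommGroup M] [Module F M] [AddCommGroup V] [Module F V] (lft rgt : A →ₐ[F] Module.End F M)
    (hcm : ∀ a c, Commute (rgt a) (lft c)) (act : A →ₐ[F] Module.End F V) (j : V →ₗ[F] M) (W : Set A)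
    (hW : Algebra.adjoin F W = ⊤)
    (hx : ∀ x ∈ W, ∀ v, lft x (j v) = rgt x (j v) + j (act x v)) (χ : A →ₐ[F] F) (v : V)
    (hv : v ∈ Yk act χ 1) (f : A) : ∃ g : A, lft f (j v) = rgt g (j v) := by
  have hf : f ∈ Algebra.adjoin F W := by rw [hW]; exact Algebra.mem_top
  induction hf using Algebra.adjoin_induction with
  | mem x hxW =>
    refine ⟨x + algebraMap F A (χ x), ?_⟩
    rw [hx x hxW v, Yk_one.1 hv x, map_smul, map_add, LinearMap.add_apply, AlgHom.commutes,
      Module.algebraMap_end_apply]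
  | algebraMap r =>
    exact ⟨algebraMap F A r, by rw [AlgHom.commutes, AlgHom.commutes]⟩
  | add x y _ _ hx1 hy1 =>
    obtain ⟨g, hg⟩ := hx1
    obtain ⟨g', hg'⟩ := hy1
    exact ⟨g + g', by rw [map_add, map_add, LinearMap.add_apply, LinearMap.add_apply, hg, hg']⟩
  | mul x y _ _ hx1 hy1 =>
    obtain ⟨g, hg⟩ := hx1
    obtain ⟨g', hg'⟩ := hy1
    refine ⟨g' * g, ?_⟩
    have h1 : lft x (rgt g' (j v)) = rgt g' (lft x (j v)) :=
      (congrArg (fun T : Module.End F M => T (j v)) (hcm g' x).eq).symm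
    rw [map_mul, map_mul, Module.End.mul_apply, Module.End.mul_apply, hg', h1, hg]

theorem exists_T {F A M V : Type*} [Field F] [CommRing A] [Algebra F A]
    [AddCommGroup M] [Module F M] [AddCommGroup V] [Module F V] (lft rgt : A →ₐ[F] Module.End F M)
    (hcm : ∀ a c, Commute (rgt a) (lft c)) (act : A →ₐ[F] Module.End F V) (j : V →ₗ[F] M) (W W' : Set A)
    (hW : Algebra.adjoin F W = ⊤) (hb : Function.Bijective (rj rgt j))
    (hx : ∀ x ∈ W, ∀ v, lft x (j v) = rgt x (j v) + j (act x v)) (χ : A →ₐ[F] F) (v : V) (hv0 : v ≠ 0)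
    (hv : v ∈ Yk act χ 1) (ht : ∀ x ∈ W', lft x (j v) = rgt x (j v) + χ x • j v) :
    ∃ T : A →ₐ[F] A, (∀ x ∈ W, T x = x + algebraMap F A (χ x)) ∧ ∀ x ∈ W', T x = x + algebraMap F A (χ x) := by
  have huniq : ∀ a b : A, rgt a (j v) = rgt b (j v) → a = b := by
    intro a b hab
    rw [← sub_eq_zero]
    apply TH_inj rgt j hb v hv0
    rw [map_sub, LinearMap.sub_apply, hab, sub_self]
  have hex : ∀ f : A, ∃ g : A, lft f (j v) = rgt g (j v) :=
    TH_ex lft rgt hcm act j W hW hx χ v hv
  choose T hT using hex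
  have hone : T 1 = 1 := huniq _ _ (by rw [← hT, map_one, map_one])
  have hmul : ∀ x y, T (x * y) = T x * T y := by
    intro x y
    apply huniq
    have h1 : lft x (rgt (T y) (j v)) = rgt (T y) (lft x (j v)) :=
      (congrArg (fun S : Module.End F M => S (j v)) (hcm (T y) x).eq).symm
    rw [← hT, map_mul, Module.End.mul_apply, hT y, h1, hT x, ← Module.End.mul_apply, ← map_mul,
      mul_comm]
  have hzero : T 0 = 0 := huniq _ _ (by rw [← hT, map_zero, map_zero])
  have hadd : ∀ x y, T (x + y) = T x + T y := by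
    intro x y
    apply huniq
    rw [← hT, map_add, map_add, LinearMap.add_apply, LinearMap.add_apply, hT x, hT y]
  have hcomm : ∀ r : F, T (algebraMap F A r) = algebraMap F A r := by
    intro r
    apply huniq
    rw [← hT, AlgHom.commutes, AlgHom.commutes]
  have hval : ∀ x, lft x (j v) = rgt x (j v) + χ x • j v → T x = x + algebraMap F A (χ x) := by
    intro x h
    apply huniq
    rw [← hT, h, map_add, LinearMap.add_apply, AlgHom.commutes, Module.algebraMap_end_apply]
  refine ⟨{ toFun := T, map_one' := hone, map_mul' := hmul, map_zero' := hzero, map_add' := hadd,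
            commutes' := hcomm }, fun x hxW => ?_, fun x hxW => hval x (ht x hxW)⟩
  apply hval
  rw [hx x hxW v, Yk_one.1 hv x, map_smul]

end EL
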