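import Pool.Agent.Lib.MP_a5a771_alT.Defs
import Pool.Agent.Lib.MP_a5a771_alT.SU

/-!
# Translation by a weight is the same for both structures

PROOF. `v = 0` is trivial; let `v ≠ 0`, so `j v ≠ 0` (`π (j v) = v`). (1) For every `f ∈ A` there is `g ∈ A` with `lft f (j v) = rgt g (j v)`: for `f = x ∈ W`: `lft x (j v) = rgt x (j v) + j (act x v) =
rgt (x + χ x) (j v)` (`Yk_one`); scalars, sums, products (`lft (f f') (j v) = lft f (rgt g' (j v)) = rgt g' (rgt g (j v))`, `hcm`): `Algebra.adjoin_induction`. (2) Let `x ∈ W'`, `g` as in (1) for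
`f = x`, `c = g - x`. Let `η ∈ A ⊗ V` with `rj rgt j' η = j v`; `η ≠ 0`. For all `a, v'`: `lft x (rgt a (j' v')) = rgt a (rgt x (j' v') + j' (act x v'))`, so `lft x (rj rgt j' η) = rj rgt j' ((x · ⊗ 1) η + (1 ⊗ act x) η)`;
and `rgt g (rj rgt j' η) = rj rgt j' ((g · ⊗ 1) η)`. As `rj rgt j'` is injective: `(1 ⊗ act x) η = (c · ⊗ 1) η`. (3) `supp_fin` (`ι = Unit`, `V := A` with the operator `LinearMap.mulLeft F c`,
`V' := V` with the operator `act x`; `rTensor = lTensor`) gives a finite-dimensional `N ≤ A` with `c N ⊆ N` and `η ∈ span (N ⊗ N')`, so `N ≠ 0` as `η ≠ 0`. `F` is algebraically closed: the operator `c ·` on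
`N` has an eigenvector `0 ≠ a ∈ N`, `c a = ρ a` (`Module.End.exists_eigenvalue`), `A` is a domain, so `c = ρ`. (4) So `lft x (j v) = rgt x (j v) + ρ • j v`. Apply `π`:
`χ x • v = act x v = ε x • v + ρ • v = ρ • v`, so `ρ = χ x`.
-/

set_option autoImplicit false

namespace EL

open scoped TensorProduct

theorem trans {F A M V : Type*} [Field F] [IsAlgClosed F] [CommRing A] [IsDomain A] [Algebra F A]
    [AddCommGroup M] [Module F M] [AddCommGroup V] [Module F V] (lft rgt : A →ₐ[F] Module.End F M)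
    (hcm : ∀ a c, Commute (rgt a) (lft c)) (act : A →ₐ[F] Module.End F V) (j j' : V →ₗ[F] M) (W W' : Set A)
    (hW : Algebra.adjoin F W = ⊤) (hb' : Function.Bijective (rj rgt j'))
    (hx : ∀ x ∈ W, ∀ v, lft x (j v) = rgt x (j v) + j (act x v))
    (hx' : ∀ x ∈ W', ∀ v, lft x (j' v) = rgt x (j' v) + j' (act x v))
    (π : M →ₗ[F] V) (ε : A →ₐ[F] F) (hj : ∀ v, π (j v) = v) (hr : ∀ a m, π (rgt a m) = ε a • π m)
    (hl : ∀ a m, π (lft a m) = act a (π m)) (hε : ∀ x ∈ W', ε x = 0)
    (χ : A →ₐ[F] F) (v : V) (hv : v ∈ Yk act χ 1) (x : A) (hxW : x ∈ W') :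
    lft x (j v) = rgt x (j v) + χ x • j v := by
  by_cases hv0 : v = 0
  · rw [hv0, map_zero, map_zero, map_zero, smul_zero, add_zero]
  rw [Yk_one] at hv
  have h1 : ∀ f : A, ∃ g : A, lft f (j v) = rgt g (j v) := by
    intro f
    have hf : f ∈ Algebra.adjoin F W := by rw [hW]; exact Algebra.mem_top
    induction hf using Algebra.adjoin_induction with
    | mem y hy =>
      refine ⟨y + algebraMap F A (χ y), ?_⟩
      rw [hx y hy, hv, map_smul, map_add, LinearMap.add_apply, AlgHom.commutes, Module.algebraMap_end_apply]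
    | algebraMap r =>
      refine ⟨algebraMap F A r, ?_⟩
      rw [AlgHom.commutes, AlgHom.commutes]
    | add y z _ _ hy hz =>
      obtain ⟨g, hg⟩ := hy
      obtain ⟨g', hg'⟩ := hz
      refine ⟨g + g', ?_⟩
      rw [map_add, map_add, LinearMap.add_apply, LinearMap.add_apply, hg, hg']
    | mul y z _ _ hy hz =>
      obtain ⟨g, hg⟩ := hy
      obtain ⟨g', hg'⟩ := hz
      refine ⟨g' * g, ?_⟩
      have h2 : rgt g' (lft y (j v)) = lft y (rgt g' (j v)) := LinearMap.congr_fun (hcm g' y).eq (j v)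
      rw [map_mul, map_mul, Module.End.mul_apply, Module.End.mul_apply, hg', ← h2, hg]
  obtain ⟨g, hg⟩ := h1 x
  obtain ⟨η, hη⟩ := hb'.2 (j v)
  have hη0 : η ≠ 0 := by
    intro h
    rw [h, map_zero] at hη
    apply hv0
    rw [← hj v, ← hη, map_zero]
  have h2 : ∀ ζ : A ⊗[F] V, lft x (rj rgt j' ζ) =
      rj rgt j' (LinearMap.rTensor V (LinearMap.mulLeft F x) ζ + LinearMap.lTensor A (act x) ζ) := by
    intro ζ
    induction ζ using TensorProduct.induction_on with
    | zero => simp only [map_zero, add_zero]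
    | tmul a w =>
      have h3 : rgt a (lft x (j' w)) = lft x (rgt a (j' w)) := LinearMap.congr_fun (hcm a x).eq (j' w)
      rw [LinearMap.rTensor_tmul, LinearMap.lTensor_tmul, map_add]
      show lft x (rgt a (j' w)) = rgt (x * a) (j' w) + rgt a (j' (act x w))
      rw [← h3, hx' x hxW, map_add, mul_comm x a, map_mul, Module.End.mul_apply]
    | add ζ₁ ζ₂ h₁ h₂ =>
      rw [map_add (rj rgt j') ζ₁ ζ₂, map_add (lft x), h₁, h₂]
      simp only [map_add]
      abel
  have h3 : ∀ ζ : A ⊗[F] V, rgt g (rj rgt j' ζ) =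
      rj rgt j' (LinearMap.rTensor V (LinearMap.mulLeft F g) ζ) := by
    intro ζ
    induction ζ using TensorProduct.induction_on with
    | zero => simp only [map_zero]
    | tmul a w =>
      rw [LinearMap.rTensor_tmul]
      show rgt g (rgt a (j' w)) = rgt (g * a) (j' w)
      rw [map_mul, Module.End.mul_apply]
    | add ζ₁ ζ₂ h₁ h₂ =>
      rw [map_add (rj rgt j') ζ₁ ζ₂, map_add (rgt g), h₁, h₂]
      simp only [map_add]
  have h4 : LinearMap.rTensor V (LinearMap.mulLeft F x) η + LinearMap.lTensor A (act x) η =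
      LinearMap.rTensor V (LinearMap.mulLeft F g) η := by
    apply hb'.1
    rw [← h2, ← h3, hη, hg]
  have h5 : LinearMap.mulLeft F (g - x) = LinearMap.mulLeft F g - LinearMap.mulLeft F x := by
    refine LinearMap.ext fun a => ?_
    rw [LinearMap.sub_apply, LinearMap.mulLeft_apply, LinearMap.mulLeft_apply, LinearMap.mulLeft_apply, sub_mul]
  have h6 : LinearMap.rTensor V (LinearMap.mulLeft F (g - x)) η = LinearMap.lTensor A (act x) η := by
    rw [h5, LinearMap.rTensor_sub, LinearMap.sub_apply, ← h4, add_sub_cancel_left]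
  obtain ⟨N, N', hN, -, hst, -, hmem⟩ := supp_fin (ι := Unit) (fun _ => LinearMap.mulLeft F (g - x))
    (fun _ => act x) η fun _ => h6
  have hN0 : N ≠ ⊥ := by
    intro h
    apply hη0
    have h7 : Submodule.span F {z : A ⊗[F] V | ∃ v ∈ N, ∃ w ∈ N', z = v ⊗ₜ[F] w} ≤ ⊥ := by
      rw [Submodule.span_le]
      rintro _ ⟨a, ha, w, -, rfl⟩
      rw [h, Submodule.mem_bot] at ha
      rw [ha, TensorProduct.zero_tmul]
      exact Submodule.zero_mem _
    exact (Submodule.mem_bot F).1 (h7 hmem)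
  have : Nontrivial N := Submodule.nontrivial_iff_ne_bot.2 hN0
  obtain ⟨ρ, hρ⟩ := Module.End.exists_eigenvalue ((LinearMap.mulLeft F (g - x)).restrict (hst ()))
  obtain ⟨a, ha⟩ := hρ.exists_hasEigenvector
  have h8 : (g - x) * (a : A) = ρ • (a : A) := by
    have h9 := congrArg Subtype.val ha.apply_eq_smul
    exact h9
  have h10 : (a : A) ≠ 0 := fun h => ha.2 (Subtype.ext h)
  have h11 : g - x = algebraMap F A ρ := by
    apply mul_right_cancel₀ h10
    rw [h8, Algebra.smul_def]
  have h12 : lft x (j v) = rgt x (j v) + ρ • j v := by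
    have h13 : g = x + algebraMap F A ρ := by rw [← h11, add_sub_cancel]
    rw [hg, h13, map_add, LinearMap.add_apply, AlgHom.commutes, Module.algebraMap_end_apply]
  have h14 := congrArg π h12
  rw [hl, hj, map_add, hr, hj, map_smul, hj, hε x hxW, zero_smul, zero_add, hv] at h14
  have h15 : χ x = ρ := smul_left_injective F hv0 h14
  rw [h12, h15]

end EL
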