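import Pool.Agent.Lib.MP_a5a771_al.Mc
import Pool.Agent.Lib.MP_a5a771_al.Low
import Pool.Agent.Lib.MP_a5a771_alT.CO
import Pool.Agent.Lib.MP_a5a771_alT.TR
import Pool.Agent.Lib.MP_a5a771_alT.TH
import Pool.Agent.Lib.MP_a5a771_alT.EY
import Pool.Agent.Lib.MP_a5a771_alT.DO

/-!
# The theorem in characteristic two, over an algebraically closed field

PROOF. As in `Mc.lean`, with `core2` instead of `core`: `A` is a domain (`quo_dom`), the augmentation factors through `A`, `π : I / I² → I / I ω` is the projection; `trans`, `exists_T` and `exp_Y`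
give the expansions inside the generalised weight spaces.
-/

set_option autoImplicit false

namespace EL

open scoped TensorProduct

section

variable {F L H U : Type*} [Field F] [LieRing L] [LieAlgebra F L]
    [LieRing H] [LieAlgebra F H] [Ring U] [Algebra F U] {iL : L →ₗ[F] U} {iH : H →ₗ[F] U} {ε : U →ₐ[F] F}

/-- the multiplication `I / I² × I / I ω → U / I² ω` -/
private theorem MC_mult (ε : U →ₐ[F] F) :
    ∃ s : Mq F U →ₗ[F] Vq ε →ₗ[F] U ⧸ (Com F U * Com F U * Aug ε), ∀ z w : ↥(Com F U),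
      s (Submodule.Quotient.mk z) (Submodule.Quotient.mk w) = Submodule.Quotient.mk ((z : U) * w) := by
  classical
  let Q := Com F U * Com F U * Aug ε
  let m0 : ↥(Com F U) →ₗ[F] ↥(Com F U) →ₗ[F] U ⧸ Q :=
    LinearMap.mk₂ F (fun z w => Submodule.Quotient.mk ((z : U) * w))
      (by intro a b c; simp only [Submodule.coe_add, add_mul, Submodule.Quotient.mk_add])
      (by intro a b c; simp only [Submodule.coe_smul, Algebra.smul_mul_assoc, Submodule.Quotient.mk_smul])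
      (by intro a b c; simp only [Submodule.coe_add, mul_add, Submodule.Quotient.mk_add])
      (by intro a b c; simp only [Submodule.coe_smul, Algebra.mul_smul_comm, Submodule.Quotient.mk_smul])
  have hm0 : ∀ z w, m0 z w = Submodule.Quotient.mk ((z : U) * w) := fun z w => rfl
  -- second variable
  have h2 : ∀ z : ↥(Com F U), (Com F U * Aug ε).comap (Com F U).subtype ≤ LinearMap.ker (m0 z) := by
    intro z w hw
    rw [LinearMap.mem_ker, hm0, Submodule.Quotient.mk_eq_zero]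
    have hw' : (w : U) ∈ Com F U * Aug ε := hw
    have h3 : (z : U) * (w : U) ∈ Com F U * (Com F U * Aug ε) := Submodule.mul_mem_mul z.2 hw'
    rw [← mul_assoc] at h3
    exact h3
  let m1 : ↥(Com F U) →ₗ[F] Vq ε →ₗ[F] U ⧸ Q :=
    { toFun := fun z => Submodule.liftQ _ (m0 z) (h2 z)
      map_add' := by
        intro a b
        apply Submodule.linearMap_qext
        ext w
        simp
      map_smul' := by
        intro c a
        apply Submodule.linearMap_qext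
        ext w
        simp }
  have hm1 : ∀ z w, m1 z (Submodule.Quotient.mk w) = Submodule.Quotient.mk ((z : U) * w) := fun z w => rfl
  have h1 : (Com F U * Com F U).comap (Com F U).subtype ≤ LinearMap.ker m1 := by
    intro z hz
    rw [LinearMap.mem_ker]
    apply Submodule.linearMap_qext
    ext w
    have hz' : (z : U) ∈ Com F U * Com F U := hz
    have h3 : (z : U) * (w : U) ∈ Com F U * Com F U * Aug ε :=
      Submodule.mul_mem_mul hz' (com_le_aug ε w.2)
    simp only [LinearMap.comp_apply, Submodule.mkQ_apply, hm1, LinearMap.zero_apply]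
    rw [Submodule.Quotient.mk_eq_zero]
    exact h3
  refine ⟨Submodule.liftQ _ m1 h1, fun z w => rfl⟩

/-- generation: `p (range i)` generates `A` -/
private theorem MC_gen {A : Type*} [CommRing A] [Algebra F A] (hL : Env iL ε) (p : U →ₐ[F] A) (hp : Function.Surjective p) :
    Algebra.adjoin F (p '' Set.range iL) = ⊤ := by
  rw [← AlgHom.map_adjoin, env_gen hL, Algebra.map_top, AlgHom.range_eq_top]
  exact hp

/-- the tensor form of `j` -/
private theorem MC_tj {E M V : Type*} [AddCommGroup E] [Module F E] [AddCommGroup M] [Module F M] [AddCommGroup V] [Module F V]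
    (t : M →ₗ[F] V →ₗ[F] E) (j : V →ₗ[F] M) (v w : V) : tj t j (v ⊗ₜ w) = t (j v) w := rfl

private theorem MC_rj {A M V : Type*} [CommRing A] [Algebra F A] [AddCommGroup M] [Module F M] [AddCommGroup V] [Module F V]
    (rgt : A →ₐ[F] Module.End F M) (j : V →ₗ[F] M) (a : A) (v : V) : rj rgt j (a ⊗ₜ v) = rgt a (j v) := rfl

/-- expansion of `t (j₁ v) w` in terms of `j₂` -/
private theorem MC_exp {A E M V : Type*} [CommRing A] [Algebra F A] [AddCommGroup E] [Module F E] [AddCommGroup M] [Module F M]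
    [AddCommGroup V] [Module F V] (rgt : A →ₐ[F] Module.End F M) (act : A →ₐ[F] Module.End F V)
    (t : M →ₗ[F] V →ₗ[F] E) (ht : ∀ a m v, t (rgt a m) v = t m (act a v)) (j : V →ₗ[F] M)
    (hj : Function.Surjective (rj rgt j)) (m : M) :
    ∃ (n : ℕ) (a : Fin n → A) (x : Fin n → V), ∀ w, t m w = ∑ k, t (j (x k)) (act (a k) w) := by
  obtain ⟨ξ, hξ⟩ := hj m
  subst hξ
  induction ξ using TensorProduct.induction_on with
  | zero => exact ⟨0, Fin.elim0, Fin.elim0, by intro w; simp⟩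
  | tmul a v =>
    refine ⟨1, fun _ => a, fun _ => v, ?_⟩
    intro w
    rw [MC_rj, ht]
    simp
  | add x y hx hy =>
    obtain ⟨n, a, x', h1⟩ := hx
    obtain ⟨n', a', y', h2⟩ := hy
    refine ⟨n + n', Fin.append a a', Fin.append x' y', ?_⟩
    intro w
    rw [map_add, map_add, LinearMap.add_apply, h1, h2, Fin.sum_univ_add]
    simp

/-- the flip is an involution -/
private theorem MC_tau {E V : Type*} [AddCommGroup E] [Module F E] [AddCommGroup V] [Module F V]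
    (P : V ⊗[F] V ≃ₗ[F] E) (e : E) : tau P (tau P e) = e := by
  simp only [tau, LinearMap.comp_apply, LinearEquiv.coe_coe, LinearEquiv.symm_apply_apply]
  rw [TensorProduct.comm_comm]
  simp

private theorem MC_tau_tmul {E V : Type*} [AddCommGroup E] [Module F E] [AddCommGroup V] [Module F V]
    (P : V ⊗[F] V ≃ₗ[F] E) (v w : V) : tau P (P (v ⊗ₜ w)) = P (w ⊗ₜ v) := by
  simp only [tau, LinearMap.comp_apply, LinearEquiv.coe_coe, LinearEquiv.symm_apply_apply, TensorProduct.comm_tmul]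

/-- the augmentation of the quotient -/
private theorem MC_eps {A : Type*} [CommRing A] [Algebra F A] (ε : U →ₐ[F] F) (p : U →ₐ[F] A) (hp : Function.Surjective p)
    (hk : ∀ u, p u = 0 ↔ u ∈ Com F U) : ∃ εA : A →ₐ[F] F, ∀ u, εA (p u) = ε u := by
  have hwd : ∀ u u', p u = p u' → ε u = ε u' := by
    intro u u' h
    have h1 : p (u - u') = 0 := by rw [map_sub, h, sub_self]
    have h2 := com_le_aug ε ((hk _).1 h1)
    rw [Aug, LinearMap.mem_ker, AlgHom.toLinearMap_apply, map_sub, sub_eq_zero] at h2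
    exact h2
  obtain ⟨s, hs⟩ := hp.hasRightInverse
  refine ⟨{ toFun := fun a => ε (s a)
            map_one' := ?_
            map_mul' := ?_
            map_zero' := ?_
            map_add' := ?_
            commutes' := ?_ }, fun u => hwd _ _ (hs _)⟩
  · rw [hwd (s 1) 1 (by rw [hs, map_one]), map_one]
  · intro a b
    rw [hwd (s (a * b)) (s a * s b) (by rw [hs, map_mul, hs, hs]), map_mul]
  · show ε (s 0) = 0
    rw [hwd (s 0) 0 (by rw [hs, map_zero]), map_zero]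
  · intro a b
    show ε (s (a + b)) = ε (s a) + ε (s b)
    rw [hwd (s (a + b)) (s a + s b) (by rw [hs, map_add, hs, hs]), map_add]
  · intro c
    show ε (s (algebraMap F A c)) = algebraMap F F c
    rw [hwd (s (algebraMap F A c)) (algebraMap F U c) (by rw [hs, AlgHom.commutes]), AlgHom.commutes]

private theorem MC_le (ε : U →ₐ[F] F) : (Com F U * Com F U).comap (Com F U).subtype ≤
    ((Com F U * Aug ε).comap (Com F U).subtype).comap LinearMap.id := by
  intro z hz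
  have hz' : (z : U) ∈ Com F U * Com F U := hz
  exact (Submodule.mul_le.2 fun a ha b hb => Submodule.mul_mem_mul ha (com_le_aug ε hb)) hz'

private theorem MC_Y {A V : Type*} [CommRing A] [Algebra F A] [AddCommGroup V] [Module F V] (act : A →ₐ[F] Module.End F V)
    (χ : A →ₐ[F] F) (h : Yk act χ 1 = ⊥) (k : ℕ) : ∀ v ∈ Yk act χ k, v = 0 := by
  induction k with
  | zero =>
    intro v hv
    rw [Yk_zero] at hv
    exact (Submodule.mem_bot F).1 hv
  | succ k ih =>
    intro v hv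
    have h1 : v ∈ Yk act χ 1 := by
      rw [Yk_one]
      intro a
      have h2 := ih _ (Yk_sub hv a)
      rwa [sub_eq_zero] at h2
    rw [h] at h1
    exact (Submodule.mem_bot F).1 h1

/-- step (1) to (4): `iH ⁅v, w⁆ ∈ I² ω` -/
private theorem MC_step [IsAlgClosed F] (h2 : (2 : F) = 0) (hL : Env iL ε) (hH : Env iH ε) (hm : D2 F L = ⊥)
    (v w : H) (hv : v ∈ D1 F H) (hw : w ∈ D1 F H) : iH ⁅v, w⁆ ∈ Com F U * Com F U * Aug ε := by
  classical
  obtain ⟨A, _, _, p, hp, hk⟩ := exists_quo F U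
  obtain ⟨act, hact⟩ := exists_act ε p hp hk
  obtain ⟨lft, hlft⟩ := exists_lft p hp hk
  obtain ⟨rgt, hrgt⟩ := exists_rgt p hp hk
  have hcm : ∀ a c, Commute (rgt a) (lft c) := by
    intro a c
    obtain ⟨u, rfl⟩ := hp a
    obtain ⟨u', rfl⟩ := hp c
    apply LinearMap.ext
    intro x
    obtain ⟨z, rfl⟩ := Submodule.Quotient.mk_surjective _ x
    rw [Module.End.mul_apply, Module.End.mul_apply,
      hlft u' z ⟨u' * z, com_mul_left _ _ z.2⟩ rfl,
      hrgt u ⟨u' * z, com_mul_left _ _ z.2⟩ ⟨u' * z * u, com_mul_right _ _ (com_mul_left _ _ z.2)⟩ rfl,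
      hrgt u z ⟨z * u, com_mul_right _ _ z.2⟩ rfl,
      hlft u' ⟨z * u, com_mul_right _ _ z.2⟩ ⟨u' * z * u, com_mul_right _ _ (com_mul_left _ _ z.2)⟩ (mul_assoc _ _ _)]
  obtain ⟨E, _, _, t, lam, mu, ht, hlam, hmu, huniv, hbij⟩ := exists_ten rgt lft hcm act
  obtain ⟨s, hs⟩ := MC_mult (F := F) ε
  obtain ⟨r, hr0⟩ := huniv _ s (by
    intro a m v
    obtain ⟨u, rfl⟩ := hp a
    obtain ⟨z, rfl⟩ := Submodule.Quotient.mk_surjective _ m
    obtain ⟨z', rfl⟩ := Submodule.Quotient.mk_surjective _ v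
    rw [hrgt u z ⟨z * u, com_mul_right _ _ z.2⟩ rfl, hact u z' ⟨u * z', com_mul_left _ _ z'.2⟩ rfl, hs, hs]
    congr 1
    simp only
    rw [mul_assoc])
  have hr : ∀ z w : ↥(Com F U), r (t (Submodule.Quotient.mk z) (Submodule.Quotient.mk w)) =
      Submodule.Quotient.mk ((z : U) * w) := fun z w => by rw [hr0, hs]
  obtain ⟨j₁, hb₁, hj₁, hx₁, hrep₁⟩ := exists_j hL p hp hk act hact lft rgt hlft hrgt
  obtain ⟨j₂, hb₂, hj₂, hx₂, hrep₂⟩ := exists_j hH p hp hk act hact lft rgt hlft hrgt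
  let P₁ : Vq ε ⊗[F] Vq ε ≃ₗ[F] E := LinearEquiv.ofBijective (tj t j₁) (hbij j₁ hb₁)
  let P₂ : Vq ε ⊗[F] Vq ε ≃ₗ[F] E := LinearEquiv.ofBijective (tj t j₂) (hbij j₂ hb₂)
  have hP₁ : ∀ v w, P₁ (v ⊗ₜ w) = t (j₁ v) w := fun v w => rfl
  have hP₂ : ∀ v w, P₂ (v ⊗ₜ w) = t (j₂ v) w := fun v w => rfl
  have hspan : ∀ (Q : E → Prop), Q 0 → (∀ x y, Q x → Q y → Q (x + y)) → (∀ v w, Q (P₁ (v ⊗ₜ w))) → ∀ e, Q e := by
    intro Q h0 ha hQ e
    obtain ⟨ξ, rfl⟩ := P₁.surjective e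
    induction ξ using TensorProduct.induction_on with
    | zero => rw [map_zero]; exact h0
    | tmul v w => exact hQ v w
    | add x y hx hy => rw [map_add]; exact ha _ _ hx hy
  have hc : ∀ a c, Commute (lam a) (mu c) := by
    intro a c
    apply LinearMap.ext
    refine hspan _ ?_ ?_ ?_
    · simp
    · intro x y hx hy
      rw [map_add, map_add, hx, hy]
    · intro v w
      rw [Module.End.mul_apply, Module.End.mul_apply, hP₁, hmu, hlam, hlam, hmu]
  have m₁ : ∀ a v w, mu a (P₁ (v ⊗ₜ w)) = P₁ (v ⊗ₜ act a w) := by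
    intro a v w; rw [hP₁, hP₁, hmu]
  have m₂ : ∀ a v w, mu a (P₂ (v ⊗ₜ w)) = P₂ (v ⊗ₜ act a w) := by
    intro a v w; rw [hP₂, hP₂, hmu]
  have l₁ : ∀ x ∈ p '' Set.range iL, ∀ v w, lam x (P₁ (v ⊗ₜ w)) = P₁ (act x v ⊗ₜ w) + P₁ (v ⊗ₜ act x w) := by
    rintro _ ⟨_, ⟨x, rfl⟩, rfl⟩ v w
    rw [hP₁, hP₁, hP₁, hlam, hx₁, map_add, LinearMap.add_apply, ht, add_comm]
  have l₂ : ∀ x ∈ p '' Set.range iH, ∀ v w, lam x (P₂ (v ⊗ₜ w)) = P₂ (act x v ⊗ₜ w) + P₂ (v ⊗ₜ act x w) := by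
    rintro _ ⟨_, ⟨x, rfl⟩, rfl⟩ v w
    rw [hP₂, hP₂, hP₂, hlam, hx₂, map_add, LinearMap.add_apply, ht, add_comm]
  have hflip : ∀ e, r (e - tau P₁ e) = 0 := fun e => mult_flip hL t r hr j₁ hj₁ hrep₁ P₁ hP₁ hm e
  have hcond : ∀ e, ∃ e', e - tau P₁ e = e' - tau P₂ e' := fun e =>
    ker_mult hH t r hr j₂ hj₂ hrep₂ P₂ hP₂ (e - tau P₁ e) (hflip e)
  have : IsDomain A := quo_dom hL p hp hk
  obtain ⟨εA, hεA⟩ := MC_eps ε p hp hk
  let π : Mq F U →ₗ[F] Vq ε := Submodule.mapQ _ _ LinearMap.id (MC_le ε)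
  have hπ : ∀ z : ↥(Com F U), π (Submodule.Quotient.mk z) = Submodule.Quotient.mk z := fun z => rfl
  have hπj₁ : ∀ v, π (j₁ v) = v := by
    intro v
    obtain ⟨z, v₀, hv₀, hz, rfl⟩ := hrep₁ v
    rw [hj₁ z v₀ hv₀ hz, hπ]
  have hπr : ∀ a m, π (rgt a m) = εA a • π m := by
    intro a m
    obtain ⟨u, rfl⟩ := hp a
    obtain ⟨z, rfl⟩ := Submodule.Quotient.mk_surjective _ m
    rw [hrgt u z ⟨z * u, com_mul_right _ _ z.2⟩ rfl, hπ, hπ, hεA, ← Submodule.Quotient.mk_smul, Submodule.Quotient.eq]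
    show (z : U) * u - ε u • (z : U) ∈ Com F U * Aug ε
    have h1 : (z : U) * u - ε u • (z : U) = (z : U) * (u - algebraMap F U (ε u)) := by
      rw [mul_sub, ← Algebra.commutes, ← Algebra.smul_def]
    rw [h1]
    apply Submodule.mul_mem_mul z.2
    rw [Aug, LinearMap.mem_ker, AlgHom.toLinearMap_apply, map_sub, AlgHom.commutes]
    exact sub_self _
  have hπl : ∀ a m, π (lft a m) = act a (π m) := by
    intro a m
    obtain ⟨u, rfl⟩ := hp a
    obtain ⟨z, rfl⟩ := Submodule.Quotient.mk_surjective _ m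
    rw [hlft u z ⟨u * z, com_mul_left _ _ z.2⟩ rfl, hπ, hπ, hact u z ⟨u * z, com_mul_left _ _ z.2⟩ rfl]
  have hε₁ : ∀ x ∈ p '' Set.range iL, εA x = 0 := by
    rintro _ ⟨_, ⟨x, rfl⟩, rfl⟩
    rw [hεA]
    exact hL.aug x
  have hε₂ : ∀ x ∈ p '' Set.range iH, εA x = 0 := by
    rintro _ ⟨_, ⟨x, rfl⟩, rfl⟩
    rw [hεA]
    exact hH.aug x
  have hx₁' : ∀ x ∈ p '' Set.range iL, ∀ v, lft x (j₁ v) = rgt x (j₁ v) + j₁ (act x v) := by
    rintro _ ⟨_, ⟨x, rfl⟩, rfl⟩ v
    exact hx₁ x v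
  have hx₂' : ∀ x ∈ p '' Set.range iH, ∀ v, lft x (j₂ v) = rgt x (j₂ v) + j₂ (act x v) := by
    rintro _ ⟨_, ⟨x, rfl⟩, rfl⟩ v
    exact hx₂ x v
  have hr₁ : ∀ (χ : A →ₐ[F] F) (k : ℕ), ∀ v ∈ Yk act χ k, ∃ (n : ℕ) (a : Fin n → A) (x : Fin n → Vq ε),
      (∀ i, x i ∈ Yk act χ k) ∧ ∀ w, P₁ (v ⊗ₜ w) = ∑ i, P₂ (x i ⊗ₜ act (a i) w) := by
    intro χ k v hv
    by_cases hY : Yk act χ 1 = ⊥
    · have h0 : v = 0 := MC_Y act χ hY k v hv
      refine ⟨0, Fin.elim0, Fin.elim0, fun i => i.elim0, fun w => ?_⟩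
      rw [h0, TensorProduct.zero_tmul, map_zero]
      rfl
    · obtain ⟨v₀, hv₀, hv₀'⟩ := (Submodule.ne_bot_iff _).1 hY
      obtain ⟨T, hT, hT'⟩ := exists_T lft rgt hcm act j₁ (p '' Set.range iL) (p '' Set.range iH) (MC_gen hL p hp) hb₁ hx₁' χ v₀ hv₀' hv₀
        (fun x hx => trans lft rgt hcm act j₁ j₂ (p '' Set.range iL) (p '' Set.range iH) (MC_gen hL p hp) hb₂ hx₁' hx₂' π εA hπj₁ hπr hπl
          hε₂ χ v₀ hv₀ x hx)
      obtain ⟨n, a, x, hx, he⟩ := exp_Y lft rgt hcm act j₁ j₂ _ _ (MC_gen hL p hp) (MC_gen hH p hp) hb₂ hx₁' hx₂' χ T hT hT' k v hv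
      refine ⟨n, a, x, hx, fun w => ?_⟩
      rw [hP₁, he, map_sum, LinearMap.sum_apply]
      refine Finset.sum_congr rfl fun i _ => ?_
      rw [ht, hP₂]
  have hcore := core2 h2 lam mu hc act P₁ P₂ _ _ (MC_gen hL p hp) (MC_gen hH p hp) m₁ m₂ l₁ l₂ hr₁ εA hε₁ hε₂ hcond
  -- the elements
  have hvC : iH v ∈ Com F U := by
    rw [com_eq hH]
    have h := Submodule.mul_mem_mul (M := N1 iH) (N := (⊤ : Submodule F U)) (Submodule.mem_map_of_mem (f := iH) hv) (Submodule.mem_top (x := (1 : U)))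
    rwa [mul_one] at h
  have hwC : iH w ∈ Com F U := by
    rw [com_eq hH]
    have h := Submodule.mul_mem_mul (M := N1 iH) (N := (⊤ : Submodule F U)) (Submodule.mem_map_of_mem (f := iH) hw) (Submodule.mem_top (x := (1 : U)))
    rwa [mul_one] at h
  let zv : ↥(Com F U) := ⟨iH v, hvC⟩
  let zw : ↥(Com F U) := ⟨iH w, hwC⟩
  obtain ⟨e', he'⟩ := hcore (P₂ ((Submodule.Quotient.mk zv) ⊗ₜ (Submodule.Quotient.mk zw)))
  have h0 := hflip e'
  rw [← he', MC_tau_tmul, hP₂, hP₂, hj₂ zv v hv rfl, hj₂ zw w hw rfl, map_sub, hr, hr, ← Submodule.Quotient.mk_sub,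
    Submodule.Quotient.mk_eq_zero] at h0
  rw [env_lie hH]
  exact h0

end

theorem main_closed_two {F L H U : Type*} [Field F] [IsAlgClosed F] (h2 : (2 : F) = 0) [LieRing L] [LieAlgebra F L]
    [LieRing H] [LieAlgebra F H] [Ring U] [Algebra F U] {iL : L →ₗ[F] U} {iH : H →ₗ[F] U} {ε : U →ₐ[F] F}
    (hL : Env iL ε) (hH : Env iH ε) (hm : D2 F L = ⊥) : D2 F H = ⊥ := by
  have hstep := fun v w hv hw => MC_step h2 hL hH hm v w hv hw
  have hD2 : D2 F H = ⁅D1 F H, D1 F H⁆ := LieAlgebra.derivedSeriesOfIdeal_succ F H ⊤ 1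
  have hle : D2 F H ≤ D3 F H := by
    rw [hD2, LieSubmodule.lieIdeal_oper_eq_span, LieSubmodule.lieSpan_le]
    rintro x ⟨⟨v, hv⟩, ⟨w, hw⟩, rfl⟩
    exact f5 hH _ (hstep v w hv hw)
  have hC : ∀ v ∈ D1 F H, iH v ∈ Com F U := by
    intro v hv
    rw [com_eq hH]
    have h := Submodule.mul_mem_mul (M := N1 iH) (N := (⊤ : Submodule F U)) (Submodule.mem_map_of_mem (f := iH) hv) (Submodule.mem_top (x := (1 : U)))
    rwa [mul_one] at h
  have hDD : D2 F H ≤ D1 F H := LieAlgebra.derivedSeriesOfIdeal_succ_le (R := F) (L := H) ⊤ 1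
  have hIL : ∀ n : ℕ, ∀ a ∈ Com F U, ∀ z ∈ (Com F U) ^ (n + 1), a * z ∈ (Com F U) ^ (n + 2) := by
    intro n a ha z hz
    have h := Submodule.mul_mem_mul ha hz
    rwa [← pow_succ'] at h
  have hIR : ∀ n : ℕ, ∀ a ∈ Com F U, ∀ z ∈ (Com F U) ^ (n + 1), z * a ∈ (Com F U) ^ (n + 2) := by
    intro n a ha z hz
    have h := Submodule.mul_mem_mul hz ha
    rwa [← pow_succ] at h
  have hpow : ∀ n : ℕ, ∀ x ∈ D2 F H, iH x ∈ (Com F U) ^ (n + 1) := by
    intro n
    induction n with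
    | zero =>
      intro x hx
      rw [zero_add, pow_one]
      exact hC x (hDD hx)
    | succ n ih =>
      intro x hx
      have hx3 : x ∈ (D3 F H).toSubmodule := hle hx
      have hD3 : (D3 F H).toSubmodule = Submodule.span F {⁅x, y⁆ | (x ∈ D1 F H) (y ∈ D2 F H)} :=
        LieSubmodule.lieIdeal_oper_eq_linear_span' _ _
      rw [hD3] at hx3
      refine Submodule.span_induction (p := fun x _ => iH x ∈ (Com F U) ^ (n + 1 + 1)) ?_ ?_ ?_ ?_ hx3
      · rintro y ⟨v, hv, w, hw, rfl⟩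
        rw [env_lie hH]
        exact Submodule.sub_mem _ (hIL n _ (hC v hv) _ (ih w hw)) (hIR n _ (hC v hv) _ (ih w hw))
      · rw [map_zero]; exact Submodule.zero_mem _
      · intro a b _ _ ha hb
        rw [map_add]; exact Submodule.add_mem _ ha hb
      · intro c a _ ha
        rw [map_smul]; exact Submodule.smul_mem _ c ha
  rw [LieSubmodule.eq_bot_iff]
  intro x hx
  have h0 : iH x = 0 := f6 hL hm _ (fun n => hpow n x hx)
  exact env_inj hH (by rw [h0, map_zero])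

end EL
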