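import Mathlib

/-!
# Commuting operators, nilpotent on a tensor of rank at most `r`

PROOF. Let `N ≤ V` be the left support of `ξ`: choose an expression `ξ = ∑_{k < m} u' k ⊗ v' k` with `m` minimal; then `m ≤ r`, the `v' k` are linearly independent and so are the `u' k`;
`N = span (u' k)`, `dim N = m ≤ r`. `D i` maps `N` to `N`: `∑ D i (u' k) ⊗ v' k = - ∑ u' k ⊗ D' i (v' k)` lies in `N ⊗ V'`; apply `1 ⊗ g` with linear forms `g` dual to the `v' k`. By `hn`
(apply `1 ⊗ g` again) `(D i) ^ n` kills every `u' k`: `D i` is nilpotent on `N`. For a list `i₁, …, i_r`: the subspaces `N ⊇ D i₁ N ⊇ D i₁ D i₂ N ⊇ …` (all stable under all `D i`, as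
they commute) decrease strictly until they are `0`: `D i M ≠ M` for a stable `M ≠ 0` because `D i` is nilpotent on it. After `r ≥ dim N` steps we are at `0`. So the product kills the `u' k`.
-/

set_option autoImplicit false

namespace EL

open scoped TensorProduct

/-- The contraction of the tensor `∑ u k ⊗ v k` by a linear form. -/
private noncomputable def NP_c {F V V' : Type*} [Field F] [AddCommGroup V] [Module F V] [AddCommGroup V'] [Module F V']
    (g : V' →ₗ[F] F) : V ⊗[F] V' →ₗ[F] V :=
  (TensorProduct.rid F V).toLinearMap ∘ₗ LinearMap.lTensor V g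

private theorem NP_c_tmul {F V V' : Type*} [Field F] [AddCommGroup V] [Module F V] [AddCommGroup V'] [Module F V']
    (g : V' →ₗ[F] F) (x : V) (y : V') : NP_c g (x ⊗ₜ[F] y) = g y • x := by
  simp [NP_c]

private theorem NP_eq_zero {F V V' : Type*} [Field F] [AddCommGroup V] [Module F V] [AddCommGroup V'] [Module F V']
    (η : V ⊗[F] V') (h : ∀ g : V' →ₗ[F] F, NP_c g η = 0) : η = 0 := by
  classical
  let b := Module.Basis.ofVectorSpace F V'
  have key : ∀ (ζ : V ⊗[F] V') i, TensorProduct.equivFinsuppOfBasisRight b ζ i = NP_c (b.coord i) ζ := by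
    intro ζ i
    induction ζ using TensorProduct.induction_on with
    | zero => simp
    | tmul x y => rw [NP_c_tmul, TensorProduct.equivFinsuppOfBasisRight_apply_tmul_apply, Module.Basis.coord_apply]
    | add x y hx hy => rw [map_add, Finsupp.add_apply, hx, hy, map_add]
  apply (TensorProduct.equivFinsuppOfBasisRight (M := V) b).injective
  rw [map_zero]
  ext i
  rw [key, h, Finsupp.zero_apply]

private theorem NP_list {F V ι : Type*} [Field F] [AddCommGroup V] [Module F V]
    (D : ι → Module.End F V) (hD : ∀ i j, Commute (D i) (D j)) (N : Submodule F V) [FiniteDimensional F N]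
    (hn : ∀ i, ∃ n : ℕ, ∀ x ∈ N, (D i ^ n) x = 0) :
    ∀ (l : List ι) (M : Submodule F V), M ≤ N → (∀ i, M ≤ M.comap (D i)) →
      Module.finrank F M ≤ l.length → ∀ x ∈ M, (l.map D).prod x = 0 := by
  intro l
  induction l with
  | nil =>
    intro M hMN hst hle x hx
    have : FiniteDimensional F M := Submodule.finiteDimensional_of_le hMN
    have h0 : Module.finrank F M = 0 := by simpa using hle
    have hM : M = ⊥ := Submodule.finrank_eq_zero.mp h0
    rw [hM, Submodule.mem_bot] at hx
    rw [hx, map_zero]
  | cons i l ih =>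
    intro M hMN hst hle x hx
    have : FiniteDimensional F M := Submodule.finiteDimensional_of_le hMN
    rw [List.map_cons, List.prod_cons]
    have hcomm : Commute (D i) ((l.map D).prod) := by
      apply Commute.list_prod_right
      intro y hy
      obtain ⟨j, _, rfl⟩ := List.mem_map.mp hy
      exact hD i j
    rw [hcomm.eq, Module.End.mul_apply]
    have hmapM : M.map (D i) ≤ M := by
      rw [Submodule.map_le_iff_le_comap]
      exact hst i
    apply ih (M.map (D i)) (hmapM.trans hMN) _ _ (D i x) (Submodule.mem_map_of_mem hx)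
    · intro j
      rintro _ ⟨y, hy, rfl⟩
      rw [Submodule.mem_comap]
      have : D j (D i y) = D i (D j y) := by
        have := (hD j i).eq
        calc D j (D i y) = (D j * D i) y := rfl
          _ = (D i * D j) y := by rw [this]
          _ = D i (D j y) := rfl
      rw [this]
      exact Submodule.mem_map_of_mem (hst j hy)
    · by_cases hM0 : M = ⊥
      · rw [hM0, Submodule.map_bot, finrank_bot]
        exact Nat.zero_le _
      · have hlt : M.map (D i) < M := by
          refine lt_of_le_of_ne hmapM ?_
          intro heq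
          apply hM0
          obtain ⟨n, hn⟩ := hn i
          have hpow : ∀ k : ℕ, M.map (D i ^ k) = M := by
            intro k
            induction k with
            | zero =>
              rw [pow_zero]
              exact Submodule.map_id M
            | succ k ihk =>
              rw [pow_succ]
              calc M.map (D i ^ k * D i) = (M.map (D i)).map (D i ^ k) := (Submodule.map_comp _ _ _)
                _ = M.map (D i ^ k) := by rw [heq]
                _ = M := ihk
          rw [eq_bot_iff, ← hpow n]
          rintro _ ⟨y, hy, rfl⟩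
          rw [Submodule.mem_bot]
          exact hn y (hMN hy)
        have := Submodule.finrank_lt_finrank_of_lt hlt
        rw [List.length_cons] at hle
        omega

theorem nil_one {F V V' ι : Type*} [Field F] [AddCommGroup V] [Module F V] [AddCommGroup V'] [Module F V']
    (D : ι → Module.End F V) (D' : ι → Module.End F V') (hD : ∀ i j, Commute (D i) (D j)) (r : ℕ)
    (u : Fin r → V) (v : Fin r → V') (ξ : V ⊗[F] V') (hξ : ξ = ∑ k, u k ⊗ₜ[F] v k)
    (hn : ∀ i, ∃ n : ℕ, LinearMap.rTensor V' (D i ^ n) ξ = 0)
    (h : ∀ i, LinearMap.rTensor V' (D i) ξ + LinearMap.lTensor V (D' i) ξ = 0) :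
    ∀ l : List ι, l.length = r → LinearMap.rTensor V' ((l.map D).prod) ξ = 0 := by
  intro l hl
  have hΦ : ∀ g, NP_c g ξ = ∑ k, g (v k) • u k := by
    intro g
    rw [hξ, map_sum]
    exact Finset.sum_congr rfl (fun k _ => NP_c_tmul g _ _)
  have hr : ∀ (A : Module.End F V) (g : V' →ₗ[F] F), NP_c g (LinearMap.rTensor V' A ξ) = A (NP_c g ξ) := by
    intro A g
    rw [hΦ, hξ, map_sum, map_sum, map_sum]
    refine Finset.sum_congr rfl (fun k _ => ?_)
    rw [LinearMap.rTensor_tmul, NP_c_tmul, map_smul]
  have hl' : ∀ (A : Module.End F V') (g : V' →ₗ[F] F), NP_c g (LinearMap.lTensor V A ξ) = NP_c (g ∘ₗ A) ξ := by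
    intro A g
    rw [hΦ, hξ, map_sum, map_sum]
    refine Finset.sum_congr rfl (fun k _ => ?_)
    rw [LinearMap.lTensor_tmul, NP_c_tmul, LinearMap.comp_apply]
  let N : Submodule F V := Submodule.span F (Set.range (fun g : V' →ₗ[F] F => NP_c g ξ))
  have hNu : N ≤ Submodule.span F (Set.range u) := by
    rw [Submodule.span_le]
    rintro _ ⟨g, rfl⟩
    show NP_c g ξ ∈ Submodule.span F (Set.range u)
    rw [hΦ]
    exact Submodule.sum_mem _ (fun k _ => Submodule.smul_mem _ _ (Submodule.subset_span ⟨k, rfl⟩))
  have hfu : FiniteDimensional F (Submodule.span F (Set.range u)) :=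
    FiniteDimensional.span_of_finite F (Set.finite_range u)
  have hfN : FiniteDimensional F N := Submodule.finiteDimensional_of_le hNu
  have hrank : Module.finrank F N ≤ r := by
    calc Module.finrank F N ≤ Module.finrank F (Submodule.span F (Set.range u)) :=
          Submodule.finrank_mono hNu
      _ ≤ Fintype.card (Fin r) := finrank_range_le_card u
      _ = r := Fintype.card_fin r
  have hst : ∀ i, N ≤ N.comap (D i) := by
    intro i
    rw [Submodule.span_le]
    rintro _ ⟨g, rfl⟩
    show D i (NP_c g ξ) ∈ N
    have h1 := congrArg (NP_c g) (h i)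
    rw [map_add, map_zero, hr, hl'] at h1
    rw [eq_neg_of_add_eq_zero_left h1]
    exact Submodule.neg_mem _ (Submodule.subset_span ⟨g ∘ₗ D' i, rfl⟩)
  have hnil : ∀ i, ∃ n : ℕ, ∀ x ∈ N, (D i ^ n) x = 0 := by
    intro i
    obtain ⟨n, hn⟩ := hn i
    refine ⟨n, ?_⟩
    have hle : N ≤ LinearMap.ker (D i ^ n) := by
      rw [Submodule.span_le]
      rintro _ ⟨g, rfl⟩
      show (D i ^ n) (NP_c g ξ) = 0
      rw [← hr, hn, map_zero]
    intro x hx
    exact hle hx
  apply NP_eq_zero
  intro g
  rw [hr]
  exact NP_list D hD N hnil l N le_rfl hst (by rw [hl]; exact hrank) _ (Submodule.subset_span ⟨g, rfl⟩)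


end EL
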