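import Pool.Agent.Lib.MP_a5a771_alT.Defs

/-!
# The scalar

PROOF. `Y k = Yk act χ k`. If `Y 1 = ⊥` then all `Y k = ⊥` (if `0 ≠ v ∈ Y (k + 1)`, then either `v ∈ Y 1` or some `act a v - χ a • v ∈ Y k` is not `0`: `Yk_sub`, `Yk_one`) and `c = 1` works. Otherwise fix
`0 ≠ y₀ ∈ Y 1`. For `v ∈ Y k` choose `n, a, x` by `hG` and put `h v = ∑ χ (a i) • x i ∈ Y k`: `G (v ⊗ y) = h v ⊗ y` for all `y ∈ Y 1` (`act (a i) y = χ (a i) • y`); `h v` is determined by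
`G (v ⊗ y₀) = h v ⊗ y₀`, so `h` is linear on `Y k`, the same for all `k`, and injective (`G` is). For `w ∈ Y j`: `G (v ⊗ w) - h v ⊗ w = ∑ x i ⊗ (act (a i) w - χ (a i) • w) ∈ TT2 (Y k) (Y (j - 1))`
(`Yk_sub`; `j = 0` is trivial, `Y 0 = ⊥`). (*)
(1) `h` is a scalar `c` on `Y 1`: for `u ∈ Y 1`: `G (u ⊗ h u - h u ⊗ u) = h u ⊗ h u - h (h u) ⊗ u ∈ AltS` by `hA`. If `u, h u` were linearly independent take a linear form `f` with
`f (h u) = 1`, `f u = 0`: `f ⊗ f` kills `AltS` but takes the value `1` here. So every `u ∈ Y 1` is an eigenvector of `h`, so `h = c` on `Y 1`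
(Mathlib: `LinearMap.exists_eq_smul_id_of_forall_notLinearIndependent` or by hand), `c ≠ 0` as `h` is injective.
(2) `h v - c • v ∈ Y (k - 1)` for `v ∈ Y k`, `k ≥ 2`: `ζ = G (v ⊗ y₀ - y₀ ⊗ v) = h v ⊗ y₀ - c • (y₀ ⊗ v) - ρ ∈ AltS`, `ρ ∈ TT2 (Y 1) (Y (k - 1))` by (*) for `y₀ ⊗ v` and (1). So
`comm ζ = - ζ`. Map to `(V ⧸ Y (k - 1)) ⊗ V`: `ζ ↦ (class of h v) ⊗ y₀` (as `Y 1 ≤ Y (k - 1)`), `comm ζ = y₀ ⊗ h v - c • (v ⊗ y₀) - comm ρ ↦ - c • (class of v) ⊗ y₀` (as `comm ρ ∈ TT2 (Y (k - 1)) (Y 1)`).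
So the class of `h v - c • v` is `0` (`y₀ ≠ 0`).
(3) `G (v ⊗ w) - c • v ⊗ w = (h v - c • v) ⊗ w + (G (v ⊗ w) - h v ⊗ w)`: first summand in `TT2 (Y (k - 1)) (Y j)` (by (1) and (2); `k = 0` is trivial), second in `TT2 (Y k) (Y (j - 1))`.
-/

set_option autoImplicit false

namespace EL

open scoped TensorProduct

section

variable {F V : Type*} [Field F] [AddCommGroup V] [Module F V]

/-- `v ⊗ w ↦ f v * g w` -/
private def SC_ev (f g : V →ₗ[F] F) : V ⊗[F] V →ₗ[F] F := (LinearMap.mul' F F) ∘ₗ TensorProduct.map f g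

private theorem SC_ev_tmul (f g : V →ₗ[F] F) (v w : V) : SC_ev f g (v ⊗ₜ w) = f v * g w := rfl

private theorem SC_ev_comm (f g : V →ₗ[F] F) (ζ : V ⊗[F] V) :
    SC_ev f g (TensorProduct.comm F V V ζ) = SC_ev g f ζ := by
  induction ζ using TensorProduct.induction_on with
  | zero => simp only [map_zero]
  | tmul v w => rw [TensorProduct.comm_tmul, SC_ev_tmul, SC_ev_tmul, mul_comm]
  | add x y hx hy => rw [map_add, map_add, map_add, hx, hy]

private theorem SC_alt {ζ : V ⊗[F] V} (h : ζ ∈ AltS F V) : TensorProduct.comm F V V ζ = -ζ := by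
  obtain ⟨η, rfl⟩ := mem_AltS.1 h
  have h1 : TensorProduct.comm F V V (TensorProduct.comm F V V η) = η :=
    (TensorProduct.comm F V V).symm_apply_apply η
  rw [map_sub, h1, neg_sub]

private theorem SC_alt_ev {ζ : V ⊗[F] V} (h : ζ ∈ AltS F V) (f : V →ₗ[F] F) : SC_ev f f ζ = 0 := by
  obtain ⟨η, rfl⟩ := mem_AltS.1 h
  rw [map_sub, SC_ev_comm, sub_self]

private theorem SC_TT2_left {N N' : Submodule F V} {ρ : V ⊗[F] V} (hρ : ρ ∈ TT2 N N') {f : V →ₗ[F] F}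
    (hf : ∀ v ∈ N, f v = 0) (g : V →ₗ[F] F) : SC_ev f g ρ = 0 := by
  have h : TT2 N N' ≤ LinearMap.ker (SC_ev f g) := by
    rw [TT2, Submodule.span_le]
    rintro _ ⟨v, hv, w, hw, rfl⟩
    rw [SetLike.mem_coe, LinearMap.mem_ker, SC_ev_tmul, hf v hv, zero_mul]
  exact LinearMap.mem_ker.1 (h hρ)

private theorem SC_TT2_right {N N' : Submodule F V} {ρ : V ⊗[F] V} (hρ : ρ ∈ TT2 N N') (f : V →ₗ[F] F)
    {g : V →ₗ[F] F} (hg : ∀ v ∈ N', g v = 0) : SC_ev f g ρ = 0 := by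
  have h : TT2 N N' ≤ LinearMap.ker (SC_ev f g) := by
    rw [TT2, Submodule.span_le]
    rintro _ ⟨v, hv, w, hw, rfl⟩
    rw [SetLike.mem_coe, LinearMap.mem_ker, SC_ev_tmul, hg w hw, mul_zero]
  exact LinearMap.mem_ker.1 (h hρ)

private theorem SC_dual {v : V} (hv : v ≠ 0) : ∃ f : V →ₗ[F] F, f v = 1 := by
  by_contra h
  apply hv
  rw [← Module.forall_dual_apply_eq_zero_iff F v]
  intro f
  by_contra hf
  exact h ⟨(f v)⁻¹ • f, by rw [LinearMap.smul_apply, smul_eq_mul, inv_mul_cancel₀ hf]⟩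

end

theorem scal {F A V : Type*} [Field F] [CommRing A] [Algebra F A] [AddCommGroup V] [Module F V]
    (act : A →ₐ[F] Module.End F V) (χ : A →ₐ[F] F) (G : V ⊗[F] V ≃ₗ[F] V ⊗[F] V)
    (hG : ∀ k, ∀ v ∈ Yk act χ k, ∃ (n : ℕ) (a : Fin n → A) (x : Fin n → V), (∀ i, x i ∈ Yk act χ k) ∧
      ∀ w, G (v ⊗ₜ w) = ∑ i, x i ⊗ₜ act (a i) w)
    (hA : ∀ ζ ∈ AltS F V, G ζ ∈ AltS F V) :
    ∃ c : F, c ≠ 0 ∧ ∀ k j, ∀ v ∈ Yk act χ k, ∀ w ∈ Yk act χ j,
      G (v ⊗ₜ w) - c • (v ⊗ₜ w) ∈ TT2 (Yk act χ (k - 1)) (Yk act χ j) ⊔ TT2 (Yk act χ k) (Yk act χ (j - 1)) := by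
  classical
  by_cases hY : Yk act χ 1 = ⊥
  · have hall : ∀ k, Yk act χ k = ⊥ := by
      intro k
      induction k with
      | zero => exact Yk_zero act χ
      | succ k ih =>
        rw [eq_bot_iff]
        intro v hv
        rw [← hY, Yk_one]
        intro a
        have h := Yk_sub hv a
        rw [ih, Submodule.mem_bot, sub_eq_zero] at h
        exact h
    refine ⟨1, one_ne_zero, fun k j v hv w hw => ?_⟩
    rw [hall, Submodule.mem_bot] at hv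
    rw [hv, TensorProduct.zero_tmul, map_zero, smul_zero, sub_zero]
    exact Submodule.zero_mem _
  obtain ⟨y₀, hy₀, hne⟩ := (Submodule.ne_bot_iff _).1 hY
  obtain ⟨f, hf⟩ := SC_dual (F := F) hne
  -- the linear map h
  obtain ⟨h, hh⟩ : ∃ h : V →ₗ[F] V, ∀ v, h v = TensorProduct.rid F V (LinearMap.lTensor V f (G (v ⊗ₜ y₀))) :=
    ⟨(TensorProduct.rid F V).toLinearMap ∘ₗ LinearMap.lTensor V f ∘ₗ G.toLinearMap ∘ₗ
      (TensorProduct.mk F V V).flip y₀, fun _ => rfl⟩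
  have hmain : ∀ k, ∀ v ∈ Yk act χ k, h v ∈ Yk act χ k ∧ (∀ y ∈ Yk act χ 1, G (v ⊗ₜ y) = h v ⊗ₜ y) ∧
      ∀ j, ∀ w ∈ Yk act χ j, G (v ⊗ₜ w) - h v ⊗ₜ w ∈ TT2 (Yk act χ k) (Yk act χ (j - 1)) := by
    intro k v hv
    obtain ⟨n, a, x, hx, hG'⟩ := hG k v hv
    have h1 : ∀ y ∈ Yk act χ 1, G (v ⊗ₜ y) = (∑ i, χ (a i) • x i) ⊗ₜ y := by
      intro y hy
      rw [hG', TensorProduct.sum_tmul]
      refine Finset.sum_congr rfl fun i _ => ?_
      rw [Yk_one.1 hy (a i), TensorProduct.tmul_smul, TensorProduct.smul_tmul']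
    have h2 : h v = ∑ i, χ (a i) • x i := by
      rw [hh, h1 y₀ hy₀, LinearMap.lTensor_tmul, TensorProduct.rid_tmul, hf, one_smul]
    refine ⟨?_, ?_, ?_⟩
    · rw [h2]
      exact Submodule.sum_mem _ fun i _ => Submodule.smul_mem _ _ (hx i)
    · rw [h2]
      exact h1
    · intro j w hw
      cases j with
      | zero =>
        rw [Yk_zero, Submodule.mem_bot] at hw
        rw [hw, TensorProduct.tmul_zero, TensorProduct.tmul_zero, map_zero, sub_zero]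
        exact Submodule.zero_mem _
      | succ j =>
        rw [h2, hG', TensorProduct.sum_tmul, ← Finset.sum_sub_distrib]
        refine Submodule.sum_mem _ fun i _ => ?_
        rw [← TensorProduct.smul_tmul', ← TensorProduct.tmul_smul, ← TensorProduct.tmul_sub]
        exact tmul_mem_TT2 (hx i) (Yk_sub hw (a i))
  -- h is a scalar on Y 1
  have hflip : ∀ a b : V, G (a ⊗ₜ b - b ⊗ₜ a) ∈ AltS F V := fun a b =>
    hA _ (mem_AltS.2 ⟨a ⊗ₜ b, by rw [TensorProduct.comm_tmul]⟩)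
  have hone : ∀ u ∈ Yk act χ 1, ∃ c : F, h u = c • u := by
    intro u hu
    by_cases hu0 : u = 0
    · exact ⟨0, by rw [hu0, map_zero, smul_zero]⟩
    obtain ⟨f₀, hf₀⟩ := SC_dual (F := F) hu0
    have hker : ∀ g : V →ₗ[F] F, g u = 0 → g (h u) = 0 := by
      intro g hg
      have h3 := hflip u (h u)
      rw [map_sub, (hmain 1 u hu).2.1 _ (hmain 1 u hu).1, (hmain 1 _ (hmain 1 u hu).1).2.1 u hu] at h3
      have h4 := SC_alt_ev h3 g
      rw [map_sub, SC_ev_tmul, SC_ev_tmul, hg, mul_zero, sub_zero] at h4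
      exact mul_self_eq_zero.1 h4
    refine ⟨f₀ (h u), ?_⟩
    rw [← sub_eq_zero, ← Module.forall_dual_apply_eq_zero_iff F]
    intro g
    have h5 := hker (g - g u • f₀) (by
      rw [LinearMap.sub_apply, LinearMap.smul_apply, hf₀, smul_eq_mul, mul_one, sub_self])
    rw [LinearMap.sub_apply, LinearMap.smul_apply, smul_eq_mul] at h5
    rw [map_sub, map_smul, smul_eq_mul, mul_comm (f₀ (h u))]
    exact h5
  obtain ⟨c, hc⟩ := hone y₀ hy₀
  have hsc : ∀ u ∈ Yk act χ 1, h u = c • u := by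
    intro u hu
    obtain ⟨c₁, hc₁⟩ := hone u hu
    obtain ⟨c₂, hc₂⟩ := hone (u + y₀) (Submodule.add_mem _ hu hy₀)
    rw [map_add, hc₁, hc, smul_add] at hc₂
    by_cases h6 : c₂ = c
    · rw [h6] at hc₂
      rw [hc₁]
      exact add_right_cancel hc₂
    · have h7 : (c₂ - c) • y₀ = (c₁ - c₂) • u := by
        rw [sub_smul, sub_smul, sub_eq_sub_iff_add_eq_add, add_comm (c₂ • y₀), ← hc₂]
      have h8 : y₀ = ((c₂ - c)⁻¹ * (c₁ - c₂)) • u := by
        rw [mul_smul, ← h7, smul_smul, inv_mul_cancel₀ (sub_ne_zero.2 h6), one_smul]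
      have h9 : c • y₀ = c₁ • y₀ := by
        rw [← hc]
        nth_rewrite 1 [h8]
        rw [map_smul, hc₁, smul_comm, ← h8]
      have h10 : c = c₁ := smul_left_injective F hne h9
      rw [hc₁, h10]
  have hc0 : c ≠ 0 := by
    intro h0
    have h11 := (hmain 1 y₀ hy₀).2.1 y₀ hy₀
    rw [hsc y₀ hy₀, h0, zero_smul, TensorProduct.zero_tmul] at h11
    have h12 : y₀ ⊗ₜ[F] y₀ = 0 := G.injective (h11.trans (map_zero G).symm)
    have h13 := SC_ev_tmul f f y₀ y₀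
    rw [h12, map_zero, hf, mul_one] at h13
    exact one_ne_zero h13.symm
  -- modulo Y (k - 1)
  have hmod : ∀ k, ∀ v ∈ Yk act χ k, h v - c • v ∈ Yk act χ (k - 1) := by
    intro k v hv
    match k, hv with
    | 0, hv =>
      rw [Yk_zero, Submodule.mem_bot] at hv
      rw [hv, map_zero, smul_zero, sub_zero]
      exact Submodule.zero_mem _
    | 1, hv =>
      rw [hsc v hv, sub_self]
      exact Submodule.zero_mem _
    | K + 2, hv =>
      show h v - c • v ∈ Yk act χ (K + 1)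
      by_contra hnot
      obtain ⟨g, hg1, hg2⟩ := Submodule.exists_dual_map_eq_bot_of_notMem hnot inferInstance
      have hgN : ∀ z ∈ Yk act χ (K + 1), g z = 0 := by
        intro z hz
        have h14 : g z ∈ (Yk act χ (K + 1)).map g := Submodule.mem_map_of_mem hz
        rw [hg2] at h14
        exact (Submodule.mem_bot F).1 h14
      have hg0 : ∀ z ∈ Yk act χ 1, g z = 0 := fun z hz => hgN z (Yk_mono act χ (by omega) hz)
      obtain ⟨ρ, hρ⟩ : ∃ ρ, ρ = G (y₀ ⊗ₜ v) - h y₀ ⊗ₜ v := ⟨_, rfl⟩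
      have hρm : ρ ∈ TT2 (Yk act χ 1) (Yk act χ (K + 1)) := by
        rw [hρ]
        exact (hmain 1 y₀ hy₀).2.2 (K + 2) v hv
      have h15 := hflip v y₀
      have h16 : G (v ⊗ₜ y₀ - y₀ ⊗ₜ v) = h v ⊗ₜ y₀ - (c • y₀) ⊗ₜ v - ρ := by
        rw [map_sub, (hmain (K + 2) v hv).2.1 y₀ hy₀, hρ, hsc y₀ hy₀]
        abel
      rw [h16] at h15
      have h17 := congrArg (SC_ev g f) (SC_alt h15)
      rw [SC_ev_comm, map_neg, map_sub, map_sub, map_sub, map_sub, SC_ev_tmul, SC_ev_tmul, SC_ev_tmul, SC_ev_tmul,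
        SC_TT2_right hρm f hgN, SC_TT2_left hρm hg0 f, map_smul, map_smul, hg0 y₀ hy₀, hf] at h17
      apply hg1
      rw [map_sub, map_smul]
      simp only [smul_eq_mul, mul_zero, mul_one, zero_mul, sub_zero, zero_sub] at h17 ⊢
      linear_combination h17
  refine ⟨c, hc0, fun k j v hv w hw => ?_⟩
  have h18 : G (v ⊗ₜ w) - c • (v ⊗ₜ w) = (h v - c • v) ⊗ₜ w + (G (v ⊗ₜ w) - h v ⊗ₜ w) := by
    rw [TensorProduct.sub_tmul, TensorProduct.smul_tmul']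
    abel
  rw [h18]
  exact Submodule.add_mem_sup (tmul_mem_TT2 (hmod k v hv) hw) ((hmain k v hv).2.2 j w hw)

end EL
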